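import Pool.Agent.Helper12.CW.NF0
import Pool.Agent.Helper90.CX.CT2

/-!
Plan W (MP_c75db0), row M6, part 1: positivity of a hermitian form of order 3 given by six models
(KerT machine): test at all leaves.
-/

set_option autoImplicit false
noncomputable section
namespace Pool.Agent.Helper82.TST

open Matrix
open Pool.Agent.Helper90.C75
open Pool.Agent.Helper90.KMT
open Pool.Agent.Helper90.KMO (UU UU_pos UUc_ne norm_UU zv zv_sub zv_mul zv_add zv_p cz andB_t)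
open Pool.Agent.Helper86.C75 (Z H3)
open Pool.Agent.Helper86.CX (Cx andB)
open Pool.Agent.Helper86.CT (N3 Alg Mo KM fa fc fb)
open Pool.Agent.Helper6.MONO
open Pool.Agent.Helper6.MONO.W2

/-! ### the kernel side -/

/-- a test of six values at all leaves -/
structure Lv (α : Type) where
  t : Nat → Nat → Nat → α → α → α → α → α → α → Bool

def lv6 (r s t : Nat) (a b c x y w : Cx) : Bool :=
  Pool.Agent.Helper86.C75.psd ⟨Z.sub a.re (Z.p r), Z.sub b.re (Z.p s), Z.sub c.re (Z.p t),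
    x.re, x.im, y.re, y.im, w.re, w.im⟩
def Lv0 : Lv Cx := ⟨lv6⟩
def nxLv {α : Type} (F : Lv α) : Lv (N3 α) :=
  ⟨fun r s t a b c x y w => andB (F.t r s t (fa a) (fa b) (fa c) (fa x) (fa y) (fa w))
    (andB (F.t r s t (fc a) (fc b) (fc c) (fc x) (fc y) (fc w))
      (F.t r s t (fb a) (fb b) (fb c) (fb x) (fb y) (fb w)))⟩
def Lv1 : Lv (N3 Cx) := nxLv Lv0
def Lv2 : Lv (N3 (N3 Cx)) := nxLv Lv1
def Lv3 : Lv (N3 (N3 (N3 Cx))) := nxLv Lv2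
def Lv4 : Lv (N3 (N3 (N3 (N3 Cx)))) := nxLv Lv3

/-- THE TEST: the form is positive -/
def posT {α : Type} (L : Lv α) (M : KM α) : Bool :=
  L.t (Nat.add (Nat.add M.a.r M.x.r) M.y.r) (Nat.add (Nat.add M.b.r M.x.r) M.w.r)
    (Nat.add (Nat.add M.c.r M.y.r) M.w.r) M.a.v M.b.v M.c.v M.x.v M.y.v M.w.v

/-- `65536 u - l u'` -/
def lcZ (l : Nat) (u u' : Z) : Z := Z.sub (Z.mul (Z.p (nat_lit 65536)) u) (Z.mul (Z.p l) u')

/-- a test of two forms at all leaves -/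
structure Lw (α : Type) where
  t : Nat → Nat → Nat → Nat → Z → α → α → α → α → α → α → α → α → α → α → α → α → Bool

def lw6 (r s t l : Nat) (m : Z) (a b c x y w a' b' c' x' y' w' : Cx) : Bool :=
  Pool.Agent.Helper86.C75.psd ⟨Z.sub (lcZ l a.re a'.re) (Z.add m (Z.p r)),
    Z.sub (lcZ l b.re b'.re) (Z.add m (Z.p s)), Z.add (Z.sub (lcZ l c.re c'.re) (Z.p t)) m,
    lcZ l x.re x'.re, lcZ l x.im x'.im, lcZ l y.re y'.re, lcZ l y.im y'.im, lcZ l w.re w'.re,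
    lcZ l w.im w'.im⟩
def Lw0 : Lw Cx := ⟨lw6⟩
def nxLw {α : Type} (F : Lw α) : Lw (N3 α) :=
  ⟨fun r s t l m a b c x y w a' b' c' x' y' w' =>
    andB (F.t r s t l m (fa a) (fa b) (fa c) (fa x) (fa y) (fa w)
      (fa a') (fa b') (fa c') (fa x') (fa y') (fa w'))
    (andB (F.t r s t l m (fc a) (fc b) (fc c) (fc x) (fc y) (fc w)
      (fc a') (fc b') (fc c') (fc x') (fc y') (fc w'))
      (F.t r s t l m (fb a) (fb b) (fb c) (fb x) (fb y) (fb w)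
      (fb a') (fb b') (fb c') (fb x') (fb y') (fb w')))⟩
def Lw1 : Lw (N3 Cx) := nxLw Lw0
def Lw2 : Lw (N3 (N3 Cx)) := nxLw Lw1
def Lw3 : Lw (N3 (N3 (N3 Cx))) := nxLw Lw2
def Lw4 : Lw (N3 (N3 (N3 (N3 Cx)))) := nxLw Lw3

def rd3 (e l r r' : Nat) : Nat := Nat.add e (Nat.add (Nat.mul (nat_lit 65536) r) (Nat.mul l r'))
/-- THE TEST `2 ^ 16 F ≥ l K + m 2 ^ (-48) J + e 2 ^ (-48)` -/
def geT {α : Type} (L : Lw α) (e l : Nat) (m : Z) (F K : KM α) : Bool :=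
  L.t (rd3 e l (Nat.add (Nat.add F.a.r F.x.r) F.y.r) (Nat.add (Nat.add K.a.r K.x.r) K.y.r))
    (rd3 e l (Nat.add (Nat.add F.b.r F.x.r) F.w.r) (Nat.add (Nat.add K.b.r K.x.r) K.w.r))
    (rd3 e l (Nat.add (Nat.add F.c.r F.y.r) F.w.r) (Nat.add (Nat.add K.c.r K.y.r) K.w.r)) l m
    F.a.v F.b.v F.c.v F.x.v F.y.v F.w.v K.a.v K.b.v K.c.v K.x.v K.y.v K.w.v

/-! ### positivity of a form with given entries -/

/-- the value of the form with diagonal `a b c` and entries `x = 01`, `y = 02`, `w = 12` -/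
def hq (a b c : ℝ) (x y w : ℂ) (u : V3) : ℝ :=
  a * ‖u 0‖ ^ 2 + b * ‖u 1‖ ^ 2 + c * ‖u 2‖ ^ 2 + 2 * (star (u 0) * (x * u 1)).re +
    2 * (star (u 0) * (y * u 2)).re + 2 * (star (u 1) * (w * u 2)).re

theorem sq_n (z : ℂ) : ‖z‖ ^ 2 = z.re ^ 2 + z.im ^ 2 := by
  rw [Complex.sq_norm, Complex.normSq_apply]
  ring

theorem re3 (u z v : ℂ) : (star u * (z * v)).re =
    z.re * (u.re * v.re + u.im * v.im) + z.im * (u.im * v.re - u.re * v.im) := by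
  have h : star u = (starRingEnd ℂ) u := rfl
  rw [h, Complex.mul_re, Complex.mul_re, Complex.mul_im, Complex.conj_re, Complex.conj_im]
  ring

theorem hq_pos {a b c : ℝ} {x y w : ℂ} (ha : 0 < a)
    (hm : 0 < a * b - (x.re * x.re + x.im * x.im))
    (hd : 0 < (a * b - (x.re * x.re + x.im * x.im)) * (a * c - (y.re * y.re + y.im * y.im)) -
      ((a * w.re - (x.re * y.re + x.im * y.im)) * (a * w.re - (x.re * y.re + x.im * y.im)) +
      (a * w.im - (x.re * y.im - x.im * y.re)) * (a * w.im - (x.re * y.im - x.im * y.re))))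
    (u : V3) : 0 ≤ hq a b c x y w u := by
  unfold hq
  rw [sq_n, sq_n, sq_n, re3, re3, re3]
  set m := a * b - (x.re * x.re + x.im * x.im) with hm'
  set r := a * w.re - (x.re * y.re + x.im * y.im) with hr
  set s := a * w.im - (x.re * y.im - x.im * y.re) with hs
  set n := a * c - (y.re * y.re + y.im * y.im) with hn
  have key : a * m * (a * ((u 0).re ^ 2 + (u 0).im ^ 2) + b * ((u 1).re ^ 2 + (u 1).im ^ 2) +
      c * ((u 2).re ^ 2 + (u 2).im ^ 2) +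
      2 * (x.re * ((u 0).re * (u 1).re + (u 0).im * (u 1).im) +
        x.im * ((u 0).im * (u 1).re - (u 0).re * (u 1).im)) +
      2 * (y.re * ((u 0).re * (u 2).re + (u 0).im * (u 2).im) +
        y.im * ((u 0).im * (u 2).re - (u 0).re * (u 2).im)) +
      2 * (w.re * ((u 1).re * (u 2).re + (u 1).im * (u 2).im) +
        w.im * ((u 1).im * (u 2).re - (u 1).re * (u 2).im))) =
      m * (a * (u 0).re + (x.re * (u 1).re - x.im * (u 1).im) +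
        (y.re * (u 2).re - y.im * (u 2).im)) ^ 2 +
      m * (a * (u 0).im + (x.re * (u 1).im + x.im * (u 1).re) +
        (y.re * (u 2).im + y.im * (u 2).re)) ^ 2 +
      (m * (u 1).re + (r * (u 2).re - s * (u 2).im)) ^ 2 +
      (m * (u 1).im + (r * (u 2).im + s * (u 2).re)) ^ 2 +
      (m * n - (r * r + s * s)) * ((u 2).re ^ 2 + (u 2).im ^ 2) := by
    rw [hm', hr, hs, hn]
    ring
  have hpos : 0 < a * m := mul_pos ha hm
  refine nonneg_of_mul_nonneg_right ?_ hpos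
  rw [key]
  have k1 : 0 ≤ m * (a * (u 0).re + (x.re * (u 1).re - x.im * (u 1).im) +
        (y.re * (u 2).re - y.im * (u 2).im)) ^ 2 := mul_nonneg hm.le (sq_nonneg _)
  have k2 : 0 ≤ m * (a * (u 0).im + (x.re * (u 1).im + x.im * (u 1).re) +
        (y.re * (u 2).im + y.im * (u 2).re)) ^ 2 := mul_nonneg hm.le (sq_nonneg _)
  have k3 : 0 ≤ (m * n - (r * r + s * s)) * ((u 2).re ^ 2 + (u 2).im ^ 2) :=
    mul_nonneg hd.le (by positivity)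
  have k4 := sq_nonneg (m * (u 1).re + (r * (u 2).re - s * (u 2).im))
  have k5 := sq_nonneg (m * (u 1).im + (r * (u 2).im + s * (u 2).re))
  linarith

/-! ### the leaves -/

theorem pos_zv {x : Z} (h : Z.isPos x = true) : 0 < zv x := by
  cases x with
  | p n =>
    have h1 : 1 ≤ n := Nat.le_of_ble_eq_true h
    show (0 : ℤ) < n
    exact_mod_cast h1
  | m n => cases h

theorem andB'_t {x y : Bool} (h : Pool.Agent.Helper86.C75.andB x y = true) :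
    x = true ∧ y = true := by
  cases x with
  | false => cases h
  | true => exact ⟨rfl, h⟩

theorem lv6_ok {r s t : ℕ} {a b c x y w : Cx} (h : lv6 r s t a b c x y w = true) (u : V3) :
    (r : ℝ) * ‖u 0‖ ^ 2 + s * ‖u 1‖ ^ 2 + t * ‖u 2‖ ^ 2 ≤
      hq (cz a).re (cz b).re (cz c).re (cz x) (cz y) (cz w) u := by
  have h' : Pool.Agent.Helper86.C75.psd2 (Z.sub a.re (Z.p r))
    (Z.sub (Z.mul (Z.sub a.re (Z.p r)) (Z.sub b.re (Z.p s)))
      (Z.add (Z.mul x.re x.re) (Z.mul x.im x.im)))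
    (Z.sub (Z.mul (Z.sub a.re (Z.p r)) (Z.sub c.re (Z.p t)))
      (Z.add (Z.mul y.re y.re) (Z.mul y.im y.im)))
    (Z.sub (Z.mul (Z.sub a.re (Z.p r)) w.re) (Z.add (Z.mul x.re y.re) (Z.mul x.im y.im)))
    (Z.sub (Z.mul (Z.sub a.re (Z.p r)) w.im) (Z.sub (Z.mul x.re y.im) (Z.mul x.im y.re))) = true := h
  obtain ⟨h1, h2⟩ := andB'_t h'
  obtain ⟨h2, h3⟩ := andB'_t h2
  have g1 := pos_zv h1
  have g2 := pos_zv h2
  have g3 := pos_zv h3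
  simp only [zv_sub, zv_mul, zv_add, zv_p] at g1 g2 g3
  have k1 : (0 : ℝ) < (zv a.re : ℝ) - r := by exact_mod_cast g1
  have k2 : (0 : ℝ) < ((zv a.re : ℝ) - r) * ((zv b.re : ℝ) - s) -
      ((zv x.re : ℝ) * zv x.re + (zv x.im : ℝ) * zv x.im) := by exact_mod_cast g2
  have k3 : (0 : ℝ) < (((zv a.re : ℝ) - r) * ((zv b.re : ℝ) - s) -
      ((zv x.re : ℝ) * zv x.re + (zv x.im : ℝ) * zv x.im)) *
      (((zv a.re : ℝ) - r) * ((zv c.re : ℝ) - t) -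
      ((zv y.re : ℝ) * zv y.re + (zv y.im : ℝ) * zv y.im)) -
      ((((zv a.re : ℝ) - r) * zv w.re - ((zv x.re : ℝ) * zv y.re + (zv x.im : ℝ) * zv y.im)) *
       (((zv a.re : ℝ) - r) * zv w.re - ((zv x.re : ℝ) * zv y.re + (zv x.im : ℝ) * zv y.im)) +
      (((zv a.re : ℝ) - r) * zv w.im - ((zv x.re : ℝ) * zv y.im - (zv x.im : ℝ) * zv y.re)) *
       (((zv a.re : ℝ) - r) * zv w.im - ((zv x.re : ℝ) * zv y.im - (zv x.im : ℝ) * zv y.re))) := by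
    exact_mod_cast g3
  have h4 := hq_pos (x := cz x) (y := cz y) (w := cz w) k1 k2 k3 u
  have e : hq ((zv a.re : ℝ) - r) ((zv b.re : ℝ) - s) ((zv c.re : ℝ) - t) (cz x) (cz y) (cz w) u =
      hq (cz a).re (cz b).re (cz c).re (cz x) (cz y) (cz w) u -
        ((r : ℝ) * ‖u 0‖ ^ 2 + s * ‖u 1‖ ^ 2 + t * ‖u 2‖ ^ 2) := by
    unfold hq
    show _ = (zv a.re : ℝ) * _ + (zv b.re : ℝ) * _ + (zv c.re : ℝ) * _ + _ + _ + _ - _
    ring
  rw [e] at h4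
  linarith

theorem zv_lc (l : ℕ) (u u' : Z) : (zv (lcZ l u u') : ℝ) = 65536 * zv u - l * zv u' := by
  unfold lcZ
  rw [zv_sub, zv_mul, zv_mul, zv_p, zv_p]
  push_cast
  norm_num

theorem psd_ok {a b c d e f g h i : Z}
    (hh : Pool.Agent.Helper86.C75.psd ⟨a, b, c, d, e, f, g, h, i⟩ = true) (u : V3) :
    0 ≤ hq (zv a) (zv b) (zv c) ⟨zv d, zv e⟩ ⟨zv f, zv g⟩ ⟨zv h, zv i⟩ u := by
  have h' : Pool.Agent.Helper86.C75.psd2 a (Z.sub (Z.mul a b) (Z.add (Z.mul d d) (Z.mul e e)))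
    (Z.sub (Z.mul a c) (Z.add (Z.mul f f) (Z.mul g g)))
    (Z.sub (Z.mul a h) (Z.add (Z.mul d f) (Z.mul e g)))
    (Z.sub (Z.mul a i) (Z.sub (Z.mul d g) (Z.mul e f))) = true := hh
  obtain ⟨h1, h2⟩ := andB'_t h'
  obtain ⟨h2, h3⟩ := andB'_t h2
  have g1 := pos_zv h1
  have g2 := pos_zv h2
  have g3 := pos_zv h3
  simp only [zv_sub, zv_mul, zv_add] at g1 g2 g3
  have k1 : (0 : ℝ) < (zv a : ℝ) := by exact_mod_cast g1
  have k2 : (0 : ℝ) < (zv a : ℝ) * (zv b : ℝ) - ((zv d : ℝ) * zv d + (zv e : ℝ) * zv e) := by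
    exact_mod_cast g2
  have k3 : (0 : ℝ) < ((zv a : ℝ) * (zv b : ℝ) - ((zv d : ℝ) * zv d + (zv e : ℝ) * zv e)) *
      ((zv a : ℝ) * (zv c : ℝ) - ((zv f : ℝ) * zv f + (zv g : ℝ) * zv g)) -
      (((zv a : ℝ) * zv h - ((zv d : ℝ) * zv f + (zv e : ℝ) * zv g)) *
       ((zv a : ℝ) * zv h - ((zv d : ℝ) * zv f + (zv e : ℝ) * zv g)) +
      ((zv a : ℝ) * zv i - ((zv d : ℝ) * zv g - (zv e : ℝ) * zv f)) *
       ((zv a : ℝ) * zv i - ((zv d : ℝ) * zv g - (zv e : ℝ) * zv f))) := by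
    exact_mod_cast g3
  exact hq_pos k1 k2 k3 u

theorem lw6_ok {r s t l : ℕ} {m : Z} {a b c x y w a' b' c' x' y' w' : Cx}
    (h : lw6 r s t l m a b c x y w a' b' c' x' y' w' = true) (u : V3) :
    (r : ℝ) * ‖u 0‖ ^ 2 + s * ‖u 1‖ ^ 2 + t * ‖u 2‖ ^ 2 +
      (zv m : ℝ) * (‖u 0‖ ^ 2 + ‖u 1‖ ^ 2 - ‖u 2‖ ^ 2) +
      l * hq (cz a').re (cz b').re (cz c').re (cz x') (cz y') (cz w') u ≤
      65536 * hq (cz a).re (cz b).re (cz c).re (cz x) (cz y) (cz w) u := by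
  have h4 := psd_ok h u
  have e : hq (zv (Z.sub (lcZ l a.re a'.re) (Z.add m (Z.p r))))
      (zv (Z.sub (lcZ l b.re b'.re) (Z.add m (Z.p s))))
      (zv (Z.add (Z.sub (lcZ l c.re c'.re) (Z.p t)) m))
      ⟨zv (lcZ l x.re x'.re), zv (lcZ l x.im x'.im)⟩
      ⟨zv (lcZ l y.re y'.re), zv (lcZ l y.im y'.im)⟩
      ⟨zv (lcZ l w.re w'.re), zv (lcZ l w.im w'.im)⟩ u =
      65536 * hq (cz a).re (cz b).re (cz c).re (cz x) (cz y) (cz w) u -
      l * hq (cz a').re (cz b').re (cz c').re (cz x') (cz y') (cz w') u -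
      (zv m : ℝ) * (‖u 0‖ ^ 2 + ‖u 1‖ ^ 2 - ‖u 2‖ ^ 2) -
      ((r : ℝ) * ‖u 0‖ ^ 2 + s * ‖u 1‖ ^ 2 + t * ‖u 2‖ ^ 2) := by
    have e1 : (zv (Z.sub (lcZ l a.re a'.re) (Z.add m (Z.p r))) : ℝ) =
        65536 * zv a.re - l * zv a'.re - (zv m + r) := by
      rw [zv_sub, zv_add, zv_p]
      push_cast
      rw [zv_lc]
    have e2 : (zv (Z.sub (lcZ l b.re b'.re) (Z.add m (Z.p s))) : ℝ) =
        65536 * zv b.re - l * zv b'.re - (zv m + s) := by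
      rw [zv_sub, zv_add, zv_p]
      push_cast
      rw [zv_lc]
    have e3 : (zv (Z.add (Z.sub (lcZ l c.re c'.re) (Z.p t)) m) : ℝ) =
        65536 * zv c.re - l * zv c'.re - t + zv m := by
      rw [zv_add, zv_sub, zv_p]
      push_cast
      rw [zv_lc]
    rw [e1, e2, e3]
    simp only [zv_lc]
    unfold hq
    rw [re3, re3, re3, re3, re3, re3, re3, re3, re3]
    simp only [cz]
    ring
  rw [e] at h4
  linarith

/-- the law of a test of two forms -/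
def LwOK {α : Type} (D : ℕ) (lf : α → Vt D → ℂ) (L : Lw α) : Prop :=
  ∀ (r s t l : ℕ) (m : Z) (a b c x y w a' b' c' x' y' w' : α),
    L.t r s t l m a b c x y w a' b' c' x' y' w' = true → ∀ (v : Vt D) (u : V3),
    (r : ℝ) * ‖u 0‖ ^ 2 + s * ‖u 1‖ ^ 2 + t * ‖u 2‖ ^ 2 +
      (zv m : ℝ) * (‖u 0‖ ^ 2 + ‖u 1‖ ^ 2 - ‖u 2‖ ^ 2) +
      l * hq (lf a' v).re (lf b' v).re (lf c' v).re (lf x' v) (lf y' v) (lf w' v) u ≤
      65536 * hq (lf a v).re (lf b v).re (lf c v).re (lf x v) (lf y v) (lf w v) u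

theorem Lw0_ok : LwOK 0 lf0 Lw0 :=
  fun _ _ _ _ _ _ _ _ _ _ _ _ _ _ _ _ _ h _ u => lw6_ok h u

/-- the law of a test -/
def LvOK {α : Type} (D : ℕ) (lf : α → Vt D → ℂ) (L : Lv α) : Prop :=
  ∀ (r s t : ℕ) (a b c x y w : α), L.t r s t a b c x y w = true → ∀ (v : Vt D) (u : V3),
    (r : ℝ) * ‖u 0‖ ^ 2 + s * ‖u 1‖ ^ 2 + t * ‖u 2‖ ^ 2 ≤
      hq (lf a v).re (lf b v).re (lf c v).re (lf x v) (lf y v) (lf w v) u

theorem Lv0_ok : LvOK 0 lf0 Lv0 := fun _ _ _ _ _ _ _ _ _ h _ u => lv6_ok h u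

theorem fa_c3 {α : Type} (x : N3 α) : fa x = c3 x 0 := by cases x <;> rfl
theorem fc_c3 {α : Type} (x : N3 α) : fc x = c3 x 1 := by cases x <;> rfl
theorem fb_c3 {α : Type} (x : N3 α) : fb x = c3 x 2 := by cases x <;> rfl

theorem LvOK.nx {α : Type} {D : ℕ} {lf : α → Vt D → ℂ} {L : Lv α} (h : LvOK D lf L) :
    LvOK (D + 1) (nlf lf) (nxLv L) := by
  intro r s t a b c x y w hh v u
  obtain ⟨h1, h2⟩ := andB_t hh
  obtain ⟨h2, h3⟩ := andB_t h2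
  rw [fa_c3, fa_c3, fa_c3, fa_c3, fa_c3, fa_c3] at h1
  rw [fc_c3, fc_c3, fc_c3, fc_c3, fc_c3, fc_c3] at h2
  rw [fb_c3, fb_c3, fb_c3, fb_c3, fb_c3, fb_c3] at h3
  obtain ⟨v', i⟩ := v
  fin_cases i
  · exact h _ _ _ _ _ _ _ _ _ h1 v' u
  · exact h _ _ _ _ _ _ _ _ _ h2 v' u
  · exact h _ _ _ _ _ _ _ _ _ h3 v' u

theorem LwOK.nx {α : Type} {D : ℕ} {lf : α → Vt D → ℂ} {L : Lw α} (h : LwOK D lf L) :
    LwOK (D + 1) (nlf lf) (nxLw L) := by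
  intro r s t l m a b c x y w a' b' c' x' y' w' hh v u
  obtain ⟨h1, h2⟩ := andB_t hh
  obtain ⟨h2, h3⟩ := andB_t h2
  simp only [fa_c3] at h1
  simp only [fc_c3] at h2
  simp only [fb_c3] at h3
  obtain ⟨v', i⟩ := v
  fin_cases i
  · exact h _ _ _ _ _ _ _ _ _ _ _ _ _ _ _ _ _ h1 v' u
  · exact h _ _ _ _ _ _ _ _ _ _ _ _ _ _ _ _ _ h2 v' u
  · exact h _ _ _ _ _ _ _ _ _ _ _ _ _ _ _ _ _ h3 v' u

theorem Lw1_ok : LwOK 1 (nlf lf0) Lw1 := Lw0_ok.nx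
theorem Lw2_ok : LwOK 2 (nlf (nlf lf0)) Lw2 := Lw1_ok.nx
theorem Lw3_ok : LwOK 3 (nlf (nlf (nlf lf0))) Lw3 := Lw2_ok.nx
theorem Lw4_ok : LwOK 4 (nlf (nlf (nlf (nlf lf0)))) Lw4 := Lw3_ok.nx

theorem Lv1_ok : LvOK 1 (nlf lf0) Lv1 := Lv0_ok.nx
theorem Lv2_ok : LvOK 2 (nlf (nlf lf0)) Lv2 := Lv1_ok.nx
theorem Lv3_ok : LvOK 3 (nlf (nlf (nlf lf0))) Lv3 := Lv2_ok.nx
theorem Lv4_ok : LvOK 4 (nlf (nlf (nlf (nlf lf0)))) Lv4 := Lv3_ok.nx

/-! ### a hermitian matrix given by six models -/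

variable {α : Type} {D : ℕ} {lf : α → Vt D → ℂ} {A : Alg α} {t : ℕ → ℝ}

/-- MODELS OF A HERMITIAN MATRIX -/
structure HK (D : ℕ) (lf : α → Vt D → ℂ) (t : ℕ → ℝ) (K : Mt) (M : KM α) : Prop where
  a : TOK D lf t (K 0 0) M.a
  b : TOK D lf t (K 1 1) M.b
  c : TOK D lf t (K 2 2) M.c
  x : TOK D lf t (K 0 1) M.x
  y : TOK D lf t (K 0 2) M.y
  w : TOK D lf t (K 1 2) M.w
  hm : ∀ i j, K j i = star (K i j)

theorem hr_hq {K : Mt} (h : ∀ i j, K j i = star (K i j)) (u : V3) :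
    hr K u = hq (K 0 0).re (K 1 1).re (K 2 2).re (K 0 1) (K 0 2) (K 1 2) u := by
  have hs : ∀ z : ℂ, star z = (starRingEnd ℂ) z := fun _ => rfl
  have h1 := h 0 1
  have h2 := h 0 2
  have h3 := h 1 2
  unfold hr hv hq
  rw [sq_n, sq_n, sq_n]
  simp only [Fin.sum_univ_three, h1, h2, h3, hs, Complex.add_re, Complex.mul_re, Complex.mul_im,
    Complex.conj_re, Complex.conj_im]
  ring

/-- linearity -/
theorem hq_avg {w : Vt D → ℝ} (a b c x y z : Vt D → ℂ) (u : V3) :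
    hq (avg w a).re (avg w b).re (avg w c).re (avg w x) (avg w y) (avg w z) u =
      ∑ v, w v * hq (a v).re (b v).re (c v).re (x v) (y v) (z v) u := by
  unfold hq
  rw [re3, re3, re3]
  simp only [avg_re, avg_im, re3, Finset.sum_mul, Finset.mul_sum, ← Finset.sum_add_distrib]
  exact Finset.sum_congr rfl fun v _ => by ring

theorem hq_sub (a b c a' b' c' : ℝ) (x y w x' y' w' : ℂ) (u : V3) :
    hq a b c x y w u - hq a' b' c' x' y' w' u =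
      hq (a - a') (b - b') (c - c') (x - x') (y - y') (w - w') u := by
  unfold hq
  rw [re3, re3, re3, re3, re3, re3, re3, re3, re3]
  simp only [Complex.sub_re, Complex.sub_im]
  ring

theorem re3_le (u z v : ℂ) {r : ℝ} (hz : ‖z‖ ≤ r) :
    |2 * (star u * (z * v)).re| ≤ r * ‖u‖ ^ 2 + r * ‖v‖ ^ 2 := by
  have h1 := Complex.abs_re_le_norm (star u * (z * v))
  rw [norm_mul, norm_mul, norm_star] at h1
  have h2 : ‖u‖ * (‖z‖ * ‖v‖) ≤ r * (‖u‖ * ‖v‖) := by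
    have := mul_le_mul_of_nonneg_right hz (mul_nonneg (norm_nonneg u) (norm_nonneg v))
    linarith
  have hr : 0 ≤ r := (norm_nonneg z).trans hz
  have h3 : 2 * (‖u‖ * ‖v‖) ≤ ‖u‖ ^ 2 + ‖v‖ ^ 2 := by nlinarith [sq_nonneg (‖u‖ - ‖v‖)]
  have h4 := mul_le_mul_of_nonneg_left h3 hr
  rw [abs_mul, abs_of_pos (by norm_num : (0 : ℝ) < 2)]
  linarith

theorem hq_small {a b c : ℝ} {x y w : ℂ} {ra rb rc rx ry rw : ℝ} (ha : |a| ≤ ra) (hb : |b| ≤ rb)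
    (hc : |c| ≤ rc) (hx : ‖x‖ ≤ rx) (hy : ‖y‖ ≤ ry) (hw : ‖w‖ ≤ rw) (u : V3) :
    -((ra + rx + ry) * ‖u 0‖ ^ 2 + (rb + rx + rw) * ‖u 1‖ ^ 2 + (rc + ry + rw) * ‖u 2‖ ^ 2) ≤
      hq a b c x y w u := by
  unfold hq
  have k1 := (abs_le.1 (re3_le (u 0) x (u 1) hx)).1
  have k2 := (abs_le.1 (re3_le (u 0) y (u 2) hy)).1
  have k3 := (abs_le.1 (re3_le (u 1) w (u 2) hw)).1
  have s0 := sq_nonneg ‖u 0‖
  have s1 := sq_nonneg ‖u 1‖
  have s2 := sq_nonneg ‖u 2‖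
  have l0 := mul_le_mul_of_nonneg_right (abs_le.1 ha).1 s0
  have l1 := mul_le_mul_of_nonneg_right (abs_le.1 hb).1 s1
  have l2 := mul_le_mul_of_nonneg_right (abs_le.1 hc).1 s2
  nlinarith

/-- SOUNDNESS OF THE TEST -/
theorem HK.pos (hP : PT D t) {K : Mt} {M : KM α} (h : HK D lf t K M) {L : Lv α}
    (hL : LvOK D lf L) (ht : posT L M = true) (u : V3) : 0 ≤ hr K u := by
  have hU := UU_pos
  rw [hr_hq h.hm]
  refine nonneg_of_mul_nonneg_right ?_ hU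
  have e1 : UU * hq (K 0 0).re (K 1 1).re (K 2 2).re (K 0 1) (K 0 2) (K 1 2) u =
      hq ((UU : ℂ) * K 0 0).re ((UU : ℂ) * K 1 1).re ((UU : ℂ) * K 2 2).re ((UU : ℂ) * K 0 1)
        ((UU : ℂ) * K 0 2) ((UU : ℂ) * K 1 2) u := by
    unfold hq
    rw [re3, re3, re3, re3, re3, re3]
    simp only [Complex.re_ofReal_mul, Complex.im_ofReal_mul]
    ring
  rw [e1]
  have e2 := hq_avg (w := wtT D t) (lf M.a.v) (lf M.b.v) (lf M.c.v) (lf M.x.v) (lf M.y.v)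
    (lf M.w.v) u
  have h1 : ((M.a.r : ℝ) + M.x.r + M.y.r) * ‖u 0‖ ^ 2 + (M.b.r + M.x.r + M.w.r) * ‖u 1‖ ^ 2 +
      (M.c.r + M.y.r + M.w.r) * ‖u 2‖ ^ 2 ≤
      hq (avg (wtT D t) (lf M.a.v)).re (avg (wtT D t) (lf M.b.v)).re
        (avg (wtT D t) (lf M.c.v)).re (avg (wtT D t) (lf M.x.v)) (avg (wtT D t) (lf M.y.v))
        (avg (wtT D t) (lf M.w.v)) u := by
    rw [e2]
    have h2 := hL _ _ _ _ _ _ _ _ _ ht
    calc ((M.a.r : ℝ) + M.x.r + M.y.r) * ‖u 0‖ ^ 2 + (M.b.r + M.x.r + M.w.r) * ‖u 1‖ ^ 2 +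
      (M.c.r + M.y.r + M.w.r) * ‖u 2‖ ^ 2 = ∑ v, wtT D t v *
        (((M.a.r : ℝ) + M.x.r + M.y.r) * ‖u 0‖ ^ 2 + (M.b.r + M.x.r + M.w.r) * ‖u 1‖ ^ 2 +
        (M.c.r + M.y.r + M.w.r) * ‖u 2‖ ^ 2) := by
          rw [← Finset.sum_mul, hP.w.sum, one_mul]
      _ ≤ _ := by
        refine Finset.sum_le_sum fun v _ => mul_le_mul_of_nonneg_left ?_ (hP.w.nonneg v)
        have h3 := h2 v u
        have e3 : ∀ m n k : ℕ, ((Nat.add (Nat.add m n) k : ℕ) : ℝ) = m + n + k := by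
          intro m n k
          show ((m + n + k : ℕ) : ℝ) = _
          push_cast
          ring
        rw [e3, e3, e3] at h3
        exact h3
  have hd : ∀ {f : ℂ} {N : Mo α}, TOK D lf t f N →
      ‖(UU : ℂ) * f - avg (wtT D t) (lf N.v)‖ ≤ N.r := fun hh => hh.mod
  have hdr : ∀ {f : ℂ} {N : Mo α}, TOK D lf t f N →
      |((UU : ℂ) * f).re - (avg (wtT D t) (lf N.v)).re| ≤ N.r := fun hh => by
    rw [← Complex.sub_re]
    exact (Complex.abs_re_le_norm _).trans (hd hh)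
  have h4 := hq_small (hdr h.a) (hdr h.b) (hdr h.c) (hd h.x) (hd h.y) (hd h.w) u
  rw [← hq_sub] at h4
  linarith

/-- a form against its controls: `UU K(u)` is at least the average minus the radii -/
theorem HK.near (_hP : PT D t) {K : Mt} {M : KM α} (h : HK D lf t K M) (u : V3) :
    |UU * hr K u - hq (avg (wtT D t) (lf M.a.v)).re (avg (wtT D t) (lf M.b.v)).re
        (avg (wtT D t) (lf M.c.v)).re (avg (wtT D t) (lf M.x.v)) (avg (wtT D t) (lf M.y.v))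
        (avg (wtT D t) (lf M.w.v)) u| ≤
      ((M.a.r : ℝ) + M.x.r + M.y.r) * ‖u 0‖ ^ 2 + (M.b.r + M.x.r + M.w.r) * ‖u 1‖ ^ 2 +
      (M.c.r + M.y.r + M.w.r) * ‖u 2‖ ^ 2 := by
  have e1 : UU * hr K u = hq ((UU : ℂ) * K 0 0).re ((UU : ℂ) * K 1 1).re ((UU : ℂ) * K 2 2).re
      ((UU : ℂ) * K 0 1) ((UU : ℂ) * K 0 2) ((UU : ℂ) * K 1 2) u := by
    rw [hr_hq h.hm]
    unfold hq
    rw [re3, re3, re3, re3, re3, re3]
    simp only [Complex.re_ofReal_mul, Complex.im_ofReal_mul]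
    ring
  rw [e1]
  have hd : ∀ {f : ℂ} {N : Mo α}, TOK D lf t f N →
      ‖(UU : ℂ) * f - avg (wtT D t) (lf N.v)‖ ≤ N.r := fun hh => hh.mod
  have hdr : ∀ {f : ℂ} {N : Mo α}, TOK D lf t f N →
      |((UU : ℂ) * f).re - (avg (wtT D t) (lf N.v)).re| ≤ N.r := fun hh => by
    rw [← Complex.sub_re]
    exact (Complex.abs_re_le_norm _).trans (hd hh)
  have hd' : ∀ {f : ℂ} {N : Mo α}, TOK D lf t f N →
      ‖avg (wtT D t) (lf N.v) - (UU : ℂ) * f‖ ≤ N.r := fun hh => by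
    rw [norm_sub_rev]
    exact hd hh
  have hdr' : ∀ {f : ℂ} {N : Mo α}, TOK D lf t f N →
      |(avg (wtT D t) (lf N.v)).re - ((UU : ℂ) * f).re| ≤ N.r := fun hh => by
    rw [abs_sub_comm]
    exact hdr hh
  have h4 := hq_small (hdr h.a) (hdr h.b) (hdr h.c) (hd h.x) (hd h.y) (hd h.w) u
  have h5 := hq_small (hdr' h.a) (hdr' h.b) (hdr' h.c) (hd' h.x) (hd' h.y) (hd' h.w) u
  rw [← hq_sub] at h4 h5
  exact abs_le.2 ⟨by linarith, by linarith⟩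

/-- SOUNDNESS OF THE TEST OF TWO FORMS -/
theorem HK.ge (hP : PT D t) {F K : Mt} {M N : KM α} (hF : HK D lf t F M) (hK : HK D lf t K N)
    {L : Lw α} (hL : LwOK D lf L) {e l : ℕ} {m : Z} (ht : geT L e l m M N = true) (u : V3) :
    (e : ℝ) / UU * nq u + (zv m : ℝ) / UU * hr J1 u + l * hr K u ≤ 65536 * hr F u := by
  have hU := UU_pos
  have h1 := abs_le.1 (hF.near hP u)
  have h2 := abs_le.1 (hK.near hP u)
  have eJ : hr J1 u = ‖u 0‖ ^ 2 + ‖u 1‖ ^ 2 - ‖u 2‖ ^ 2 := by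
    have hs : ∀ z : ℂ, star z = (starRingEnd ℂ) z := fun _ => rfl
    rw [sq_n, sq_n, sq_n]
    unfold hr hv
    simp only [J1, Fin.sum_univ_three, Matrix.of_apply, Matrix.cons_val_zero,
      Matrix.cons_val_one, Matrix.cons_val, Matrix.cons_val', hs, Complex.add_re, Complex.mul_re,
      Complex.mul_im, Complex.conj_re, Complex.conj_im, Complex.one_re, Complex.one_im,
      Complex.zero_re, Complex.zero_im, Complex.neg_re, Complex.neg_im]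
    ring
  have e3 := hq_avg (w := wtT D t) (lf M.a.v) (lf M.b.v) (lf M.c.v) (lf M.x.v) (lf M.y.v)
    (lf M.w.v) u
  have e4 := hq_avg (w := wtT D t) (lf N.a.v) (lf N.b.v) (lf N.c.v) (lf N.x.v) (lf N.y.v)
    (lf N.w.v) u
  have c3 : ∀ m n k : ℕ, ((Nat.add (Nat.add m n) k : ℕ) : ℝ) = m + n + k := by
    intro m n k
    show ((m + n + k : ℕ) : ℝ) = _
    push_cast
    ring
  have cr : ∀ r r' : ℕ, ((rd3 e l r r' : ℕ) : ℝ) = e + (65536 * r + l * r') := by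
    intro r r'
    show ((e + (65536 * r + l * r') : ℕ) : ℝ) = _
    push_cast
    ring
  have key : (e : ℝ) * nq u + (zv m : ℝ) * (‖u 0‖ ^ 2 + ‖u 1‖ ^ 2 - ‖u 2‖ ^ 2) +
      65536 * (((M.a.r : ℝ) + M.x.r + M.y.r) * ‖u 0‖ ^ 2 + (M.b.r + M.x.r + M.w.r) * ‖u 1‖ ^ 2 +
      (M.c.r + M.y.r + M.w.r) * ‖u 2‖ ^ 2) +
      l * (((N.a.r : ℝ) + N.x.r + N.y.r) * ‖u 0‖ ^ 2 + (N.b.r + N.x.r + N.w.r) * ‖u 1‖ ^ 2 +
      (N.c.r + N.y.r + N.w.r) * ‖u 2‖ ^ 2) +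
      l * hq (avg (wtT D t) (lf N.a.v)).re (avg (wtT D t) (lf N.b.v)).re
        (avg (wtT D t) (lf N.c.v)).re (avg (wtT D t) (lf N.x.v)) (avg (wtT D t) (lf N.y.v))
        (avg (wtT D t) (lf N.w.v)) u ≤
      65536 * hq (avg (wtT D t) (lf M.a.v)).re (avg (wtT D t) (lf M.b.v)).re
        (avg (wtT D t) (lf M.c.v)).re (avg (wtT D t) (lf M.x.v)) (avg (wtT D t) (lf M.y.v))
        (avg (wtT D t) (lf M.w.v)) u := by
    rw [e3, e4, Finset.mul_sum, Finset.mul_sum]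
    set R := (e : ℝ) * nq u + (zv m : ℝ) * (‖u 0‖ ^ 2 + ‖u 1‖ ^ 2 - ‖u 2‖ ^ 2) +
      65536 * (((M.a.r : ℝ) + M.x.r + M.y.r) * ‖u 0‖ ^ 2 + (M.b.r + M.x.r + M.w.r) * ‖u 1‖ ^ 2 +
      (M.c.r + M.y.r + M.w.r) * ‖u 2‖ ^ 2) +
      l * (((N.a.r : ℝ) + N.x.r + N.y.r) * ‖u 0‖ ^ 2 + (N.b.r + N.x.r + N.w.r) * ‖u 1‖ ^ 2 +
      (N.c.r + N.y.r + N.w.r) * ‖u 2‖ ^ 2) with hR
    have e5 : R = ∑ v, wtT D t v * R := by rw [← Finset.sum_mul, hP.w.sum, one_mul]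
    rw [e5, ← Finset.sum_add_distrib]
    refine Finset.sum_le_sum fun v _ => ?_
    have h3 := hL _ _ _ _ _ _ _ _ _ _ _ _ _ _ _ _ _ ht v u
    rw [cr, cr, cr, c3, c3, c3, c3, c3, c3] at h3
    have h4 : R + l * hq (lf N.a.v v).re (lf N.b.v v).re (lf N.c.v v).re (lf N.x.v v)
        (lf N.y.v v) (lf N.w.v v) u ≤ 65536 * hq (lf M.a.v v).re (lf M.b.v v).re
        (lf M.c.v v).re (lf M.x.v v) (lf M.y.v v) (lf M.w.v v) u := by
      rw [hR]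
      unfold nq
      linarith
    have h5 := mul_le_mul_of_nonneg_left h4 (hP.w.nonneg v)
    linarith
  rw [eJ]
  have hl : (0 : ℝ) ≤ l := Nat.cast_nonneg _
  have h6 := mul_le_mul_of_nonneg_left h2.2 hl
  have h7 : (e : ℝ) * nq u + (zv m : ℝ) * (‖u 0‖ ^ 2 + ‖u 1‖ ^ 2 - ‖u 2‖ ^ 2) +
      l * (UU * hr K u) ≤ 65536 * (UU * hr F u) := by linarith
  have h8 : UU * ((e : ℝ) / UU * nq u + (zv m : ℝ) / UU * (‖u 0‖ ^ 2 + ‖u 1‖ ^ 2 - ‖u 2‖ ^ 2) +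
      l * hr K u) ≤ UU * (65536 * hr F u) := by
    have e9 : UU * ((e : ℝ) / UU * nq u + (zv m : ℝ) / UU *
        (‖u 0‖ ^ 2 + ‖u 1‖ ^ 2 - ‖u 2‖ ^ 2) + l * hr K u) =
        (e : ℝ) * nq u + (zv m : ℝ) * (‖u 0‖ ^ 2 + ‖u 1‖ ^ 2 - ‖u 2‖ ^ 2) +
      l * (UU * hr K u) := by
      field_simp
    rw [e9]
    linarith
  exact le_of_mul_le_mul_left h8 hU

/-- THE INCLUSION OF REGIONS -/
theorem HK.incl (hP : PT D t) {F K : Mt} {M N : KM α} (hF : HK D lf t F M) (hK : HK D lf t K N)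
    {L : Lw α} (hL : LwOK D lf L) {l : ℕ} {m : Z} (ht : geT L (nat_lit 0) l m M N = true)
    (u : V3) (hu : u ∈ NZ K) : 0 ≤ hr F u := by
  have h := hF.ge hP hK hL ht u
  have h0 : ((nat_lit 0 : ℕ) : ℝ) = 0 := Nat.cast_zero
  rw [h0, hu.2, zero_div, zero_mul, mul_zero] at h
  have h1 := mul_nonneg (Nat.cast_nonneg (α := ℝ) l) hu.1
  linarith

end Pool.Agent.Helper82.TST
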