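import Pool.Agent.Helper12.CW.NF0

/-!
Plan W (MP_c75db0), normalised star frame: the test from forms on tensors (`ST_NTF`), the test for
the reversed block (`ST_NTC`).
-/

set_option autoImplicit false
noncomputable section
namespace Pool.Agent.Helper6.MONO.W2

open Matrix

/-- the covector `y^* J` -/
def cvY (y : V3) : V3 := ![star (y 0), star (y 1), -star (y 2)]

theorem cvY_dot (y a : V3) : cvY y ⬝ᵥ a = brJ 1 a y := by
  simp only [cvY, brJ, dotProduct, Fin.sum_univ_three, Matrix.cons_val_zero, Matrix.cons_val_one,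
    Matrix.cons_val]
  push_cast
  ring

theorem hv_cvK (K : Mt) (y : V3) : hv (cvK K) (cvY y) = hv K y := by
  simp only [hv, cvK, cvY, Fin.sum_univ_three, Matrix.of_apply, Matrix.cons_val_zero,
    Matrix.cons_val_one, Matrix.cons_val, star_neg, star_star]
  ring

theorem hv_J1 (y : V3) : hv J1 (cvY y) = hv J1 y := by
  simp only [hv, J1, cvY, Fin.sum_univ_three, Matrix.of_apply, Matrix.cons_val_zero,
    Matrix.cons_val_one, Matrix.cons_val, star_neg, star_star, Matrix.cons_val']
  ring

theorem RV_J1 : RV J1 := by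
  refine RV_herm (fun i j => ?_)
  fin_cases i <;> fin_cases j <;> simp [J1]

theorem st_NTF : ST_NTF := by
  intro K1 K2 X M P Q H1 H2 c hc rK rQ rH hP hQ h u hu y hy
  have h3 := h (fun i j => cvY y i * u j)
  rw [lt_mul, lt_mul, cvY_dot, cvY_dot] at h3
  refine le_trans ?_ h3
  have e : ∀ (A B : Mt), RV B → (tf A B (fun i j => cvY y i * u j)).re =
      hr A (cvY y) * hr B u := by
    intro A B hB
    rw [tf_mul, Complex.mul_re, hB u, mul_zero, sub_zero]
    rfl
  have e1 : hr (cvK K2) (cvY y) = hr K2 y := by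
    unfold hr
    rw [hv_cvK]
  have e2 : hr J1 (cvY y) = 0 := by
    have := hy.2
    unfold hr at this ⊢
    rw [hv_J1, this]
  rw [e _ _ rK, e _ _ rQ, e _ _ rK, e _ _ rH, e _ _ RV_J1, e1, e2, hu.2]
  have hu' : 0 ≤ hr K1 u := hu.1
  have hy' : 0 ≤ hr K2 y := hy.1
  have k1 := mul_nonneg (hP (cvY y)) hu'
  have k2 := mul_nonneg hy' (hQ u)
  have k3 := mul_nonneg hc (mul_nonneg hy' hu')
  linarith

theorem brJ_adj (X : Mt) (u y : V3) :
    brJ 1 ((J1 * X.conjTranspose * J1).mulVec u) y = star (brJ 1 (X.mulVec y) u) := by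
  simp only [brJ, Matrix.mulVec, dotProduct, J1, Matrix.mul_apply, Fin.sum_univ_three,
    Matrix.conjTranspose_apply, Matrix.of_apply, Matrix.cons_val_zero, Matrix.cons_val_one,
    Matrix.cons_val, Matrix.cons_val', star_add, star_sub, star_mul', star_star, Complex.ofReal_one,
    one_mul, mul_one, mul_zero, zero_mul, add_zero, zero_add]
  ring

theorem st_NTC : ST_NTC := by
  intro K1 K2 X M h u hu y hy
  have h1 := h y hy u hu
  rw [brJ_adj, brJ_adj, star_star]
  have e : star (brJ 1 (X.mulVec y) u) * brJ 1 (M.mulVec y) u =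
      star (brJ 1 (X.mulVec y) u * star (brJ 1 (M.mulVec y) u)) := by
    rw [star_mul', star_star]
  rw [e]
  have e2 : ∀ z : ℂ, (star z).re = z.re := fun z => Complex.conj_re z
  rw [e2]
  exact h1

end Pool.Agent.Helper6.MONO.W2
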