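import Pool.Agent.Helper82.CW.NTest
import Pool.Agent.Helper12.CW.NF1

/-!
Plan W (MP_c75db0), the test in frames: `u = A ζ`, `y = B ω` with invertible matrices `A`, `B`,
regions transported by the letter `2`, common scalar factor of `X` and `M`.
-/

set_option autoImplicit false
noncomputable section
namespace Pool.Agent.Helper6.MONO.W2

open Matrix

/-- `y^* a` -/
def prY (y a : V3) : ℂ := star (y 0) * a 0 + star (y 1) * a 1 + star (y 2) * a 2

/-- the test with forms `Ju`, `Jy` in the two frames -/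
def NTG (K1 K2 Ju Jy X M : Mt) : Prop := ∀ u : V3, 0 ≤ hr K1 u → hr Ju u = 0 →
  ∀ y : V3, 0 ≤ hr K2 y → hr Jy y = 0 → 0 ≤ (prY y (X.mulVec u) * star (prY y (M.mulVec u))).re

theorem prY_J (y a : V3) : prY y (J1.mulVec a) = brJ 1 a y := by
  simp only [prY, brJ, Matrix.mulVec, dotProduct, J1, Fin.sum_univ_three, Matrix.of_apply,
    Matrix.cons_val_zero, Matrix.cons_val_one, Matrix.cons_val, Matrix.cons_val',
    Complex.ofReal_one]
  ring

theorem prY_adj (B : Mt) (y a : V3) : prY y (B.conjTranspose.mulVec a) = prY (B.mulVec y) a := by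
  simp only [prY, Matrix.mulVec, dotProduct, Fin.sum_univ_three, Matrix.conjTranspose_apply,
    star_add, star_mul']
  ring

theorem hv_cong (K A : Mt) (u : V3) : hv (A.conjTranspose * K * A) u = hv K (A.mulVec u) := by
  simp only [hv, Matrix.mulVec, dotProduct, Matrix.mul_apply, Fin.sum_univ_three,
    Matrix.conjTranspose_apply, star_add, star_mul']
  ring

theorem hr_conj (K A : Mt) (u : V3) : hr (A.conjTranspose * K * A) u = hr K (A.mulVec u) := by
  unfold hr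
  rw [hv_cong]

/-- THE TEST IN FRAMES -/
theorem NTG_frame {K1 K2 X M A A' B B' : Mt} (hA : A * A' = 1) (hB : B * B' = 1)
    (H : NTG (A.conjTranspose * K1 * A) (B.conjTranspose * K2 * B) (A.conjTranspose * J1 * A)
      (B.conjTranspose * J1 * B) (B.conjTranspose * J1 * X * A) (B.conjTranspose * J1 * M * A)) :
    NT K1 K2 X M := by
  intro u hu y hy
  have eu : A.mulVec (A'.mulVec u) = u := by rw [Matrix.mulVec_mulVec, hA, Matrix.one_mulVec]
  have ey : B.mulVec (B'.mulVec y) = y := by rw [Matrix.mulVec_mulVec, hB, Matrix.one_mulVec]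
  have key : ∀ Z : Mt, prY (B'.mulVec y) ((B.conjTranspose * J1 * Z * A).mulVec (A'.mulVec u)) =
      brJ 1 (Z.mulVec u) y := by
    intro Z
    rw [← Matrix.mulVec_mulVec _ _ A, eu, ← Matrix.mulVec_mulVec _ _ Z,
      ← Matrix.mulVec_mulVec _ _ J1, prY_adj, ey, prY_J]
  have h := H (A'.mulVec u) (by rw [hr_conj, eu]; exact hu.1) (by rw [hr_conj, eu]; exact hu.2)
    (B'.mulVec y) (by rw [hr_conj, ey]; exact hy.1) (by rw [hr_conj, ey]; exact hy.2)
  rw [key, key] at h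
  exact h

theorem NTG_frame' {K1 K2 X M A B : Mt} (hA : A.det ≠ 0) (hB : B.det ≠ 0)
    (H : NTG (A.conjTranspose * K1 * A) (B.conjTranspose * K2 * B) (A.conjTranspose * J1 * A)
      (B.conjTranspose * J1 * B) (B.conjTranspose * J1 * X * A) (B.conjTranspose * J1 * M * A)) :
    NT K1 K2 X M :=
  NTG_frame (Matrix.mul_nonsing_inv A (isUnit_iff_ne_zero.2 hA))
    (Matrix.mul_nonsing_inv B (isUnit_iff_ne_zero.2 hB)) H

/-- smaller regions -/
theorem NT_mono {K1 K2 L1 L2 X M : Mt} (H : NT K1 K2 X M) (a1 : NZ L1 ⊆ NZ K1)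
    (a2 : NZ L2 ⊆ NZ K2) : NT L1 L2 X M := fun u hu y hy => H u (a1 hu) y (a2 hy)

theorem hr_c0 {v : V3} (h2 : brJ 1 v v = 2) (u : V3) (hu : hr J1 u = 0) :
    hr J1 ((rfJ 1 v).mulVec u) = 0 := by
  have e : ∀ a : V3, hv J1 a = brJ 1 a a := by
    intro a
    simp only [hv, brJ, J1, Fin.sum_univ_three, Matrix.of_apply, Matrix.cons_val_zero,
      Matrix.cons_val_one, Matrix.cons_val, Matrix.cons_val', Complex.ofReal_one]
    ring
  unfold hr at hu ⊢
  rw [e, rfJ_uni h2, ← e]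
  exact hu

/-- TRANSPORT OF THE REGION OF `u` -/
theorem NT_cu {K1 Kh K2 X M : Mt} {v : V3} (h2 : brJ 1 v v = 2)
    (hK : ∀ u ∈ NZ K1, 0 ≤ hr Kh ((rfJ 1 v).mulVec u))
    (H : NT Kh K2 (X * rfJ 1 v) (M * rfJ 1 v)) : NT K1 K2 X M := by
  intro u hu y hy
  have h := H ((rfJ 1 v).mulVec u) ⟨hK u hu, hr_c0 h2 u hu.2⟩ y hy
  rw [Matrix.mulVec_mulVec, Matrix.mulVec_mulVec, Matrix.mul_assoc, Matrix.mul_assoc,
    ← Matrix.mulVec_mulVec, ← Matrix.mulVec_mulVec _ M, ← Matrix.mulVec_mulVec,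
    rfJ_sq h2] at h
  exact h

/-- TRANSPORT OF THE REGION OF `y` -/
theorem NT_cy {K1 K2 Kh X M : Mt} {v : V3} (h2 : brJ 1 v v = 2)
    (hK : ∀ y ∈ NZ K2, 0 ≤ hr Kh ((rfJ 1 v).mulVec y))
    (H : NT K1 Kh (rfJ 1 v * X) (rfJ 1 v * M)) : NT K1 K2 X M := by
  intro u hu y hy
  have h := H u hu ((rfJ 1 v).mulVec y) ⟨hK y hy, hr_c0 h2 y hy.2⟩
  rw [← Matrix.mulVec_mulVec, ← Matrix.mulVec_mulVec, rfJ_uni h2, rfJ_uni h2] at h
  exact h

/-- COMMON FACTOR -/
theorem NTG_smul {K1 K2 Ju Jy X M : Mt} {σ : ℂ} (hσ : σ ≠ 0)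
    (H : NTG K1 K2 Ju Jy (σ • X) (σ • M)) : NTG K1 K2 Ju Jy X M := by
  intro u hu hu0 y hy hy0
  have h := H u hu hu0 y hy hy0
  have key : ∀ Z : Mt, prY y ((σ • Z).mulVec u) = σ * prY y (Z.mulVec u) := by
    intro Z
    rw [Matrix.smul_mulVec]
    simp only [prY, Pi.smul_apply, smul_eq_mul]
    ring
  rw [key, key] at h
  have e : σ * prY y (X.mulVec u) * star (σ * prY y (M.mulVec u)) =
      ((‖σ‖ ^ 2 : ℝ) : ℂ) * (prY y (X.mulVec u) * star (prY y (M.mulVec u))) := by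
    rw [star_mul', ← nsq σ]
    ring
  rw [e, Complex.re_ofReal_mul] at h
  have hp : 0 < ‖σ‖ ^ 2 := by
    have := norm_pos_iff.2 hσ
    positivity
  exact nonneg_of_mul_nonneg_right h hp

/-- the transposed form on conjugate vectors -/
theorem hv_tr (K : Mt) (y : V3) : hv K.transpose (fun i => star (y i)) = hv K y := by
  simp only [hv, Fin.sum_univ_three, Matrix.transpose_apply, star_star]
  ring

/-- THE TEST IN FRAMES FROM AN INEQUALITY BETWEEN FORMS ON TENSORS -/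
theorem NTG_tf {K1 K2 Ju Jy X M P Q H1 H2 : Mt} {c : ℝ} (hc : 0 ≤ c) (rK : RV K1) (rQ : RV Q)
    (rH : RV H1) (rJ : RV Ju) (hP : ∀ w, 0 ≤ hr P w) (hQ : ∀ u, 0 ≤ hr Q u)
    (h : ∀ t : Fin 3 → Fin 3 → ℂ, (tf P K1 t).re + (tf K2.transpose Q t).re +
      c * (tf K2.transpose K1 t).re + (tf Jy.transpose H1 t).re + (tf H2 Ju t).re ≤
      (lt X t * star (lt M t)).re) : NTG K1 K2 Ju Jy X M := by
  intro u hu hu0 y hy hy0
  have h3 := h (fun i j => star (y i) * u j)
  have ed : ∀ a : V3, (fun i => star (y i)) ⬝ᵥ a = prY y a := by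
    intro a
    simp only [dotProduct, prY, Fin.sum_univ_three]
  rw [lt_mul X (fun i => star (y i)) u, lt_mul M (fun i => star (y i)) u, ed, ed] at h3
  refine le_trans ?_ h3
  have e : ∀ (A B : Mt), RV B → (tf A B (fun i j => star (y i) * u j)).re =
      hr A (fun i => star (y i)) * hr B u := by
    intro A B hB
    rw [tf_mul A B (fun i => star (y i)) u, Complex.mul_re, hB u, mul_zero, sub_zero]
    rfl
  have e1 : hr K2.transpose (fun i => star (y i)) = hr K2 y := by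
    unfold hr
    rw [hv_tr]
  have e2 : hr Jy.transpose (fun i => star (y i)) = 0 := by
    unfold hr at hy0 ⊢
    rw [hv_tr, hy0]
  rw [e _ _ rK, e _ _ rQ, e _ _ rK, e _ _ rH, e _ _ rJ, e1, e2, hu0]
  have k1 := mul_nonneg (hP (fun i => star (y i))) hu
  have k2 := mul_nonneg hy (hQ u)
  have k3 := mul_nonneg hc (mul_nonneg hy hu)
  linarith

theorem RV_cong {K A : Mt} (hK : RV K) : RV (A.conjTranspose * K * A) := by
  intro u
  rw [hv_cong]
  exact hK _

end Pool.Agent.Helper6.MONO.W2
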