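import Pool.Agent.Helper82.CW.OPS
import Pool.Agent.Helper12.CW.NF6

/-!
Plan W (MP_c75db0), row M6, part 3: the tests for the items of the certificate: inclusions, start
vectors, final vector.
-/

set_option autoImplicit false
noncomputable section
namespace Pool.Agent.Helper82.TST

open Matrix
open Pool.Agent.Helper90.C75
open Pool.Agent.Helper90.KMT
open Pool.Agent.Helper90.KMO (UU UU_pos UUc_ne norm_UU zv zv_sub zv_mul zv_add zv_p cz andB_t)
open Pool.Agent.Helper86.C75 (Z H3)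
open Pool.Agent.Helper86.CX (Cx andB)
open Pool.Agent.Helper86.CT (N3 Alg Mo KM addM subM mulM conjM cst)
open Pool.Agent.Helper62.TVM
open Pool.Agent.Helper17.K9 (V9)
open Pool.Agent.Helper6.MONO
open Pool.Agent.Helper6.MONO.W2

/-! ### the kernel side -/

/-- `c U` for the letter `c` with the polar vector `v` -/
def cuW {α : Type} (A : Alg α) (V U : V3m α) : V3m α :=
  subW A U (smW A (dtW A U (jW A V)) V)
/-- `2 ^ (-40) |y|^2 <= |y^* J l|^2` for the vectors `y` of the region `K`: multipliers `l0`, `m` -/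
def doT {α : Type} (A : Alg α) (L : Lw α) (l0 : Nat) (m : Z) (l : V3m α) (K : KM α) : Bool :=
  geT L (nat_lit 16777216) l0 m (llK A l) K
/-- the value of the form is positive -/
def vaT {α : Type} (A : Alg α) (L : Lv α) (K : KM α) (U : V3m α) : Bool :=
  posT L ⟨dtW A (cjW A U) (kqW A K U), cst A (nat_lit 281474976710656) (nat_lit 0),
    cst A (nat_lit 281474976710656) (nat_lit 0), zeM A, zeM A, zeM A⟩

/-! ### the real side -/

section

variable {α : Type} {D : ℕ} {lf : α → Vt D → ℂ} {A : Alg α} {t : ℕ → ℝ}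

theorem rfJ_vec (v U : V3) : (rfJ 1 v).mulVec U = U - brJ 1 U v • v := by
  funext i
  fin_cases i <;>
  · simp [rfJ, brJ, Matrix.mulVec, dotProduct, Fin.sum_univ_three]
    ring

theorem TW.cu (hA : AOK D lf A) (hP : PT D t) {v U : V3} {V W : V3m α} (hv : TW D lf t v V)
    (hU : TW D lf t U W) : TW D lf t ((rfJ 1 v).mulVec U) (cuW A V W) := by
  have h1 := TW.dt hA hP hU (TW.jw hA hP hv)
  refine (TW.sub hA hU (TW.smul hA hP (tc h1 ?_) hv)).congr (rfJ_vec v U).symm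
  show U 0 * star (v 0) + U 1 * star (v 1) + U 2 * -star (v 2) = brJ 1 U v
  unfold brJ
  push_cast
  ring

/-- THE TESTS `doU`, `doY` -/
theorem do_ok (hA : AOK D lf A) (hP : PT D t) {K : Mt} {M : KM α} (hK : HK D lf t K M) {l : V3}
    {Lm : V3m α} (hl : TW D lf t l Lm) {L : Lw α} (hL : LwOK D lf L) {l0 : ℕ} {m : Z}
    (ht : doT A L l0 m Lm M = true) (y : V3) (hy : y ∈ NZ K) :
    ‖y‖ ≤ 1048576 * ‖brJ 1 l y‖ := by
  have h := (HK_ll hA hP hl).ge hP hK hL ht y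
  rw [hr_ll, hy.2, mul_zero, add_zero] at h
  have h1 := mul_nonneg (Nat.cast_nonneg (α := ℝ) l0) hy.1
  have h2 := nq_ge y
  have e1 : ((nat_lit 16777216 : ℕ) : ℝ) / UU = 1 / 16777216 := by
    unfold UU
    norm_num
  rw [e1] at h
  have h3 : ‖y‖ ^ 2 ≤ (1048576 * ‖brJ 1 l y‖) ^ 2 := by
    have : (1048576 * ‖brJ 1 l y‖) ^ 2 = 16777216 * (65536 * ‖brJ 1 l y‖ ^ 2) := by ring
    rw [this]
    nlinarith
  exact le_of_sq_le_sq h3 (by positivity)

theorem doU_ok (hA : AOK D lf A) (hP : PT D t) {K : Mt} {M : KM α} (hK : HK D lf t K M)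
    {v U : V3} {V W : V3m α} (hv : TW D lf t v V) (hU : TW D lf t U W) {L : Lw α}
    (hL : LwOK D lf L) {l0 : ℕ} {m : Z} (ht : doT A L l0 m (cuW A V W) M = true) (y : V3)
    (hy : y ∈ NZ K) : ‖y‖ ≤ 1048576 * ‖brJ 1 ((rfJ 1 v).mulVec U) y‖ :=
  do_ok hA hP hK (TW.cu hA hP hv hU) hL ht y hy

theorem doY_ok (hA : AOK D lf A) (hP : PT D t) {K : Mt} {M : KM α} (hK : HK D lf t K M)
    {v U : V3} {V W : V3m α} (hv : TW D lf t v V) (hU : TW D lf t U W) {L : Lw α}
    (hL : LwOK D lf L) {l0 : ℕ} {m : Z} (ht : doT A L l0 m (cuW A V W) M = true) (y : V3)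
    (hy : y ∈ NZ K) : ‖y‖ ≤ 1048576 * ‖brJ 1 ((rfJ 1 v).mulVec y) U‖ := by
  have h := doU_ok hA hP hK hv hU hL ht y hy
  have e : brJ 1 ((rfJ 1 v).mulVec y) U = star (brJ 1 ((rfJ 1 v).mulVec U) y) := by
    rw [← adJ_brJ, adJ_rfJ]
  rw [e, norm_star]
  exact h

/-- THE TESTS `stU`, `enY` -/
theorem va_ok (hA : AOK D lf A) (hP : PT D t) {K : Mt} {M : KM α} (hK : HK D lf t K M) {U : V3}
    {W : V3m α} (hU : TW D lf t U W) (h0 : hr J1 U = 0) {L : Lv α} (hL : LvOK D lf L)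
    (ht : vaT A L M W = true) : U ∈ NZ K := by
  refine ⟨?_, h0⟩
  have h1 : TOK D lf t (star (U 0) * K.mulVec U 0 + star (U 1) * K.mulVec U 1 +
      star (U 2) * K.mulVec U 2) (dtW A (cjW A W) (kqW A M W)) :=
    TW.dt hA hP (TW.star hA hU) (hK.kq hA hP hU)
  set κ := star (U 0) * K.mulVec U 0 + star (U 1) * K.mulVec U 1 + star (U 2) * K.mulVec U 2
    with hκ
  have hk := kap_real hK.hm U
  rw [← hκ] at hk
  have hone : TOK D lf t (1 : ℂ) (cst A (nat_lit 281474976710656) (nat_lit 0)) :=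
    TOK.cst' hA hP (by unfold UU; norm_num)
  have hH : HK D lf t !![κ, 0, 0; 0, 1, 0; 0, 0, 1]
      ⟨dtW A (cjW A W) (kqW A M W), cst A (nat_lit 281474976710656) (nat_lit 0),
    cst A (nat_lit 281474976710656) (nat_lit 0), zeM A, zeM A, zeM A⟩ := by
    refine ⟨h1, hone, hone, TOK_ze hA hP, TOK_ze hA hP, TOK_ze hA hP, fun i j => ?_⟩
    fin_cases i <;> fin_cases j <;> first | exact hk.symm | simp
  have h2 := hH.pos hP hL ht ![1, 0, 0]
  have e : hr !![κ, 0, 0; 0, 1, 0; 0, 0, 1] ![1, 0, 0] = hr K U := by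
    unfold hr hv
    simp only [Fin.sum_univ_three, hκ, Matrix.mulVec, dotProduct, Matrix.of_apply,
      Matrix.cons_val_zero, Matrix.cons_val_one, Matrix.cons_val, Matrix.cons_val', star_one,
      star_zero, mul_zero, mul_one, one_mul, add_zero]
    congr 1
    ring
  rw [e] at h2
  exact h2

/-- a constant vector -/
def uv (C : C3) : V3 := fun i => cz (C.get i) / UU

theorem TW_uv (hA : AOK D lf A) (hP : PT D t) (C : C3) :
    TW D lf t (uv C) (cstW A C (nat_lit 0)) := by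
  refine TW_cst hA hP fun i => ?_
  have e : (UU : ℂ) * uv C i = cz (C.get i) := by
    unfold uv
    rw [mul_div_cancel₀ _ UUc_ne]
  rw [e, sub_self, norm_zero]
  exact Nat.cast_nonneg _

/-- the constant vector is null -/
theorem uv_null {C : C3} (h : zv C.a.re ^ 2 + zv C.a.im ^ 2 + zv C.b.re ^ 2 + zv C.b.im ^ 2 =
    zv C.c.re ^ 2 + zv C.c.im ^ 2) : hr J1 (uv C) = 0 := by
  have h' : (zv C.a.re : ℝ) ^ 2 + (zv C.a.im : ℝ) ^ 2 + (zv C.b.re : ℝ) ^ 2 +
      (zv C.b.im : ℝ) ^ 2 = (zv C.c.re : ℝ) ^ 2 + (zv C.c.im : ℝ) ^ 2 := by exact_mod_cast h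
  have hU := UU_pos
  have hs : ∀ z : ℂ, star z = (starRingEnd ℂ) z := fun _ => rfl
  have e : ∀ i, uv C i = ⟨(zv (C.get i).re : ℝ) / UU, (zv (C.get i).im : ℝ) / UU⟩ := by
    intro i
    unfold uv
    apply Complex.ext
    · rw [Complex.div_ofReal_re]
      rfl
    · rw [Complex.div_ofReal_im]
      rfl
  unfold hr hv
  simp only [J1, Fin.sum_univ_three, Matrix.of_apply, Matrix.cons_val_zero,
      Matrix.cons_val_one, Matrix.cons_val, Matrix.cons_val', hs, Complex.add_re, Complex.mul_re,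
      Complex.mul_im, Complex.conj_re, Complex.conj_im, Complex.one_re, Complex.one_im,
      Complex.zero_re, Complex.zero_im, Complex.neg_re, Complex.neg_im, e]
  have g0 : C.get 0 = C.a := rfl
  have g1 : C.get 1 = C.b := rfl
  have g2 : C.get 2 = C.c := rfl
  rw [g0, g1, g2]
  field_simp
  linarith

/-! ### inclusions -/

/-- THE INCLUSION FOR A BLOCK, from a model of `N^* K N` -/
theorem inn_ok (hP : PT D t) {K1 K2 N : Mt} {F K : KM α} (hF : HK D lf t (Nᴴ * K2 * N) F)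
    (hK : HK D lf t K1 K) {L : Lw α} (hL : LwOK D lf L) {l : ℕ} {m : Z}
    (ht : geT L (nat_lit 0) l m F K = true) (u : V3) (hu : u ∈ NZ K1) :
    0 ≤ hr K2 (N.mulVec u) := by
  rw [← hr_cong]
  exact hF.incl hP hK hL ht u hu

theorem cong_cong (K c N : Mt) : Nᴴ * (cᴴ * K * c) * N = (c * N)ᴴ * K * (c * N) := by
  rw [Matrix.conjTranspose_mul]
  simp only [Matrix.mul_assoc]

/-- rotations: `G` is a model of `D^* (c^* K c) D` -/
theorem HK.rot (hA : AOK D lf A) (hP : PT D t) {K : Mt} {M : KM α} {v : V3}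
    (h : HK D lf t ((rfJ 1 v)ᴴ * K * rfJ 1 v) M) {d0 d1 : ℂ} (h0 : ‖d0‖ = 1) (h1 : ‖d1‖ = 1)
    {g0 g1 g : Mo α} (k0 : TOK D lf t (star d0) g0) (k1 : TOK D lf t (star d1) g1)
    (k : TOK D lf t (star d0 * d1) g) :
    HK D lf t ((rfJ 1 v * Matrix.diagonal ![d0, d1, 1])ᴴ * K *
      (rfJ 1 v * Matrix.diagonal ![d0, d1, 1])) (dgK A g0 g1 g M) :=
  (h.dg hA hP h0 h1 k0 k1 k).congr (cong_cong _ _ _)

/-- runs: `S` is a model of `s - ρ v`, `C` of `w + ρ² - w ρ` -/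
theorem HK.run (hA : AOK D lf A) (hP : PT D t) {K : Mt} {M : KM α} {v s : V3}
    (h : HK D lf t ((rfJ 1 v)ᴴ * K * rfJ 1 v) M) {w ρ : ℝ} {S : V3m α} {C : Mo α}
    (hs : TW D lf t (fun i => s i - ρ * v i) S)
    (hc : TOK D lf t ((w + ρ ^ 2 - w * ρ : ℝ) : ℂ) C) :
    HK D lf t ((rfJ 1 v * nR w ρ s v)ᴴ * K * (rfJ 1 v * nR w ρ s v)) (rgK A C M S) := by
  rw [nR_Rk]
  exact (h.rg hA hP hs hc).congr (cong_cong _ _ _)

/-- general matrices -/
theorem HK.gen (hA : AOK D lf A) (hP : PT D t) {K c N : Mt} {M : KM α} {V : V9 α}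
    (h : HK D lf t (cᴴ * K * c) M) (hN : TV D lf t N V) :
    HK D lf t ((c * N)ᴴ * K * (c * N)) (cg9 A V M) :=
  (h.g9 hA hP hN).congr (cong_cong _ _ _)

/-- a real factor does not matter -/
theorem hr_smul_vec (K : Mt) (σ : ℝ) (u : V3) : hr K ((σ : ℂ) • u) = σ ^ 2 * hr K u := by
  have hc : star (σ : ℂ) = σ := Complex.conj_ofReal σ
  have e : hv K ((σ : ℂ) • u) = ((σ ^ 2 : ℝ) : ℂ) * hv K u := by
    unfold hv
    simp only [Fin.sum_univ_three, Pi.smul_apply, smul_eq_mul, star_mul', hc]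
    push_cast
    ring
  unfold hr
  rw [e, Complex.re_ofReal_mul]

/-- `c (σ R) u` -/
theorem inn_smul {K c N : Mt} {σ : ℝ} {u : V3} (h : 0 ≤ hr K ((c * N).mulVec u)) :
    0 ≤ hr K (c.mulVec (((σ : ℂ) • N).mulVec u)) := by
  rw [Matrix.smul_mulVec, Matrix.mulVec_smul, Matrix.mulVec_mulVec, hr_smul_vec]
  exact mul_nonneg (sq_nonneg _) h

/-! ### forms given by their controls -/

/-- the real matrix of a form given by its control values -/
def Kval (lf : α → Vt D → ℂ) (t : ℕ → ℝ) (a b c x y w : α) : Mt :=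
  !![((cval lf t a).re : ℂ), cval lf t x, cval lf t y;
     star (cval lf t x), ((cval lf t b).re : ℂ), cval lf t w;
     star (cval lf t y), star (cval lf t w), ((cval lf t c).re : ℂ)]

theorem HK_val (hA : AOK D lf A) {a b c x y w : α} (ha : ∀ v, (lf a v).im = 0)
    (hb : ∀ v, (lf b v).im = 0) (hc : ∀ v, (lf c v).im = 0) :
    HK D lf t (Kval lf t a b c x y w)
      ⟨Pool.Agent.Helper86.CT.mk A a (nat_lit 0), Pool.Agent.Helper86.CT.mk A b (nat_lit 0),
        Pool.Agent.Helper86.CT.mk A c (nat_lit 0), Pool.Agent.Helper86.CT.mk A x (nat_lit 0),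
        Pool.Agent.Helper86.CT.mk A y (nat_lit 0), Pool.Agent.Helper86.CT.mk A w (nat_lit 0)⟩ := by
  have e : ∀ {z : α}, (∀ v, (lf z v).im = 0) → cval lf t z = ((cval lf t z).re : ℂ) := by
    intro z hz
    apply Complex.ext
    · rfl
    · unfold cval
      rw [Complex.div_ofReal_im, avg_im]
      simp [hz]
  refine ⟨tc (TOK_val hA a) (e ha), tc (TOK_val hA b) (e hb), tc (TOK_val hA c) (e hc),
    TOK_val hA x, TOK_val hA y, TOK_val hA w, fun i j => ?_⟩
  have hr : ∀ r : ℝ, star (r : ℂ) = r := fun r => Complex.conj_ofReal r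
  fin_cases i <;> fin_cases j <;> simp [Kval]

end

end Pool.Agent.Helper82.TST
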