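import Pool.Agent.Helper82.CW.FRI
import Pool.Agent.Helper26.C75.SF

/-!
Plan W (MP_c75db0): THE DISPATCHER OF THE INVARIANCE IN FRAMES, with a scale. `N = M c`, in the
frames `A` (source) and `B = adj(C)` (target): `N' = B N A = N0 + ρ N1 - ρ^2 B A`, `N0`, `N1` of
depth 3 from the vectors `B v`, `B s`, `v^* J A`, `s^* J A`.
-/

set_option autoImplicit false
noncomputable section
namespace Pool.Agent.Helper82.FRD

open Matrix
open Pool.Agent.Helper90.C75 (Vt)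
open Pool.Agent.Helper90.KMT
open Pool.Agent.Helper90.KMO (UU UU_pos UUc_ne cz zv zv_p)
open Pool.Agent.Helper86.C75 (Z)
open Pool.Agent.Helper86.CX (Cx andB)
open Pool.Agent.Helper86.CT (N3 Alg Mo KM mk cst addM subM mulM conjM invM invOK A3 A4)
open Pool.Agent.Helper17.K9 (V9)
open Pool.Agent.Helper62.TVM
open Pool.Agent.Helper62.SQM
open Pool.Agent.Helper62.LBM
open Pool.Agent.Helper51.FR (LE LM LOK andB_t' trK hr_trK IN_hat inc_hat RTK)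
open Pool.Agent.Helper26.XM
open Pool.Agent.Helper26.XH
open Pool.Agent.Helper26.IT
open Pool.Agent.Helper26.SF
open Pool.Agent.Helper91.BX (CD CD3 qx3 upM upW upV tu)
open Pool.Agent.Helper82.TST hiding upK
open Pool.Agent.Helper6.MONO (V3)
open Pool.Agent.Helper6.MONO.W2 (Mt J1 NZ IN rfJ rM rn nW nWd ns nsd Sy sDm phi Prt RPar sati Pd
  cs sc brJ hr hv ep rfJ_sqM)
open Pool.Agent.Helper21.SW

/-! ### the kernel side -/

section

variable {α : Type}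

/-- the frames are not degenerate -/
def frOK (f g : Fr) : Bool :=
  andB (nzC (dtC f.c)) (andB (nzC (dtC g.c)) (andB (Nat.ble (nat_lit 1) f.s)
    (andB (Nat.ble (nat_lit 1) g.s) (Nat.ble (nat_lit 1) g.z))))

/-- THE TEST: `V` model of `N'`, `Kg`, `Kf` models of the forms in the frames, scale `R` -/
def incV (A : Alg α) (L : Lc α) (f : Fr) (l : Nat) (m : Z) (R : Mo α) (V : V9 α)
    (Kg Kf : KM α) : Bool :=
  geC L (nat_lit 0) l (jFC m f.c) (smK A R (cg9 A V Kg)) Kf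

/-- the row `y^* J A` -/
def raM (A : Alg α) (f : Fr) (y : V3m α) : V3m α := mvV A (trV (frA A f)) (jW A y)
/-- the column `B x` -/
def cbM (A : Alg α) (g : Fr) (x : V3m α) : V3m α := mvV A (frB A g) x
/-- `B A` -/
def gaM (A : Alg α) (f g : Fr) : V9 α := mulV A (frB A g) (frA A f)

def n0M (A : Alg α) (w : Mo α) (b0 b1 a0 a1 : V3m α) (G : V9 α) : V9 α :=
  addV A (ouV A b1 a1) (smV A w (subV A (ouV A (subW A b0 b1) a0) G))
def n1M (A : Alg α) (w : Mo α) (b0 b1 a0 a1 : V3m α) (G : V9 α) : V9 α :=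
  addV A (subV A (ouV A b1 a0) (ouV A b0 a1)) (smV A w G)
/-- `N0 + ρ N1 - ρ^2 G` -/
def nrM (A : Alg α) (r : Mo α) (N0 N1 G : V9 α) : V9 α :=
  addV A N0 (subV A (smV A r N1) (smV A (mulM A r r) G))

def naM (A : Alg α) (f g : Fr) (v : V3m α) (L : LM α) : V9 α :=
  n0M A L.w (cbM A g v) (cbM A g L.s) (raM A f v) (raM A f L.s) (gaM A f g)
def nbM (A : Alg α) (f g : Fr) (v : V3m α) (L : LM α) : V9 α :=
  n1M A L.w (cbM A g v) (cbM A g L.s) (raM A f v) (raM A f L.s) (gaM A f g)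

/-- rotation: `B diag(d) A - (B diag(d) v) (v^* J A)` -/
def ntM (A : Alg α) (f g : Fr) (v d : V3m α) : V9 α :=
  subV A (mulV A (frB A g) (dlV A d (frA A f))) (ouV A (cbM A g (hdW A d v)) (raM A f v))

end

variable {κ γ : Type}

/-- tests in depth 3 and 4, the forms in the frames in depth 3 -/
def f3V (f : Fr) (m : Mu) (R : Mo T3) (Kf Kg : KM T3) (V : V9 T3) : Bool :=
  incV A3 Lc3 f m.l m.m R V Kg Kf
def f4V (f : Fr) (m : Mu) (R : Mo T3) (Kf Kg : KM T3) (V : V9 T4) : Bool :=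
  incV A4 Lc4 f m.l m.m (upM R) V (upK Kg) (upK Kf)
/-- a run in depth 3, in depth 4 -/
def f3N (f g : Fr) (F : FH T3) (L : LM T3) (r : Mo T3) : V9 T3 :=
  nrM A3 r (naM A3 f g F.v L) (nbM A3 f g F.v L) (gaM A3 f g)
def f4N (f g : Fr) (F : FH T3) (L : LM T3) (r : Mo T4) : V9 T4 :=
  nrM A4 r (upV (naM A3 f g F.v L)) (upV (nbM A3 f g F.v L)) (upV (gaM A3 f g))

def fiE (f g : Fr) (F : FH T3) (L : LM T3) (m : Mu) (R : Mo T3) (Kf Kg : KM T3) (n : Nat) :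
    Bool :=
  Nat.rec (motive := fun _ => Bool) false
    (fun j _ => andB (exOK L j) (f3V f m R Kf Kg (f3N f g F L (rhM A3 L.w (invM A3 L.w) j).r))) n
def fiD (f g : Fr) (F : FH T3) (L : LM T3) (E : LE) (C : Mo T3) (c : Nat) (m : Mu) (R : Mo T3)
    (Kf Kg : KM T3) (k n : Nat) : Bool :=
  cond (Nat.beq k (nat_lit 0)) (andB (Nat.beq (Nat.mod (Nat.div c (nat_lit 2)) (nat_lit 2)) (nat_lit 0))
      (f3V f m R Kf Kg (ntM A3 f g F.v ⟨L.P, conjM A3 L.P, oneM A3⟩)))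
    (cond (Nat.beq k (nat_lit 1)) (fiE f g F L m R Kf Kg n)
      (cond (Nat.beq k (nat_lit 2)) (f4V f m R Kf Kg (f4N f g F L (roM E C n)))
        (cond (Nat.beq k (nat_lit 3)) (f4V f m R Kf Kg (f4N f g F L (roM E C n)))
          (cond (Nat.beq k (nat_lit 4)) true (Nat.beq k (nat_lit 5))))))
/-- **ONE INVARIANCE ITEM IN FRAMES**: `f` frame of the source form `k1`, `g` of the target `kt` -/
def itF (T : TK κ γ) (F : FH T3) (L : LM T3) (E : LE) (C : Mo T3) (c P : Nat) (k1 kt : κ)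
    (f g : Fr) (m : Mu) (s : Sf) : Bool :=
  andB (frOK f g) (andB (sfOK s) (fiD f g F L E C c m (sfM A3 qx3 s) (frK A3 f (T.km k1))
    (frK A3 g (T.km kt)) (Nat.mod P (nat_lit 8)) (Nat.div P (nat_lit 8))))

/-- AN INCLUSION `NZ (Ke) ⊆ NZ (Ki)` in the frame `f` -/
def inF (T : TK κ γ) (ki ke : κ) (f : Fr) (m : Mu) (s : Sf) : Bool :=
  andB (nzC (dtC f.c)) (andB (Nat.ble (nat_lit 1) f.s) (andB (sfOK s)
    (geC Lc3 (nat_lit 0) m.l (jFC m.m f.c) (smK A3 (sfM A3 qx3 s) (frK A3 f (T.km ki)))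
      (frK A3 f (T.km ke)))))

/-! ### the real side -/

/-- the row `y^* J` -/
def jr (y : V3) : V3 := ![star (y 0), star (y 1), -star (y 2)]
/-- outer product -/
def ouR (x y : V3) : Mt := Matrix.of fun i j => x i * y j

theorem oJ_ou (x y : V3) : oJ x y = ouR x (jr y) := rfl

theorem jr_sub (x y : V3) (c : ℝ) : jr (x - (c : ℂ) • y) = jr x - (c : ℂ) • jr y := by
  have hc : star (c : ℂ) = (c : ℂ) := Complex.conj_ofReal c
  ext i
  fin_cases i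
  · simp [jr, hc]
  · simp [jr, hc]
  · simp [jr, hc]
    ring

theorem fr_ou (B A : Mt) (x y : V3) : B * (ouR x y * A) = ouR (B.mulVec x) (Aᵀ.mulVec y) := by
  ext i j
  rw [Matrix.mul_apply, Fin.sum_univ_three]
  simp only [Matrix.mul_apply, Fin.sum_univ_three, ouR, Matrix.of_apply, Matrix.mulVec,
    dotProduct, Matrix.transpose_apply]
  ring

/-- `M c` of a run -/
theorem run_c {v : V3} (h2 : brJ 1 v v = 2) (φ : ℝ) (g : Sy) (ρ : ℝ) :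
    rM φ v g ρ * rfJ 1 v = ouR (sR φ v g ρ) (jr (sH φ v g ρ)) -
      tR φ v g ρ • (-ouR v (jr v) + 1) := by
  rw [← rM_run, sub_mul, oJ_c, c_s h2, smul_mul_assoc, one_mul, rfJ_oJ, one_smul]
  rfl

/-- THE RUN IN THE FRAMES -/
theorem run_fr {v : V3} (h2 : brJ 1 v v = 2) (φ : ℝ) (g : Sy) (ρ : ℝ) (B A : Mt) :
    B * (rM φ v g ρ * rfJ 1 v * A) =
      (ouR (B.mulVec (ns φ v g.1 g.2)) (Aᵀ.mulVec (jr (ns φ v g.1 g.2))) +
        ((nW φ v g : ℝ) : ℂ) • (ouR (B.mulVec v - B.mulVec (ns φ v g.1 g.2)) (Aᵀ.mulVec (jr v)) -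
          B * A)) +
      (((ρ : ℝ) : ℂ) • ((ouR (B.mulVec (ns φ v g.1 g.2)) (Aᵀ.mulVec (jr v)) -
          ouR (B.mulVec v) (Aᵀ.mulVec (jr (ns φ v g.1 g.2)))) + ((nW φ v g : ℝ) : ℂ) • (B * A)) -
        (((ρ : ℝ) : ℂ) * ((ρ : ℝ) : ℂ)) • (B * A)) := by
  rw [run_c h2, sub_mul, mul_sub, fr_ou, smul_mul_assoc, mul_smul_comm, add_mul, neg_mul,
    one_mul, mul_add, mul_neg, fr_ou]
  unfold sR sH tR
  rw [jr_sub, Matrix.mulVec_sub, Matrix.mulVec_sub, Matrix.mulVec_smul, Matrix.mulVec_smul]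
  generalize B.mulVec (ns φ v g.1 g.2) = b1
  generalize B.mulVec v = b0
  generalize Aᵀ.mulVec (jr (ns φ v g.1 g.2)) = a1
  generalize Aᵀ.mulVec (jr v) = a0
  generalize B * A = G
  ext i j
  simp only [ouR, Matrix.add_apply, Matrix.sub_apply, Matrix.neg_apply, Matrix.smul_apply,
    Matrix.of_apply, smul_eq_mul, Pi.sub_apply, Pi.smul_apply]
  push_cast
  ring

/-- `M c` of a rotation in the frames -/
theorem rot_fr (v d : V3) (B A : Mt) : B * (Matrix.diagonal d * rfJ 1 v * A) =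
    B * (Matrix.diagonal d * A) - ouR (B.mulVec fun i => d i * v i) (Aᵀ.mulVec (jr v)) := by
  have e : Matrix.diagonal d * ouR v (jr v) = ouR (fun i => d i * v i) (jr v) := by
    ext i j
    rw [Matrix.diagonal_mul]
    simp only [ouR, Matrix.of_apply]
    ring
  rw [rfJ_oJ, one_smul, oJ_ou, mul_add, mul_neg, e, mul_one, add_mul, neg_mul, mul_add, mul_neg,
    fr_ou]
  abel

/-- the window -/
theorem IN_fr {v : V3} (h2 : brJ 1 v v = 2) {K1 Kt M : Mt}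
    (h : ∀ u ∈ NZ K1, 0 ≤ hr Kt ((M * rfJ 1 v).mulVec u)) : IN (trK v K1) (trK v Kt) v M := by
  refine IN_hat h2 fun u hu => ?_
  rw [hr_trK, Matrix.mulVec_mulVec, ← mul_assoc, ← mul_assoc, rfJ_sqM h2, one_mul]
  exact h u hu

section

variable {α : Type} {D : ℕ} {lf : α → Vt D → ℂ} {A : Alg α} {t : ℕ → ℝ}

/-- **SOUNDNESS OF THE FRAMED TEST** -/
theorem incV_ok (hP : PT D t) {Kt K1 N : Mt} {f g : Fr} (hfr : frOK f g = true)
    (hA : AOK D lf A) {V : V9 α} {Kg Kf : KM α} (hV : TV D lf t (frS g * (N * frR f)) V)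
    (hg : HK D lf t ((frR g)ᴴ * Kt * frR g) Kg) (hf : HK D lf t ((frR f)ᴴ * K1 * frR f) Kf)
    {r : ℝ} (h0 : 0 < r) {R : Mo α} (hR : TOK D lf t (r : ℂ) R) {L : Lc α} (hL : LcOK D lf L)
    {l : ℕ} {m : Z} (h : incV A L f l m R V Kg Kf = true) (u : V3) (hu : u ∈ NZ K1) :
    0 ≤ hr Kt (N.mulVec u) := by
  obtain ⟨b1, hfr⟩ := andB_t' hfr
  obtain ⟨b2, hfr⟩ := andB_t' hfr
  obtain ⟨b3, hfr⟩ := andB_t' hfr
  obtain ⟨b4, b5⟩ := andB_t' hfr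
  have df := nzC_ok b1
  have dg := nzC_ok b2
  have sf : (f.s : ℂ) ≠ 0 := by
    have : 1 ≤ f.s := Nat.le_of_ble_eq_true b3
    exact_mod_cast (by omega : f.s ≠ 0)
  have sg : (g.s : ℂ) ≠ 0 := by
    have : 1 ≤ g.s := Nat.le_of_ble_eq_true b4
    exact_mod_cast (by omega : g.s ≠ 0)
  have zg : (g.z : ℂ) ≠ 0 := by
    have : 1 ≤ g.z := Nat.le_of_ble_eq_true b5
    exact_mod_cast (by omega : g.z ≠ 0)
  have hF := (hg.g9 hA hP hV).sm hA hP hR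
  set ζ : V3 := ((UU : ℂ) / ((f.s : ℂ) * cz (dtC f.c))) • (C9M (adC f.c)).mulVec u with hζ
  have eu : (frR f).mulVec ζ = u := by
    rw [hζ, Matrix.mulVec_smul, frR, Matrix.smul_mulVec, Matrix.mulVec_mulVec, C9M_ad,
      Matrix.smul_mulVec, Matrix.one_mulVec, smul_smul, smul_smul]
    have e : (UU : ℂ) / ((f.s : ℂ) * cz (dtC f.c)) * ((f.s : ℂ) / UU) * cz (dtC f.c) = 1 := by
      have := UUc_ne
      field_simp
    rw [e, one_smul]
  have h3 := hF.geC hP hf hL h ζ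
  rw [jFC_hq, hr_smulM, hr_cong, hr_cong, hr_cong, eu] at h3
  have eJ : hr J1 ((C9M f.c).mulVec ζ) = 0 := by
    have e1 : (C9M f.c).mulVec ζ = ((UU : ℂ) / f.s) • u := by
      have e2 : (frR f).mulVec ζ = ((f.s : ℂ) / UU) • (C9M f.c).mulVec ζ := by
        rw [frR, Matrix.smul_mulVec]
      rw [eu] at e2
      rw [e2, smul_smul]
      have e3 : (UU : ℂ) / f.s * ((f.s : ℂ) / UU) = 1 := by
        have := UUc_ne
        field_simp
      rw [e3, one_smul]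
    rw [e1, hr_smulv, hu.2, mul_zero]
  have e4 : (frR g).mulVec ((frS g * (N * frR f)).mulVec ζ) =
      ((g.s : ℂ) / UU * ((g.z : ℂ) / UU) * cz (dtC g.c)) • N.mulVec u := by
    rw [← Matrix.mulVec_mulVec, ← Matrix.mulVec_mulVec, eu, frR, frS, Matrix.smul_mulVec,
      Matrix.smul_mulVec, Matrix.mulVec_smul, Matrix.mulVec_mulVec, C9M_ad, Matrix.smul_mulVec,
      Matrix.one_mulVec, smul_smul, smul_smul]
  rw [e4, hr_smulv, eJ, mul_zero, mul_zero] at h3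
  have h00 : ((nat_lit 0 : ℕ) : ℝ) = 0 := Nat.cast_zero
  rw [h00, zero_div, zero_mul] at h3
  have h5 := mul_nonneg (Nat.cast_nonneg (α := ℝ) l) hu.1
  have hp : 0 < ‖(g.s : ℂ) / UU * ((g.z : ℂ) / UU) * cz (dtC g.c)‖ ^ 2 := by
    have h6 : (g.s : ℂ) / UU * ((g.z : ℂ) / UU) * cz (dtC g.c) ≠ 0 :=
      mul_ne_zero (mul_ne_zero (div_ne_zero sg UUc_ne) (div_ne_zero zg UUc_ne)) dg
    have := norm_pos_iff.2 h6
    positivity
  have h7 : 0 ≤ r * (‖(g.s : ℂ) / UU * ((g.z : ℂ) / UU) * cz (dtC g.c)‖ ^ 2 *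
      hr Kt (N.mulVec u)) := by
    linarith
  exact nonneg_of_mul_nonneg_right (nonneg_of_mul_nonneg_right h7 h0) hp

/-- inclusions in a frame -/
theorem incK_ok (hP : PT D t) {Ki Ke : Mt} {f : Fr} (b1 : nzC (dtC f.c) = true) (b3 : 1 ≤ f.s)
    (hA : AOK D lf A) {Mi Me : KM α} (hi : HK D lf t ((frR f)ᴴ * Ki * frR f) Mi)
    (he : HK D lf t ((frR f)ᴴ * Ke * frR f) Me) {r : ℝ} (h0 : 0 < r) {R : Mo α}
    (hR : TOK D lf t (r : ℂ) R) {L : Lc α} (hL : LcOK D lf L) {l : ℕ} {m : Z}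
    (h : geC L (nat_lit 0) l (jFC m f.c) (smK A R Mi) Me = true) (u : V3) (hu : u ∈ NZ Ke) :
    0 ≤ hr Ki u := by
  have df := nzC_ok b1
  have sf : (f.s : ℂ) ≠ 0 := by exact_mod_cast (by omega : f.s ≠ 0)
  have hF := hi.sm hA hP hR
  set ζ : V3 := ((UU : ℂ) / ((f.s : ℂ) * cz (dtC f.c))) • (C9M (adC f.c)).mulVec u with hζ
  have eu : (frR f).mulVec ζ = u := by
    rw [hζ, Matrix.mulVec_smul, frR, Matrix.smul_mulVec, Matrix.mulVec_mulVec, C9M_ad,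
      Matrix.smul_mulVec, Matrix.one_mulVec, smul_smul, smul_smul]
    have e : (UU : ℂ) / ((f.s : ℂ) * cz (dtC f.c)) * ((f.s : ℂ) / UU) * cz (dtC f.c) = 1 := by
      have := UUc_ne
      field_simp
    rw [e, one_smul]
  have h3 := hF.geC hP he hL h ζ
  rw [jFC_hq, hr_smulM, hr_cong, hr_cong, eu] at h3
  have eJ : hr J1 ((C9M f.c).mulVec ζ) = 0 := by
    have e1 : (C9M f.c).mulVec ζ = ((UU : ℂ) / f.s) • u := by
      have e2 : (frR f).mulVec ζ = ((f.s : ℂ) / UU) • (C9M f.c).mulVec ζ := by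
        rw [frR, Matrix.smul_mulVec]
      rw [eu] at e2
      rw [e2, smul_smul]
      have e3 : (UU : ℂ) / f.s * ((f.s : ℂ) / UU) = 1 := by
        have := UUc_ne
        field_simp
      rw [e3, one_smul]
    rw [e1, hr_smulv, hu.2, mul_zero]
  rw [eJ, mul_zero, mul_zero] at h3
  have h00 : ((nat_lit 0 : ℕ) : ℝ) = 0 := Nat.cast_zero
  rw [h00, zero_div, zero_mul] at h3
  have h5 := mul_nonneg (Nat.cast_nonneg (α := ℝ) l) hu.1
  have h7 : 0 ≤ r * hr Ki u := by linarith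
  exact nonneg_of_mul_nonneg_right h7 h0

/-! #### models -/

variable {x y v : V3} {X Y Vm : V3m α}

theorem TW_ra (hA : AOK D lf A) (hP : PT D t) (f : Fr) (hy : TW D lf t y Y) :
    TW D lf t ((frR f)ᵀ.mulVec (jr y)) (raM A f Y) :=
  (TV_frA hA hP f).tr.mv hA hP (hy.jw hA hP)
theorem TW_cb (hA : AOK D lf A) (hP : PT D t) (g : Fr) (hx : TW D lf t x X) :
    TW D lf t ((frS g).mulVec x) (cbM A g X) := (TV_frB hA hP g).mv hA hP hx
theorem TV_ga' (hA : AOK D lf A) (hP : PT D t) (f g : Fr) :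
    TV D lf t (frS g * frR f) (gaM A f g) := (TV_frB hA hP g).mul hA hP (TV_frA hA hP f)
theorem TV_ou' (hA : AOK D lf A) (hP : PT D t) (hx : TW D lf t x X) (hy : TW D lf t y Y) :
    TV D lf t (ouR x y) (ouV A X Y) := hx.ou hA hP hy

/-- a run, one depth -/
theorem TV_run (hA : AOK D lf A) (hP : PT D t) {φ : ℝ} {h : Sy} {ρ : ℝ} (h2 : brJ 1 v v = 2)
    {B Am : Mt} {N0 N1 G : V9 α} {r : Mo α}
    (k0 : TV D lf t (ouR (B.mulVec (ns φ v h.1 h.2)) (Amᵀ.mulVec (jr (ns φ v h.1 h.2))) +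
        ((nW φ v h : ℝ) : ℂ) • (ouR (B.mulVec v - B.mulVec (ns φ v h.1 h.2)) (Amᵀ.mulVec (jr v)) -
          B * Am)) N0)
    (k1 : TV D lf t ((ouR (B.mulVec (ns φ v h.1 h.2)) (Amᵀ.mulVec (jr v)) -
          ouR (B.mulVec v) (Amᵀ.mulVec (jr (ns φ v h.1 h.2)))) +
            ((nW φ v h : ℝ) : ℂ) • (B * Am)) N1)
    (kG : TV D lf t (B * Am) G) (kr : TOK D lf t ((ρ : ℝ) : ℂ) r) :
    TV D lf t (B * (rM φ v h ρ * rfJ 1 v * Am)) (nrM A r N0 N1 G) :=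
  (k0.add hA ((k1.smul hA hP kr).sub hA (kG.smul hA hP (kr.mul hA hP kr)))).congr
    (run_fr h2 φ h ρ B Am).symm

theorem TV_na (hA : AOK D lf A) (hP : PT D t) (hv : TW D lf t v Vm) {p : ℕ} {vd : V3} {h : Sy}
    {L : LM α} (hL : LOK D lf t p v vd h L) (f g : Fr) :
    TV D lf t (ouR ((frS g).mulVec (ns (phi p) v h.1 h.2))
        ((frR f)ᵀ.mulVec (jr (ns (phi p) v h.1 h.2))) +
        ((nW (phi p) v h : ℝ) : ℂ) • (ouR ((frS g).mulVec v -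
          (frS g).mulVec (ns (phi p) v h.1 h.2)) ((frR f)ᵀ.mulVec (jr v)) - frS g * frR f))
      (naM A f g Vm L) :=
  (TV_ou' hA hP (TW_cb hA hP g hL.s) (TW_ra hA hP f hL.s)).add hA
    (((TV_ou' hA hP ((TW_cb hA hP g hv).sub hA (TW_cb hA hP g hL.s)) (TW_ra hA hP f hv)).sub hA
      (TV_ga' hA hP f g)).smul hA hP hL.w)

theorem TV_nb (hA : AOK D lf A) (hP : PT D t) (hv : TW D lf t v Vm) {p : ℕ} {vd : V3} {h : Sy}
    {L : LM α} (hL : LOK D lf t p v vd h L) (f g : Fr) :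
    TV D lf t ((ouR ((frS g).mulVec (ns (phi p) v h.1 h.2)) ((frR f)ᵀ.mulVec (jr v)) -
          ouR ((frS g).mulVec v) ((frR f)ᵀ.mulVec (jr (ns (phi p) v h.1 h.2)))) +
            ((nW (phi p) v h : ℝ) : ℂ) • (frS g * frR f)) (nbM A f g Vm L) :=
  ((TV_ou' hA hP (TW_cb hA hP g hL.s) (TW_ra hA hP f hv)).sub hA
    (TV_ou' hA hP (TW_cb hA hP g hv) (TW_ra hA hP f hL.s))).add hA
    ((TV_ga' hA hP f g).smul hA hP hL.w)

/-- a rotation -/
theorem TV_nt (hA : AOK D lf A) (hP : PT D t) (hv : TW D lf t v Vm) {d : V3} {Dm : V3m α}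
    (hd : TW D lf t d Dm) (f g : Fr) :
    TV D lf t (frS g * (Matrix.diagonal d * rfJ 1 v * frR f)) (ntM A f g Vm Dm) :=
  (((TV_frB hA hP g).mul hA hP ((TV_frA hA hP f).dl hA hP hd)).sub hA
    (TV_ou' hA hP (TW_cb hA hP g (hd.hd hA hP hv)) (TW_ra hA hP f hv))).congr
    (rot_fr v d _ _).symm

end

/-! ### the dispatcher -/

section

variable {T : TK κ γ} {KV : κ → (ℕ → ℝ) → Mt} {t : ℕ → ℝ} {p : ℕ} {v vd : V3} {F : FH T3}
  {L : LM T3} {E : LE} {R : RPar} {C : Mo T3}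

theorem f3V_ok (hP : PT 3 t) (h2 : brJ 1 v v = 2) {K1 Kt M : Mt} {f g : Fr}
    (hfr : frOK f g = true) {Kf Kg : KM T3} (hf : HK 3 lf3 t ((frR f)ᴴ * K1 * frR f) Kf)
    (hg : HK 3 lf3 t ((frR g)ᴴ * Kt * frR g) Kg) {r : ℝ} (h0 : 0 < r) {S : Mo T3}
    (hS : TOK 3 lf3 t (r : ℂ) S) {V : V9 T3}
    (hV : TV 3 lf3 t (frS g * (M * rfJ 1 v * frR f)) V) {m : Mu}
    (h : f3V f m S Kf Kg V = true) : IN (cK v K1) (cK v Kt) v M :=
  IN_fr h2 fun u hu => incV_ok hP hfr a3 hV hg hf h0 hS Lc3_ok h u hu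

theorem f4V_ok (h2 : brJ 1 v v = 2) {u : ℝ} (u0 : 0 ≤ u) (u1 : u ≤ 1) (hP4 : PT 4 (tu 3 t u))
    {K1 Kt M : Mt} {f g : Fr}
    (hfr : frOK f g = true) {Kf Kg : KM T3} (hf : HK 3 lf3 t ((frR f)ᴴ * K1 * frR f) Kf)
    (hg : HK 3 lf3 t ((frR g)ᴴ * Kt * frR g) Kg) {r : ℝ} (h0 : 0 < r) {S : Mo T3}
    (hS : TOK 3 lf3 t (r : ℂ) S) {V : V9 T4}
    (hV : TV 4 lf4 (tu 3 t u) (frS g * (M * rfJ 1 v * frR f)) V) {m : Mu}
    (h : f4V f m S Kf Kg V = true) : IN (cK v K1) (cK v Kt) v M :=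
  IN_fr h2 fun y hy => incV_ok hP4 hfr a4 hV (kU hg u0 u1) (kU hf u0 u1) h0 (tU hS u0 u1)
    Lc4_ok h y hy

theorem TV_f3 (hP : PT 3 t) (h2 : brJ 1 v v = 2) (hF : HOK 3 lf3 t v vd F) {h : Sy}
    (hL : LOK 3 lf3 t p v vd h L) (f g : Fr) {ρ : ℝ} {r : Mo T3}
    (hr : TOK 3 lf3 t ((ρ : ℝ) : ℂ) r) :
    TV 3 lf3 t (frS g * (rM (phi p) v h ρ * rfJ 1 v * frR f)) (f3N f g F L r) :=
  TV_run a3 hP h2 (TV_na a3 hP hF.hv hL f g) (TV_nb a3 hP hF.hv hL f g) (TV_ga' a3 hP f g) hr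

theorem TV_f4 (hP : PT 3 t) (h2 : brJ 1 v v = 2) {u : ℝ} (u0 : 0 ≤ u) (u1 : u ≤ 1)
    (hP4 : PT 4 (tu 3 t u)) (hF : HOK 3 lf3 t v vd F) {h : Sy}
    (hL : LOK 3 lf3 t p v vd h L) (f g : Fr) {ρ : ℝ} {r : Mo T4}
    (hr : TOK 4 lf4 (tu 3 t u) ((ρ : ℝ) : ℂ) r) :
    TV 4 lf4 (tu 3 t u) (frS g * (rM (phi p) v h ρ * rfJ 1 v * frR f)) (f4N f g F L r) :=
  TV_run a4 hP4 h2 (vU (TV_na a3 hP hF.hv hL f g) u0 u1) (vU (TV_nb a3 hP hF.hv hL f g) u0 u1)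
    (vU (TV_ga' a3 hP f g) u0 u1) hr

theorem TV_rt3 (hP : PT 3 t) (hF : HOK 3 lf3 t v vd F) {h : Sy} (hL : LOK 3 lf3 t p v vd h L)
    (hg : h.2 % 2 = 0) (f g : Fr) :
    TV 3 lf3 t (frS g * (sDm (phi p) h.1 h.2 * rfJ 1 v * frR f))
      (ntM A3 f g F.v ⟨L.P, conjM A3 L.P, oneM A3⟩) := by
  have hw : TW 3 lf3 t ![(if h.1 then star (ep (phi p)) else ep (phi p)) ^ h.2,
      (if h.1 then ep (phi p) else star (ep (phi p))) ^ h.2, 1]
      (⟨L.P, conjM A3 L.P, oneM A3⟩ : V3m T3) := by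
    refine ⟨tc hL.P (by simp), tc (hL.P.conj a3) ?_, tc (TOK_one a3 hP) (by simp)⟩
    show star _ = _
    rw [star_pow]
    cases h.1 <;> simp
  have e : Matrix.diagonal ![(if h.1 then star (ep (phi p)) else ep (phi p)) ^ h.2,
      (if h.1 then ep (phi p) else star (ep (phi p))) ^ h.2, 1] = sDm (phi p) h.1 h.2 := by
    rw [sDm_even (phi p) h.1 h.2 hg]
    ext i j
    fin_cases i <;> fin_cases j <;> simp [Matrix.diagonal]
  have k := TV_nt a3 hP hF.hv hw f g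
  rw [e] at k
  exact k

/-- **THE DISPATCHER OF THE INVARIANCE IN FRAMES** -/
theorem itF_ok (hT : TKL KV T) (hP : PT 3 t) (h2 : brJ 1 v v = 2) (hF : HOK 3 lf3 t v vd F)
    {c : ℕ} (hL : LOK 3 lf3 t p v vd (cs c) L) (hR : RL R (cs c) E)
    (hC : TOK 3 lf3 t ((R.ch (cs c) : ℝ) : ℂ) C) {P : ℕ} {k1 kt : κ} {f g : Fr} {m : Mu} {s : Sf}
    (h : itF T F L E C c P k1 kt f g m s = true) :
    sati R (phi p) v (cs c) (Pd P) (cK v (KV k1 t)) (cK v (KV kt t)) := by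
  have e : ∀ {a : ℕ}, Nat.beq (Nat.mod P (nat_lit 8)) a = true → P % 8 = a := fun h =>
    Nat.eq_of_beq_eq_true h
  obtain ⟨hfr, h⟩ := andB_t' h
  obtain ⟨hs, h⟩ := andB_t' h
  have r0 := sf_pos hs hP le_rfl
  have hS := TOK_sf a3 hP le_rfl CD3 s
  have hKf : HK 3 lf3 t ((frR f)ᴴ * KV k1 t * frR f) (frK A3 f (T.km k1)) :=
    (hT.km (k := k1) hP).g9 a3 hP (TV_frA a3 hP f)
  have hKg : HK 3 lf3 t ((frR g)ᴴ * KV kt t * frR g) (frK A3 g (T.km kt)) :=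
    (hT.km (k := kt) hP).g9 a3 hP (TV_frA a3 hP g)
  unfold fiD at h
  rcases condB h with ⟨hk, h⟩ | h
  · rw [Pd_k, e hk]
    obtain ⟨b1, b2⟩ := andB_t' h
    exact f3V_ok hP h2 hfr hKf hKg r0 hS (TV_rt3 hP hF hL (even_of b1) f g) b2
  rcases condB h with ⟨hk, h⟩ | h
  · rw [Pd_k, e hk]
    show IN _ _ v (rM (phi p) v (cs c) (rn (nW (phi p) v (cs c)) (P / 8)))
    have h' : fiE f g F L m (sfM A3 qx3 s) (frK A3 f (T.km k1)) (frK A3 g (T.km kt)) (P / 8) =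
      true := h
    generalize P / 8 = n at h' ⊢
    cases n with
    | zero => exact absurd h' Bool.false_ne_true
    | succ j =>
      obtain ⟨b1, b2⟩ := andB_t' (show andB (exOK L j) (f3V f m (sfM A3 qx3 s)
        (frK A3 f (T.km k1)) (frK A3 g (T.km kt))
        (f3N f g F L (rhM A3 L.w (invM A3 L.w) j).r)) = true from h')
      have hx := exOK_ok hP hL.w b1
      exact f3V_ok hP h2 hfr hKf hKg r0 hS (TV_f3 hP h2 hF hL f g hx.r) b2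
  rcases condB h with ⟨hk, h⟩ | h
  · rw [Pd_k, e hk]
    intro τ b1 b2
    obtain ⟨u, u0, u1, hP4, hρ⟩ := ro_ex hP hR hC b1 b2
    exact f4V_ok h2 u0 u1 hP4 hfr hKf hKg r0 hS (TV_f4 hP h2 u0 u1 hP4 hF hL f g hρ) h
  rcases condB h with ⟨hk, h⟩ | h
  · rw [Pd_k, e hk]
    intro τ b1 b2
    obtain ⟨u, u0, u1, hP4, hρ⟩ := ro_ex hP hR hC b1 b2
    exact f4V_ok h2 u0 u1 hP4 hfr hKf hKg r0 hS (TV_f4 hP h2 u0 u1 hP4 hF hL f g hρ) h
  rcases condB h with ⟨hk, h⟩ | h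
  · rw [Pd_k, e hk]
    trivial
  · rw [Pd_k, e h]
    trivial

theorem itF_K (hT : TKL KV T) (hP : PT 3 t) (h2 : brJ 1 v v = 2) (hF : HOK 3 lf3 t v vd F)
    {tb : ℕ → LE} {bc : ℕ → ℕ → Prop} {c : ℕ} (hL : LOK 3 lf3 t p v vd (cs c) L) {P : ℕ}
    {k1 kt : κ} {f g : Fr} {m : Mu} {s : Sf}
    (h : itF T F L (tb c) (chK c (tb c) L.w) c P k1 kt f g m s = true) :
    sati (RTK tb (nW (phi p) v) bc) (phi p) v (cs c) (Pd P) (cK v (KV k1 t)) (cK v (KV kt t)) :=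
  itF_ok hT hP h2 hF hL (RL_K tb _ bc c) (ch_K hP hL.w) h

theorem inF_ok (hT : TKL KV T) (hP : PT 3 t) (h2 : brJ 1 v v = 2) {ki ke : κ} {f : Fr} {m : Mu}
    {s : Sf} (h : inF T ki ke f m s = true) : NZ (cK v (KV ke t)) ⊆ NZ (cK v (KV ki t)) := by
  obtain ⟨b1, h⟩ := andB_t' h
  obtain ⟨b2, h⟩ := andB_t' h
  obtain ⟨hs, h⟩ := andB_t' h
  exact inc_hat h2 fun u hu => incK_ok hP b1 (Nat.le_of_ble_eq_true b2) a3
    ((hT.km (k := ki) hP).g9 a3 hP (TV_frA a3 hP f))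
    ((hT.km (k := ke) hP).g9 a3 hP (TV_frA a3 hP f)) (sf_pos hs hP le_rfl)
    (TOK_sf a3 hP le_rfl CD3 s) Lc3_ok h u hu

end

end Pool.Agent.Helper82.FRD
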