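import Pool.Agent.Helper82.CW.Fin

/-!
# Numerical consequences
-/

namespace Helper82.CW

open Set Metric MeasureTheory Helper80.CW
open scoped Real

/-- closed form of the bound -/
theorem bound_form {r : ℝ} (hr : 0 ≤ r) :
    π * (Bc r - 1 / 3) =
      π / 6 * ((15 - 2 * (r + Real.sqrt (9 + 30 * r + r ^ 2))) /
        (6 + r + Real.sqrt (9 + 30 * r + r ^ 2))) := by
  have h := Sr_ge hr
  unfold Bc
  unfold Sr at *
  have h1 : (6 + r + Real.sqrt (9 + 30 * r + r ^ 2)) ≠ 0 := by positivity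
  have h2 : (Real.sqrt (9 + 30 * r + r ^ 2) + 6 + r) ≠ 0 := by positivity
  field_simp
  ring

theorem bound_eighth :
    π * (Bc (3 / 8 - 1 / 4) - 1 / 3) = π / 3 * ((59 - Real.sqrt 817) / (49 + Real.sqrt 817)) := by
  have h817 : Real.sqrt (9 + 30 * (1 / 8) + (1 / 8) ^ 2) = Real.sqrt 817 / 8 := by
    rw [show (9 + 30 * (1 / 8) + (1 / 8) ^ 2 : ℝ) = 817 / 8 ^ 2 by norm_num,
      Real.sqrt_div (by norm_num), Real.sqrt_sq (by norm_num)]
  rw [show (3 / 8 - 1 / 4 : ℝ) = 1 / 8 by norm_num, bound_form (by norm_num), h817]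
  have h0 : 0 ≤ Real.sqrt 817 := Real.sqrt_nonneg _
  have h1 : (49 + Real.sqrt 817) ≠ 0 := by positivity
  have h2 : (6 + 1 / 8 + Real.sqrt 817 / 8) ≠ 0 := by positivity
  field_simp
  ring

/-- `sin x ≥ x - x³/6` for `x ≥ 0` -/
theorem sin_ge {x : ℝ} (hx : 0 ≤ x) : x - x ^ 3 / 6 ≤ Real.sin x := by
  have hd : ∀ y : ℝ, HasDerivAt (fun y => Real.sin y - (y - y ^ 3 / 6))
      (Real.cos y - (1 - y ^ 2 / 2)) y := by
    intro y
    have h1 := (hasDerivAt_pow 3 y).div_const 6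
    have h2 := (Real.hasDerivAt_sin y).sub ((hasDerivAt_id y).sub h1)
    refine h2.congr_deriv ?_
    push_cast
    ring
  have hm : Monotone (fun y => Real.sin y - (y - y ^ 3 / 6)) := by
    apply monotone_of_deriv_nonneg (fun y => (hd y).differentiableAt)
    intro y
    rw [(hd y).deriv]
    have := Real.one_sub_sq_div_two_le_cos (x := y)
    linarith
  have := hm hx
  simp at this
  linarith

/-- a lower bound for `arccos (1/3)` -/
theorem arccos_third : 1.2309 ≤ Real.arccos (1 / 3) := by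
  rw [Real.arccos, le_sub_comm]
  have hpi := Real.pi_gt_d6
  have hpi2 := Real.pi_lt_d6
  have h1 : Real.arcsin (1 / 3) ≤ 0.339896 := by
    rw [Real.arcsin_le_iff_le_sin' ⟨by linarith, by linarith⟩]
    have := sin_ge (x := 0.339896) (by norm_num)
    refine le_trans ?_ this
    norm_num
  linarith

/-- volume of the Meissner bodies -/
noncomputable def VM : ℝ := π * (2 / 3 - Real.sqrt 3 / 4 * Real.arccos (1 / 3))

theorem VM_lt : VM < 0.41995 := by
  have h1 := arccos_third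
  have h2 : (1.73205 : ℝ) ≤ Real.sqrt 3 := Real.le_sqrt_of_sq_le (by norm_num)
  have hpi2 := Real.pi_lt_d6
  have hpi := Real.pi_pos
  unfold VM
  have h3 : 1.73205 / 4 * 1.2309 ≤ Real.sqrt 3 / 4 * Real.arccos (1 / 3) := by
    apply mul_le_mul _ h1 (by norm_num) (by positivity)
    linarith
  calc π * (2 / 3 - Real.sqrt 3 / 4 * Real.arccos (1 / 3)) ≤ π * (2 / 3 - 1.73205 / 4 * 1.2309) :=
        mul_le_mul_of_nonneg_left (by linarith) hpi.le
    _ ≤ 3.141593 * (2 / 3 - 1.73205 / 4 * 1.2309) :=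
        mul_le_mul_of_nonneg_right hpi2.le (by norm_num)
    _ < 0.41995 := by norm_num

/-- `Bc` is antitone -/
theorem Bc_anti {r s : ℝ} (hr : 0 ≤ r) (hrs : r ≤ s) : Bc s ≤ Bc r := by
  have h1 : Sr r ≤ Sr s := Real.sqrt_le_sqrt (by nlinarith)
  have h2 := Sr_ge hr
  unfold Bc
  apply div_le_div_of_nonneg_left (by norm_num) (by positivity)
  linarith

theorem thr : 0.41996 < π * (Bc (0.6026 ^ 2 - 1 / 4) - 1 / 3) := by
  have hpi := Real.pi_gt_d6
  have h1 : Sr (0.6026 ^ 2 - 1 / 4) ≤ 3.52231 := by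
    unfold Sr
    apply Real.sqrt_le_iff.2
    constructor
    · norm_num
    · norm_num
  have h0 := Sr_ge (r := 0.6026 ^ 2 - 1 / 4) (by norm_num)
  have h2 : 9 / (2 * (3.52231 + 6 + (0.6026 ^ 2 - 1 / 4))) ≤ Bc (0.6026 ^ 2 - 1 / 4) := by
    unfold Bc
    apply div_le_div_of_nonneg_left (by norm_num) (by linarith)
    linarith
  have h3 : (0.13369 : ℝ) ≤ Bc (0.6026 ^ 2 - 1 / 4) - 1 / 3 := by
    refine le_trans ?_ (sub_le_sub_right h2 _)
    norm_num
  calc (0.41996 : ℝ) < 3.141592 * 0.13369 := by norm_num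
    _ ≤ π * (Bc (0.6026 ^ 2 - 1 / 4) - 1 / 3) := by
        apply mul_le_mul hpi.le h3 (by norm_num) (by linarith)

end Helper82.CW
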