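import Pool.Agent.Helper82.CW.Mn
import Pool.Agent.Helper80.CW.Main
import Pool.Agent.Helper14.CW.Jung

/-!
# Volume of bodies of constant width in a ball of radius `R`
-/

namespace Helper82.CW

open Set Metric MeasureTheory Helper80.CW
open scoped ContDiff Topology RealInnerProductSpace Real

section
variable {f : E3 → ℝ} {c : ℝ}

/-- the volume of the body with support function `f` -/
theorem volume_ge (h : SSup f c) {V0 : ℝ}
    (hV : 6 * V0 ≤ SI (fun x => f x * (lap f x ^ 2 - hs2 f x))) :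
    ENNReal.ofReal V0 ≤ volume {y : E3 | ∀ z, ⟪y, z⟫ ≤ f z} := by
  set D : E3 → ℝ := fun x => (fderiv ℝ (Fm f) x).det with hD
  set U : Set E3 := {x | x ≠ 0} with hU
  have hUo : IsOpen U := isOpen_ne
  have hDc : ContinuousOn D U := by
    intro x hx
    have h1 : ContinuousAt (fderiv ℝ (Fm f)) x :=
      ((contDiffAt_Fm h.sm hx).fderiv_right (m := ∞) (by simp)).continuousAt
    exact (ContinuousLinearMap.continuous_det.continuousAt.comp h1).continuousWithinAt
  set s : Set E3 := {x | (x ≠ 0 ∧ ‖x‖ < 1) ∧ D x ≠ 0} with hs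
  have hso : IsOpen s := by
    have h1 : s = (U ∩ ball 0 1) ∩ (U ∩ D ⁻¹' {0}ᶜ) := by
      ext x
      simp only [hs, hU, mem_ofPred_eq, mem_inter_iff, mem_ball_zero_iff, mem_preimage,
        mem_compl_iff, mem_singleton_iff]
      tauto
    rw [h1]
    exact (hUo.inter isOpen_ball).inter (hDc.isOpen_inter_preimage hUo isOpen_compl_singleton)
  have hinj : InjOn (Fm f) s := by
    apply h.inj.mono
    intro x hx
    exact ⟨hx.1.1, hx.2⟩
  have harea := lintegral_abs_det_fderiv_eq_addHaar_image volume hso.measurableSet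
    (f := Fm f) (f' := fun x => fderiv ℝ (Fm f) x)
    (fun x hx => (Fm_diffAt h.sm hx.1.1).hasFDerivAt.hasFDerivWithinAt) hinj
  have hsub : Fm f '' s ⊆ {y : E3 | ∀ z, ⟪y, z⟫ ≤ f z} := by
    rintro _ ⟨x, hx, rfl⟩ z
    exact h.Fm_mem hx.1.1 hx.1.2.le z
  refine le_trans ?_ (measure_mono hsub)
  rw [← harea]
  have hDhom : Hom 0 D := by
    have e1 : ∀ x, x ≠ 0 → D x = ‖x‖ * (f x * (lap f x ^ 2 - hs2 f x)) / 2 := by
      intro x hx
      rw [hD]
      simp only
      rw [h.det_eq hx]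
      ring
    have a := (h.hom.lap h.sm).sq
    have b := h.hom.hs2 h.sm
    norm_num at a b
    have e2 := Hom.norm.mul (h.hom.mul (a.sub b))
    norm_num at e2
    intro r hr x hx
    rw [e1 x hx, e1 _ (smul_ne_zero hr.ne' hx)]
    have := e2 r hr x hx
    norm_num at this ⊢
    linarith
  have hpol := polar hDhom (fun r => if r < 1 then 1 else 0)
  have h13 : ∫ r in Ioi (0 : ℝ), r ^ 2 * ((if r < 1 then (1 : ℝ) else 0) * r ^ (0 : ℤ)) = 1 / 3 := by
    have e1 : ∫ r in Ioi (0 : ℝ), r ^ 2 * ((if r < 1 then (1 : ℝ) else 0) * r ^ (0 : ℤ)) =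
        ∫ r in Ioo (0 : ℝ) 1, r ^ 2 := by
      have e2 : ∫ r in Ioi (0 : ℝ), r ^ 2 * ((if r < 1 then (1 : ℝ) else 0) * r ^ (0 : ℤ)) =
          ∫ r in Ioo (0 : ℝ) 1, r ^ 2 * ((if r < 1 then (1 : ℝ) else 0) * r ^ (0 : ℤ)) := by
        apply setIntegral_eq_of_subset_of_forall_sdiff_eq_zero measurableSet_Ioi
        · intro r hr
          exact hr.1
        · intro r hr
          have : ¬ r < 1 := fun h => hr.2 ⟨hr.1, h⟩
          simp [this]
      rw [e2]
      apply setIntegral_congr_fun measurableSet_Ioo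
      intro r hr
      simp [hr.2]
    rw [e1, ← integral_Ioc_eq_integral_Ioo, ← intervalIntegral.integral_of_le (by norm_num),
      integral_pow]
    norm_num
  rw [h13] at hpol
  have hSI : SI D = (1 / 2) * SI (fun x => f x * (lap f x ^ 2 - hs2 f x)) := by
    rw [← SI_const_mul]
    apply SI_congr
    intro x hx
    have hx0 : x ≠ 0 := by
      rintro rfl
      simp at hx
    rw [hD]
    simp only
    rw [h.det_eq hx0, hx]
    ring
  have hlow : V0 ≤ ∫ x : E3, (if ‖x‖ < 1 then (1 : ℝ) else 0) * D x := by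
    rw [hpol, hSI]
    linarith
  refine le_trans (ENNReal.ofReal_le_ofReal hlow) ?_
  have hpw : ∀ x : E3, x ≠ 0 → ENNReal.ofReal ((if ‖x‖ < 1 then (1 : ℝ) else 0) * D x) ≤
      s.indicator (fun x => ENNReal.ofReal |D x|) x := by
    intro x hx
    by_cases hxs : x ∈ s
    · rw [indicator_of_mem hxs]
      apply ENNReal.ofReal_le_ofReal
      simp only [hxs.1.2, if_true, one_mul]
      exact le_abs_self _
    · rw [indicator_of_notMem hxs]
      have : (if ‖x‖ < 1 then (1 : ℝ) else 0) * D x = 0 := by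
        by_cases h1 : ‖x‖ < 1
        · have : D x = 0 := by
            by_contra h2
            exact hxs ⟨⟨hx, h1⟩, h2⟩
          simp [this]
        · simp [h1]
      rw [this]
      simp
  have hae : ∀ᵐ x : E3, x ≠ 0 := by simp [ae_iff, measure_singleton]
  calc ENNReal.ofReal (∫ x : E3, (if ‖x‖ < 1 then (1 : ℝ) else 0) * D x) ≤
      ∫⁻ x : E3, ENNReal.ofReal ((if ‖x‖ < 1 then (1 : ℝ) else 0) * D x) :=
        ofReal_integral_le _
    _ ≤ ∫⁻ x : E3, s.indicator (fun x => ENNReal.ofReal |D x|) x := by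
        apply lintegral_mono_ae
        filter_upwards [hae] with x hx using hpw x hx
    _ = _ := lintegral_indicator hso.measurableSet _

end

section
variable {K : Set E3}

/-- support function centred at the centre of a ball containing `K` -/
theorem H0_supp_ball (hK : IsCompact K) (hw : Width1 K) {x0 : E3} {R : ℝ} (hR1 : R ≤ 1)
    (hsub : K ⊆ closedBall x0 R) : Supp (H0 K x0) R := by
  have hne := hw.nonempty
  have hR0 : 0 ≤ R := by
    obtain ⟨y, hy⟩ := hne
    exact dist_nonneg.trans (mem_closedBall.1 (hsub hy))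
  have hbound : ∀ x, H0 K x0 x ≤ R * ‖x‖ := by
    intro x
    obtain ⟨z, hz, h1⟩ := supp_attained hK hne x
    unfold H0
    rw [h1, ← inner_sub_left]
    calc ⟪z - x0, x⟫ ≤ ‖z - x0‖ * ‖x‖ := real_inner_le_norm _ _
      _ ≤ R * ‖x‖ := by
        apply mul_le_mul_of_nonneg_right _ (norm_nonneg _)
        have := mem_closedBall.1 (hsub hz)
        rwa [dist_eq_norm] at this
  have hwidth : ∀ x, H0 K x0 x + H0 K x0 (-x) = ‖x‖ := by
    intro x
    unfold H0
    have := supp_width hK hw x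
    rw [inner_neg_right]
    linarith
  refine ⟨?_, ?_, ?_, hbound, hwidth, hR0⟩
  · intro x y
    obtain ⟨z, hz, h1⟩ := supp_attained hK hne (x + y)
    have h2 := supp_ge hK hne x hz
    have h3 := supp_ge hK hne y hz
    unfold H0
    rw [inner_add_right] at h1 ⊢
    linarith
  · intro t ht x
    unfold H0
    rw [supp_smul hK hne ht, inner_smul_right]
    ring
  · intro x
    have h1 := hbound (-x)
    have h2 := hwidth x
    rw [norm_neg] at h1
    have h3 : R * ‖x‖ ≤ 1 * ‖x‖ := mul_le_mul_of_nonneg_right hR1 (norm_nonneg _)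
    linarith

theorem body_sub' (hK : IsCompact K) (hc : Convex ℝ K) (hw : Width1 K) {k0 : E3}
    {f : E3 → ℝ} {δ : ℝ} (hf : ∀ x, f x ≤ H0 K k0 x + δ * ‖x‖) (hδ : 0 ≤ δ) :
    {y : E3 | ∀ z, ⟪y, z⟫ ≤ f z} ⊆ cthickening δ ((fun y => y + k0) ⁻¹' K) := by
  have hne := hw.nonempty
  intro y hy
  obtain ⟨p, hpK, hp⟩ := exists_norm_eq_iInf_of_complete_convex hne hK.isComplete hc (y + k0)
  rw [norm_eq_iInf_iff_real_inner_le_zero hc hpK] at hp
  have hpm : p - k0 ∈ (fun y => y + k0) ⁻¹' K := by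
    simp [hpK]
  apply mem_cthickening_of_dist_le y (p - k0) δ _ hpm
  rw [dist_eq_norm]
  set x := y - (p - k0) with hx
  have hx' : y + k0 - p = x := by
    rw [hx]
    abel
  rw [hx'] at hp
  obtain ⟨z, hz, h1⟩ := supp_attained hK hne x
  have h2 := hp z hz
  rw [inner_sub_right] at h2
  have h3 := hy x
  have h4 := hf x
  unfold H0 at h4
  rw [h1] at h4
  have h5 : ⟪x, x⟫ = ⟪y, x⟫ - ⟪p, x⟫ + ⟪k0, x⟫ := by
    conv_lhs => rw [hx, inner_sub_left, inner_sub_left]
    rw [← hx]
    ring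
  have h6 : ⟪x, x⟫ ≤ δ * ‖x‖ := by
    rw [h5]
    rw [real_inner_comm z x, real_inner_comm p x] at h2
    linarith
  rw [real_inner_self_eq_norm_mul_norm] at h6
  rcases eq_or_lt_of_le (norm_nonneg x) with h7 | h7
  · rw [← h7]
    exact hδ
  · exact le_of_mul_le_mul_right h6 h7

theorem Bc_contAt {r : ℝ} (hr : 0 ≤ r) : ContinuousAt Bc r := by
  have h1 : ContinuousAt (fun r : ℝ => Sr r) r := by
    unfold Sr
    fun_prop
  have h2 := Sr_ge hr
  unfold Bc
  apply ContinuousAt.div continuousAt_const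
  · exact (continuousAt_const.mul ((h1.add continuousAt_const).add continuousAt_id))
  · positivity

/-- the radius is at least one half -/
theorem half_le (hK : IsCompact K) (hw : Width1 K) {x0 : E3} {R : ℝ} (hR1 : R ≤ 1)
    (hsub : K ⊆ closedBall x0 R) : 1 / 2 ≤ R := by
  have h := H0_supp_ball hK hw hR1 hsub
  have h1 := h.bound (e 0)
  have h2 := h.bound (-e 0)
  have h3 := h.width (e 0)
  rw [norm_neg] at h2
  rw [norm_e] at h1 h2 h3
  linarith

/-- **Main inequality**: a body of constant width `1` in a ball of radius `R`. -/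
theorem volume_circum (hK : IsCompact K) (hc : Convex ℝ K) (hw : Width1 K) {x0 : E3} {R : ℝ}
    (hR1 : R ≤ 1) (hsub : K ⊆ closedBall x0 R) :
    ENNReal.ofReal (π * (Bc (R ^ 2 - 1 / 4) - 1 / 3)) ≤ volume K := by
  have hR := H0_supp_ball hK hw hR1 hsub
  have hRh := half_le hK hw hR1 hsub
  set K0 : Set E3 := (fun y => y + x0) ⁻¹' K with hK0
  have hK0c : IsCompact K0 := by
    have : K0 = (fun y => y - x0) '' K := by
      ext y
      constructor
      · intro hy
        exact ⟨y + x0, hy, by simp⟩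
      · rintro ⟨z, hz, rfl⟩
        simpa [hK0] using hz
    rw [this]
    exact hK.image (by fun_prop)
  have hvol : volume K0 = volume K := measure_preimage_add_right volume x0 K
  rw [← hvol]
  set re : ℝ → ℝ := fun ε => (R * (1 + ε) / (1 - ε)) ^ 2 - 1 / 4 with hre
  have hstep : ∀ ε : ℝ, 0 < ε → ε < 1 →
      ENNReal.ofReal (π * (1 - ε) ^ 3 * (Bc (re ε) - 1 / 3)) ≤
        volume (cthickening (R * ε) K0) := by
    intro ε hε hε1
    have hS := Ht_SSup hR hε hε1
    have hcw := cw_ge hε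
    have hb : ∀ x, Ht (H0 K x0) ε x ≤ (R * (1 + ε)) * ‖x‖ := by
      intro x
      have h1 := Ht_le hR hε x
      have h2 := hR.bound x
      linarith
    have hquot : R ≤ R * (1 + ε) / (1 - ε) := by
      rw [le_div_iff₀ (by linarith)]
      nlinarith
    have hr0 : 0 ≤ re ε := by
      have : (1 / 2 : ℝ) ^ 2 ≤ (R * (1 + ε) / (1 - ε)) ^ 2 :=
        pow_le_pow_left₀ (by norm_num) (by linarith) 2
      simp only [hre]
      linarith
    have hRr : (R * (1 + ε)) ^ 2 - cw ε ^ 2 / 4 ≤ cw ε ^ 2 * re ε := by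
      have h1 : (1 - ε) ^ 2 ≤ cw ε ^ 2 := pow_le_pow_left₀ (by linarith) hcw 2
      have h2 : (R * (1 + ε)) ^ 2 = (1 - ε) ^ 2 * (R * (1 + ε) / (1 - ε)) ^ 2 := by
        have : (1 - ε) ≠ 0 := by linarith
        field_simp
      have h3 := mul_le_mul_of_nonneg_right h1 (sq_nonneg (R * (1 + ε) / (1 - ε)))
      simp only [hre]
      nlinarith
    have h1 := volume_ge hS (vol_lower hS (by nlinarith) hb hr0 hRr)
    have h2 := body_sub' hK hc hw (f := Ht (H0 K x0) ε) (δ := R * ε) (Ht_le hR hε)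
      (mul_nonneg hR.Rnn hε.le)
    have h3 := h1.trans (measure_mono h2)
    refine le_trans (ENNReal.ofReal_le_ofReal_iff' |>.2 ?_) h3
    by_cases hB : 0 ≤ Bc (re ε) - 1 / 3
    · left
      have h5 : (1 - ε) ^ 3 ≤ (cw ε) ^ 3 := pow_le_pow_left₀ (by linarith) hcw 3
      have hpi := Real.pi_pos
      exact mul_le_mul_of_nonneg_right (mul_le_mul_of_nonneg_left h5 hpi.le) hB
    · right
      have hpi := Real.pi_pos
      have : 0 < (1 - ε) ^ 3 := pow_pos (by linarith) 3
      exact (mul_neg_of_pos_of_neg (by positivity) (not_le.1 hB)).le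
  have hlim1 : Filter.Tendsto (fun ε : ℝ => volume (cthickening (R * ε) K0)) (𝓝[>] 0)
      (𝓝 (volume K0)) := by
    have h1 := tendsto_measure_cthickening_of_isCompact (μ := (volume : Measure E3)) hK0c
    have h2 : Filter.Tendsto (fun ε : ℝ => R * ε) (𝓝[>] 0) (𝓝 0) := by
      have : Continuous (fun ε : ℝ => R * ε) := by fun_prop
      have h3 := this.tendsto 0
      simp only [mul_zero] at h3
      exact h3.mono_left nhdsWithin_le_nhds
    exact h1.comp h2
  have hlim2 : Filter.Tendsto (fun ε : ℝ => ENNReal.ofReal (π * (1 - ε) ^ 3 * (Bc (re ε) - 1 / 3)))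
      (𝓝[>] 0) (𝓝 (ENNReal.ofReal (π * (Bc (R ^ 2 - 1 / 4) - 1 / 3)))) := by
    apply ENNReal.tendsto_ofReal
    have h0 : re 0 = R ^ 2 - 1 / 4 := by
      simp [hre]
    have hrc : ContinuousAt re 0 := by
      have h1 : ContinuousAt (fun ε : ℝ => R * (1 + ε) / (1 - ε)) 0 := by
        apply ContinuousAt.div
        · fun_prop
        · fun_prop
        · norm_num
      exact (h1.pow 2).sub continuousAt_const
    have hB0 : ContinuousAt Bc (re 0) := by
      rw [h0]
      exact Bc_contAt (by nlinarith)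
    have hBc : ContinuousAt (fun ε => Bc (re ε)) 0 := ContinuousAt.comp (f := re) (g := Bc) hB0 hrc
    have hall : ContinuousAt (fun ε : ℝ => π * (1 - ε) ^ 3 * (Bc (re ε) - 1 / 3)) 0 := by
      apply ContinuousAt.mul
      · fun_prop
      · exact hBc.sub continuousAt_const
    have h3 := hall.tendsto
    rw [h0] at h3
    simp only [sub_zero, one_pow, mul_one] at h3
    exact h3.mono_left nhdsWithin_le_nhds
  apply le_of_tendsto_of_tendsto hlim2 hlim1
  have hlt : ∀ᶠ ε : ℝ in 𝓝 0, ε < 1 := eventually_lt_nhds one_pos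
  filter_upwards [self_mem_nhdsWithin, hlt.filter_mono nhdsWithin_le_nhds] with ε h1 h2
  exact hstep ε h1 h2

/-- the diameter is at most one -/
theorem diam_le (hK : IsCompact K) (hw : Width1 K) : ∀ x ∈ K, ∀ y ∈ K, dist x y ≤ 1 := by
  have hne := hw.nonempty
  intro x hx y hy
  rw [dist_eq_norm]
  by_cases h0 : x - y = 0
  · rw [h0]
    simp
  have hn : 0 < ‖x - y‖ := norm_pos_iff.2 h0
  have h1 := supp_ge hK hne (x - y) hx
  have h2 := supp_ge hK hne (-(x - y)) hy
  have h3 := supp_width hK hw (x - y)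
  rw [inner_neg_right] at h2
  have h4 : ⟪x, x - y⟫ - ⟪y, x - y⟫ = ‖x - y‖ ^ 2 := by
    rw [← inner_sub_left, real_inner_self_eq_norm_sq]
  have h5 : ‖x - y‖ ^ 2 ≤ ‖x - y‖ := by linarith
  nlinarith

/-- every body of constant width one lies in a ball of radius `√(3/8)` -/
theorem jung_width (hK : IsCompact K) (hw : Width1 K) :
    ∃ x0, K ⊆ closedBall x0 (Real.sqrt (3 / 8)) :=
  jung3 K hK hw.nonempty (diam_le hK hw)

end

end Helper82.CW
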