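import Pool.Agent.Helper82.CW.SED

/-!
Plan W (MP_c75db0): the tests of invariance in constant frames. Leaf test with a constant
hermitian matrix; frames `A`, `C` of the source form and of the target form: the products are
formed in the frames.
-/

set_option autoImplicit false
noncomputable section
namespace Pool.Agent.Helper82.TST

open Matrix
open Pool.Agent.Helper90.C75
open Pool.Agent.Helper90.KMT
open Pool.Agent.Helper90.KMO (UU UU_pos UUc_ne norm_UU zv zv_sub zv_mul zv_add zv_p cz andB_t)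
open Pool.Agent.Helper86.C75 (Z H3)
open Pool.Agent.Helper86.CX (Cx andB)
open Pool.Agent.Helper86.CT (N3 Alg Mo KM addM subM mulM conjM cst fa fc fb)
open Pool.Agent.Helper62.TVM
open Pool.Agent.Helper17.K9 (V9)
open Pool.Agent.Helper6.MONO
open Pool.Agent.Helper6.MONO.W2

/-! ### the kernel side -/

/-- constant hermitian matrix: diagonal `a b c`, entries `x = 01`, `y = 02`, `w = 12` -/
structure H6 where
  a : Z
  b : Z
  c : Z
  x : Cx
  y : Cx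
  w : Cx

/-- a test of two forms and a constant form at all leaves -/
structure Lc (α : Type) where
  t : Nat → Nat → Nat → Nat → H6 → α → α → α → α → α → α → α → α → α → α → α → α → Bool

def lwc6 (r s t l : Nat) (H : H6) (a b c x y w a' b' c' x' y' w' : Cx) : Bool :=
  Pool.Agent.Helper86.C75.psd ⟨Z.sub (lcZ l a.re a'.re) (Z.add H.a (Z.p r)),
    Z.sub (lcZ l b.re b'.re) (Z.add H.b (Z.p s)), Z.sub (lcZ l c.re c'.re) (Z.add H.c (Z.p t)),
    Z.sub (lcZ l x.re x'.re) H.x.re, Z.sub (lcZ l x.im x'.im) H.x.im,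
    Z.sub (lcZ l y.re y'.re) H.y.re, Z.sub (lcZ l y.im y'.im) H.y.im,
    Z.sub (lcZ l w.re w'.re) H.w.re, Z.sub (lcZ l w.im w'.im) H.w.im⟩
def Lc0 : Lc Cx := ⟨lwc6⟩
def nxLc {α : Type} (F : Lc α) : Lc (N3 α) :=
  ⟨fun r s t l m a b c x y w a' b' c' x' y' w' =>
    andB (F.t r s t l m (fa a) (fa b) (fa c) (fa x) (fa y) (fa w)
      (fa a') (fa b') (fa c') (fa x') (fa y') (fa w'))
    (andB (F.t r s t l m (fc a) (fc b) (fc c) (fc x) (fc y) (fc w)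
      (fc a') (fc b') (fc c') (fc x') (fc y') (fc w'))
      (F.t r s t l m (fb a) (fb b) (fb c) (fb x) (fb y) (fb w)
      (fb a') (fb b') (fb c') (fb x') (fb y') (fb w')))⟩
def Lc1 : Lc (N3 Cx) := nxLc Lc0
def Lc2 : Lc (N3 (N3 Cx)) := nxLc Lc1
def Lc3 : Lc (N3 (N3 (N3 Cx))) := nxLc Lc2
def Lc4 : Lc (N3 (N3 (N3 (N3 Cx)))) := nxLc Lc3

/-- THE TEST `2 ^ 16 F ≥ l K + 2 ^ (-48) H + e 2 ^ (-48)` -/
def geC {α : Type} (L : Lc α) (e l : Nat) (H : H6) (F K : KM α) : Bool :=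
  L.t (rd3 e l (Nat.add (Nat.add F.a.r F.x.r) F.y.r) (Nat.add (Nat.add K.a.r K.x.r) K.y.r))
    (rd3 e l (Nat.add (Nat.add F.b.r F.x.r) F.w.r) (Nat.add (Nat.add K.b.r K.x.r) K.w.r))
    (rd3 e l (Nat.add (Nat.add F.c.r F.y.r) F.w.r) (Nat.add (Nat.add K.c.r K.y.r) K.w.r)) l H
    F.a.v F.b.v F.c.v F.x.v F.y.v F.w.v K.a.v K.b.v K.c.v K.x.v K.y.v K.w.v

/-- exact products `p q`, `conj p q` -/
def mu2 (p q : Cx) : Cx := ⟨Z.sub (Z.mul p.re q.re) (Z.mul p.im q.im),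
  Z.add (Z.mul p.re q.im) (Z.mul p.im q.re)⟩
def cj2 (p q : Cx) : Cx := ⟨Z.add (Z.mul p.re q.re) (Z.mul p.im q.im),
  Z.sub (Z.mul p.re q.im) (Z.mul p.im q.re)⟩
def sb2 (p q : Cx) : Cx := ⟨Z.sub p.re q.re, Z.sub p.im q.im⟩
def ad2 (p q : Cx) : Cx := ⟨Z.add p.re q.re, Z.add p.im q.im⟩
/-- `s c` -/
def sm2 (s : Nat) (p : Cx) : Cx := ⟨Z.mul (Z.p s) p.re, Z.mul (Z.p s) p.im⟩
def smC (s : Nat) (c : C9) : C9 := ⟨sm2 s c.a, sm2 s c.b, sm2 s c.c, sm2 s c.d, sm2 s c.e,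
  sm2 s c.f, sm2 s c.g, sm2 s c.h, sm2 s c.i⟩
/-- `p q - r s` -/
def mi2 (p q r s : Cx) : Cx := sb2 (mu2 p q) (mu2 r s)
/-- the adjugate -/
def adC (c : C9) : C9 := ⟨mi2 c.e c.i c.f c.h, mi2 c.c c.h c.b c.i, mi2 c.b c.f c.c c.e,
  mi2 c.f c.g c.d c.i, mi2 c.a c.i c.c c.g, mi2 c.c c.d c.a c.f,
  mi2 c.d c.h c.e c.g, mi2 c.b c.g c.a c.h, mi2 c.a c.e c.b c.d⟩
def dtC (c : C9) : Cx := ad2 (mu2 c.a (mi2 c.e c.i c.f c.h))
  (ad2 (mu2 c.b (mi2 c.f c.g c.d c.i)) (mu2 c.c (mi2 c.d c.h c.e c.g)))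
/-- the determinant is not zero -/
def nzC (d : Cx) : Bool := Z.isPos (Z.add (Z.mul d.re d.re) (Z.mul d.im d.im))
/-- `conj p q` for three rows, with the signs of `J` -/
def jr2 (p0 p1 p2 q0 q1 q2 : Cx) : Cx := sb2 (ad2 (cj2 p0 q0) (cj2 p1 q1)) (cj2 p2 q2)
def zsm (m : Z) (p : Cx) : Cx := ⟨Z.mul m p.re, Z.mul m p.im⟩
/-- `m c^* J c` -/
def jFC (m : Z) (c : C9) : H6 := ⟨Z.mul m (jr2 c.a c.d c.g c.a c.d c.g).re,
  Z.mul m (jr2 c.b c.e c.h c.b c.e c.h).re, Z.mul m (jr2 c.c c.f c.i c.c c.f c.i).re,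
  zsm m (jr2 c.a c.d c.g c.b c.e c.h), zsm m (jr2 c.a c.d c.g c.c c.f c.i),
  zsm m (jr2 c.b c.e c.h c.c c.f c.i)⟩

/-- a frame: integer matrix `c`, scales of `c` and of its adjugate -/
structure Fr where
  c : C9
  s : Nat
  z : Nat

def frA {α : Type} (A : Alg α) (f : Fr) : V9 α := cstV A (smC f.s f.c) (nat_lit 0)
def frB {α : Type} (A : Alg α) (f : Fr) : V9 α := cstV A (smC f.z (adC f.c)) (nat_lit 0)
/-- the form in the frame -/
def frK {α : Type} (A : Alg α) (f : Fr) (K : KM α) : KM α := cg9 A (frA A f) K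
/-- `N` in the frames: source `f`, target `g` -/
def frN {α : Type} (A : Alg α) (f g : Fr) (V : V9 α) : V9 α :=
  mulV A (frB A g) (mulV A V (frA A f))
/-- THE TEST OF INVARIANCE IN FRAMES: `V` model of `N`, target form `kt`, source form `k1` -/
def incF {α : Type} (A : Alg α) (L : Lc α) (f g : Fr) (l : Nat) (m : Z) (V : V9 α)
    (kt k1 : KM α) : Bool :=
  andB (nzC (dtC f.c)) (andB (nzC (dtC g.c)) (andB (Nat.ble (nat_lit 1) f.s)
    (andB (Nat.ble (nat_lit 1) g.s) (andB (Nat.ble (nat_lit 1) g.z)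
    (geC L (nat_lit 0) l (jFC m f.c) (cg9 A (frN A f g V) (frK A g kt)) (frK A f k1))))))

/-! ### the leaves -/

theorem lwc6_ok {r s t l : ℕ} {H : H6} {a b c x y w a' b' c' x' y' w' : Cx}
    (h : lwc6 r s t l H a b c x y w a' b' c' x' y' w' = true) (u : V3) :
    (r : ℝ) * ‖u 0‖ ^ 2 + s * ‖u 1‖ ^ 2 + t * ‖u 2‖ ^ 2 +
      hq (zv H.a) (zv H.b) (zv H.c) (cz H.x) (cz H.y) (cz H.w) u +
      l * hq (cz a').re (cz b').re (cz c').re (cz x') (cz y') (cz w') u ≤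
      65536 * hq (cz a).re (cz b).re (cz c).re (cz x) (cz y) (cz w) u := by
  have h4 := psd_ok h u
  have z1 : ∀ z z' k : Z, ∀ n : ℕ, (zv (Z.sub (lcZ l z z') (Z.add k (Z.p n))) : ℝ) =
      65536 * zv z - l * zv z' - (zv k + n) := by
    intro z z' k n
    rw [zv_sub, zv_add, zv_p]
    push_cast
    rw [zv_lc]
  have z2 : ∀ z z' k : Z, (zv (Z.sub (lcZ l z z') k) : ℝ) = 65536 * zv z - l * zv z' - zv k := by
    intro z z' k
    rw [zv_sub]
    push_cast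
    rw [zv_lc]
  rw [z1, z1, z1] at h4
  simp only [z2] at h4
  have e : hq (65536 * (zv a.re : ℝ) - l * zv a'.re - (zv H.a + r))
      (65536 * (zv b.re : ℝ) - l * zv b'.re - (zv H.b + s))
      (65536 * (zv c.re : ℝ) - l * zv c'.re - (zv H.c + t))
      ⟨65536 * (zv x.re : ℝ) - l * zv x'.re - zv H.x.re,
        65536 * (zv x.im : ℝ) - l * zv x'.im - zv H.x.im⟩
      ⟨65536 * (zv y.re : ℝ) - l * zv y'.re - zv H.y.re,
        65536 * (zv y.im : ℝ) - l * zv y'.im - zv H.y.im⟩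
      ⟨65536 * (zv w.re : ℝ) - l * zv w'.re - zv H.w.re,
        65536 * (zv w.im : ℝ) - l * zv w'.im - zv H.w.im⟩ u =
      65536 * hq (cz a).re (cz b).re (cz c).re (cz x) (cz y) (cz w) u -
      l * hq (cz a').re (cz b').re (cz c').re (cz x') (cz y') (cz w') u -
      hq (zv H.a) (zv H.b) (zv H.c) (cz H.x) (cz H.y) (cz H.w) u -
      ((r : ℝ) * ‖u 0‖ ^ 2 + s * ‖u 1‖ ^ 2 + t * ‖u 2‖ ^ 2) := by
    unfold hq
    rw [re3, re3, re3, re3, re3, re3, re3, re3, re3, re3, re3, re3]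
    simp only [cz]
    ring
  rw [e] at h4
  linarith

/-- the law of a test -/
def LcOK {α : Type} (D : ℕ) (lf : α → Vt D → ℂ) (L : Lc α) : Prop :=
  ∀ (r s t l : ℕ) (H : H6) (a b c x y w a' b' c' x' y' w' : α),
    L.t r s t l H a b c x y w a' b' c' x' y' w' = true → ∀ (v : Vt D) (u : V3),
    (r : ℝ) * ‖u 0‖ ^ 2 + s * ‖u 1‖ ^ 2 + t * ‖u 2‖ ^ 2 +
      hq (zv H.a) (zv H.b) (zv H.c) (cz H.x) (cz H.y) (cz H.w) u +
      l * hq (lf a' v).re (lf b' v).re (lf c' v).re (lf x' v) (lf y' v) (lf w' v) u ≤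
      65536 * hq (lf a v).re (lf b v).re (lf c v).re (lf x v) (lf y v) (lf w v) u

theorem Lc0_ok : LcOK 0 lf0 Lc0 :=
  fun _ _ _ _ _ _ _ _ _ _ _ _ _ _ _ _ _ h _ u => lwc6_ok h u

theorem LcOK.nx {α : Type} {D : ℕ} {lf : α → Vt D → ℂ} {L : Lc α} (h : LcOK D lf L) :
    LcOK (D + 1) (nlf lf) (nxLc L) := by
  intro r s t l m a b c x y w a' b' c' x' y' w' hh v u
  obtain ⟨h1, h2⟩ := andB_t hh
  obtain ⟨h2, h3⟩ := andB_t h2
  simp only [fa_c3] at h1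
  simp only [fc_c3] at h2
  simp only [fb_c3] at h3
  obtain ⟨v', i⟩ := v
  fin_cases i
  · exact h _ _ _ _ _ _ _ _ _ _ _ _ _ _ _ _ _ h1 v' u
  · exact h _ _ _ _ _ _ _ _ _ _ _ _ _ _ _ _ _ h2 v' u
  · exact h _ _ _ _ _ _ _ _ _ _ _ _ _ _ _ _ _ h3 v' u

theorem Lc1_ok : LcOK 1 (nlf lf0) Lc1 := Lc0_ok.nx
theorem Lc2_ok : LcOK 2 (nlf (nlf lf0)) Lc2 := Lc1_ok.nx
theorem Lc3_ok : LcOK 3 (nlf (nlf (nlf lf0))) Lc3 := Lc2_ok.nx
theorem Lc4_ok : LcOK 4 (nlf (nlf (nlf (nlf lf0)))) Lc4 := Lc3_ok.nx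

section

variable {α : Type} {D : ℕ} {lf : α → Vt D → ℂ} {A : Alg α} {t : ℕ → ℝ}

/-- SOUNDNESS OF THE TEST WITH A CONSTANT FORM -/
theorem HK.geC (hP : PT D t) {F K : Mt} {M N : KM α} (hF : HK D lf t F M) (hK : HK D lf t K N)
    {L : Lc α} (hL : LcOK D lf L) {e l : ℕ} {H : H6} (ht : TST.geC L e l H M N = true) (u : V3) :
    (e : ℝ) / UU * nq u + 1 / UU * hq (zv H.a) (zv H.b) (zv H.c) (cz H.x) (cz H.y) (cz H.w) u +
      l * hr K u ≤ 65536 * hr F u := by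
  have hU := UU_pos
  have h1 := abs_le.1 (hF.near hP u)
  have h2 := abs_le.1 (hK.near hP u)
  have e3 := hq_avg (w := wtT D t) (lf M.a.v) (lf M.b.v) (lf M.c.v) (lf M.x.v) (lf M.y.v)
    (lf M.w.v) u
  have e4 := hq_avg (w := wtT D t) (lf N.a.v) (lf N.b.v) (lf N.c.v) (lf N.x.v) (lf N.y.v)
    (lf N.w.v) u
  have c3 : ∀ m n k : ℕ, ((Nat.add (Nat.add m n) k : ℕ) : ℝ) = m + n + k := by
    intro m n k
    show ((m + n + k : ℕ) : ℝ) = _
    push_cast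
    ring
  have cr : ∀ r r' : ℕ, ((rd3 e l r r' : ℕ) : ℝ) = e + (65536 * r + l * r') := by
    intro r r'
    show ((e + (65536 * r + l * r') : ℕ) : ℝ) = _
    push_cast
    ring
  have key : (e : ℝ) * nq u + hq (zv H.a) (zv H.b) (zv H.c) (cz H.x) (cz H.y) (cz H.w) u +
      65536 * (((M.a.r : ℝ) + M.x.r + M.y.r) * ‖u 0‖ ^ 2 + (M.b.r + M.x.r + M.w.r) * ‖u 1‖ ^ 2 +
      (M.c.r + M.y.r + M.w.r) * ‖u 2‖ ^ 2) +
      l * (((N.a.r : ℝ) + N.x.r + N.y.r) * ‖u 0‖ ^ 2 + (N.b.r + N.x.r + N.w.r) * ‖u 1‖ ^ 2 +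
      (N.c.r + N.y.r + N.w.r) * ‖u 2‖ ^ 2) +
      l * hq (avg (wtT D t) (lf N.a.v)).re (avg (wtT D t) (lf N.b.v)).re
        (avg (wtT D t) (lf N.c.v)).re (avg (wtT D t) (lf N.x.v)) (avg (wtT D t) (lf N.y.v))
        (avg (wtT D t) (lf N.w.v)) u ≤
      65536 * hq (avg (wtT D t) (lf M.a.v)).re (avg (wtT D t) (lf M.b.v)).re
        (avg (wtT D t) (lf M.c.v)).re (avg (wtT D t) (lf M.x.v)) (avg (wtT D t) (lf M.y.v))
        (avg (wtT D t) (lf M.w.v)) u := by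
    rw [e3, e4, Finset.mul_sum, Finset.mul_sum]
    set R := (e : ℝ) * nq u + hq (zv H.a) (zv H.b) (zv H.c) (cz H.x) (cz H.y) (cz H.w) u +
      65536 * (((M.a.r : ℝ) + M.x.r + M.y.r) * ‖u 0‖ ^ 2 + (M.b.r + M.x.r + M.w.r) * ‖u 1‖ ^ 2 +
      (M.c.r + M.y.r + M.w.r) * ‖u 2‖ ^ 2) +
      l * (((N.a.r : ℝ) + N.x.r + N.y.r) * ‖u 0‖ ^ 2 + (N.b.r + N.x.r + N.w.r) * ‖u 1‖ ^ 2 +
      (N.c.r + N.y.r + N.w.r) * ‖u 2‖ ^ 2) with hR
    have e5 : R = ∑ v, wtT D t v * R := by rw [← Finset.sum_mul, hP.w.sum, one_mul]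
    rw [e5, ← Finset.sum_add_distrib]
    refine Finset.sum_le_sum fun v _ => ?_
    have h3 := hL _ _ _ _ _ _ _ _ _ _ _ _ _ _ _ _ _ ht v u
    rw [cr, cr, cr, c3, c3, c3, c3, c3, c3] at h3
    have h4 : R + l * hq (lf N.a.v v).re (lf N.b.v v).re (lf N.c.v v).re (lf N.x.v v)
        (lf N.y.v v) (lf N.w.v v) u ≤ 65536 * hq (lf M.a.v v).re (lf M.b.v v).re
        (lf M.c.v v).re (lf M.x.v v) (lf M.y.v v) (lf M.w.v v) u := by
      rw [hR]
      unfold nq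
      linarith
    have h5 := mul_le_mul_of_nonneg_left h4 (hP.w.nonneg v)
    linarith
  have hl : (0 : ℝ) ≤ l := Nat.cast_nonneg _
  have h6 := mul_le_mul_of_nonneg_left h2.2 hl
  set Q := hq (zv H.a) (zv H.b) (zv H.c) (cz H.x) (cz H.y) (cz H.w) u with hQ
  have h7 : (e : ℝ) * nq u + Q + l * (UU * hr K u) ≤ 65536 * (UU * hr F u) := by linarith
  have h8 : UU * ((e : ℝ) / UU * nq u + 1 / UU * Q + l * hr K u) ≤ UU * (65536 * hr F u) := by
    have e9 : UU * ((e : ℝ) / UU * nq u + 1 / UU * Q + l * hr K u) =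
        (e : ℝ) * nq u + Q + l * (UU * hr K u) := by
      field_simp
    rw [e9]
    linarith
  exact le_of_mul_le_mul_left h8 hU

/-! ### exact integer matrices -/

theorem cz_mu2 (p q : Cx) : cz (mu2 p q) = cz p * cz q := by
  apply Complex.ext
  · simp [cz, mu2, zv_sub, zv_mul]
  · simp [cz, mu2, zv_add, zv_mul]

theorem cz_cj2 (p q : Cx) : cz (cj2 p q) = star (cz p) * cz q := by
  have hs : star (cz p) = (starRingEnd ℂ) (cz p) := rfl
  rw [hs]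
  apply Complex.ext
  · simp [cz, cj2, zv_add, zv_mul]
  · simp [cz, cj2, zv_sub, zv_mul]
    ring

theorem cz_sb2 (p q : Cx) : cz (sb2 p q) = cz p - cz q := by
  apply Complex.ext
  · simp [cz, sb2, zv_sub]
  · simp [cz, sb2, zv_sub]

theorem cz_ad2 (p q : Cx) : cz (ad2 p q) = cz p + cz q := by
  apply Complex.ext
  · simp [cz, ad2, zv_add]
  · simp [cz, ad2, zv_add]

theorem cz_sm2 (s : ℕ) (p : Cx) : cz (sm2 s p) = s * cz p := by
  apply Complex.ext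
  · simp [cz, sm2, zv_mul, zv_p]
  · simp [cz, sm2, zv_mul, zv_p]

theorem cz_zsm (m : Z) (p : Cx) : cz (zsm m p) = ((zv m : ℝ) : ℂ) * cz p := by
  apply Complex.ext
  · simp [cz, zsm, zv_mul]
  · simp [cz, zsm, zv_mul]

theorem cz_mi2 (p q r s : Cx) : cz (mi2 p q r s) = cz p * cz q - cz r * cz s := by
  rw [mi2, cz_sb2, cz_mu2, cz_mu2]

/-- the matrix of the integers -/
def C9M (c : C9) : Mt := !![cz c.a, cz c.b, cz c.c; cz c.d, cz c.e, cz c.f; cz c.g, cz c.h, cz c.i]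

theorem C9M_ad (c : C9) : C9M c * C9M (adC c) = cz (dtC c) • (1 : Mt) := by
  ext i j
  fin_cases i <;> fin_cases j <;>
    simp [C9M, adC, dtC, cz_mi2, cz_mu2, cz_ad2, Matrix.mul_apply, Fin.sum_univ_three] <;> ring

theorem C9M_ad' (c : C9) : C9M (adC c) * C9M c = cz (dtC c) • (1 : Mt) := by
  ext i j
  fin_cases i <;> fin_cases j <;>
    simp [C9M, adC, dtC, cz_mi2, cz_mu2, cz_ad2, Matrix.mul_apply, Fin.sum_univ_three] <;> ring

theorem C9M_sm (s : ℕ) (c : C9) : C9M (smC s c) = (s : ℂ) • C9M c := by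
  ext i j
  fin_cases i <;> fin_cases j <;> simp [C9M, smC, cz_sm2]

theorem nzC_ok {d : Cx} (h : nzC d = true) : cz d ≠ 0 := by
  intro h0
  have h1 := pos_zv h
  rw [zv_add, zv_mul, zv_mul] at h1
  have h2 : (zv d.re : ℝ) = 0 := by
    have := congrArg Complex.re h0
    exact this
  have h3 : (zv d.im : ℝ) = 0 := by
    have := congrArg Complex.im h0
    exact this
  have h2' : zv d.re = 0 := by exact_mod_cast h2
  have h3' : zv d.im = 0 := by exact_mod_cast h3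
  rw [h2', h3'] at h1
  simp at h1

theorem jFC_hq (m : Z) (c : C9) (u : V3) :
    hq (zv (jFC m c).a) (zv (jFC m c).b) (zv (jFC m c).c) (cz (jFC m c).x) (cz (jFC m c).y)
      (cz (jFC m c).w) u = (zv m : ℝ) * hr J1 ((C9M c).mulVec u) := by
  have hs : ∀ z : ℂ, star z = (starRingEnd ℂ) z := fun _ => rfl
  unfold hq
  rw [sq_n, sq_n, sq_n, re3, re3, re3]
  unfold hr hv
  simp only [jFC, jr2, cz_zsm, zsm, J1, C9M, Matrix.mulVec, dotProduct, Fin.sum_univ_three,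
    Matrix.of_apply, Matrix.cons_val_zero, Matrix.cons_val_one, Matrix.cons_val,
    Matrix.cons_val', hs, sb2, ad2, cj2, cz, zv_mul, zv_sub, zv_add, Complex.add_re,
    Complex.mul_re, Complex.mul_im, Complex.conj_re, Complex.conj_im, Complex.one_re,
    Complex.one_im, Complex.zero_re, Complex.zero_im, Complex.neg_re, Complex.neg_im,
    Complex.add_im]
  push_cast
  ring

/-! ### frames -/

/-- the real frame -/
def frR (f : Fr) : Mt := ((f.s : ℂ) / UU) • C9M f.c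
def frS (f : Fr) : Mt := ((f.z : ℂ) / UU) • C9M (adC f.c)

theorem TV_frA (hA : AOK D lf A) (hP : PT D t) (f : Fr) : TV D lf t (frR f) (frA A f) := by
  refine TV_cst hA hP fun i j => ?_
  have e : (UU : ℂ) * frR f i j = cz ((smC f.s f.c).get i j) := by
    have h1 : (UU : ℂ) * frR f i j = (C9M (smC f.s f.c)) i j := by
      rw [C9M_sm]
      show (UU : ℂ) * ((f.s : ℂ) / UU * C9M f.c i j) = (f.s : ℂ) * C9M f.c i j
      rw [← mul_assoc, mul_div_cancel₀ _ UUc_ne]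
    rw [h1]
    fin_cases i <;> fin_cases j <;> rfl
  rw [e, sub_self, norm_zero]
  exact Nat.cast_nonneg _

theorem TV_frB (hA : AOK D lf A) (hP : PT D t) (f : Fr) : TV D lf t (frS f) (frB A f) := by
  refine TV_cst hA hP fun i j => ?_
  have e : (UU : ℂ) * frS f i j = cz ((smC f.z (adC f.c)).get i j) := by
    have h1 : (UU : ℂ) * frS f i j = (C9M (smC f.z (adC f.c))) i j := by
      rw [C9M_sm]
      show (UU : ℂ) * ((f.z : ℂ) / UU * C9M (adC f.c) i j) = (f.z : ℂ) * C9M (adC f.c) i j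
      rw [← mul_assoc, mul_div_cancel₀ _ UUc_ne]
    rw [h1]
    fin_cases i <;> fin_cases j <;> rfl
  rw [e, sub_self, norm_zero]
  exact Nat.cast_nonneg _

theorem hr_smulv (K : Mt) (c : ℂ) (u : V3) : hr K (c • u) = ‖c‖ ^ 2 * hr K u := by
  have hs : ∀ z : ℂ, star z = (starRingEnd ℂ) z := fun _ => rfl
  have e : hv K (c • u) = ((‖c‖ ^ 2 : ℝ) : ℂ) * hv K u := by
    unfold hv
    rw [Finset.mul_sum]
    refine Finset.sum_congr rfl (fun i _ => ?_)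
    rw [Finset.mul_sum]
    refine Finset.sum_congr rfl (fun j _ => ?_)
    have hc : ((‖c‖ ^ 2 : ℝ) : ℂ) = star c * c := by
      rw [hs, Complex.conj_mul']
      push_cast
      rfl
    rw [hc, Pi.smul_apply, Pi.smul_apply, smul_eq_mul, smul_eq_mul, star_mul']
    ring
  unfold hr
  rw [e, Complex.re_ofReal_mul]

/-- **INVARIANCE IN FRAMES** -/
theorem incF_ok (hA : AOK D lf A) (hP : PT D t) {Kt K1 N : Mt} {kt k1 : KM α} {V : V9 α}
    (ht : HK D lf t Kt kt) (h1 : HK D lf t K1 k1) (hV : TV D lf t N V) {L : Lc α}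
    (hL : LcOK D lf L) {f g : Fr} {l : ℕ} {m : Z} (h : incF A L f g l m V kt k1 = true)
    (u : V3) (hu : u ∈ NZ K1) : 0 ≤ hr Kt (N.mulVec u) := by
  obtain ⟨b1, h⟩ := andB_t h
  obtain ⟨b2, h⟩ := andB_t h
  obtain ⟨b3, h⟩ := andB_t h
  obtain ⟨b4, h⟩ := andB_t h
  obtain ⟨b5, h⟩ := andB_t h
  have hU := UU_pos
  have df := nzC_ok b1
  have dg := nzC_ok b2
  have sf : (f.s : ℂ) ≠ 0 := by
    have : 1 ≤ f.s := Nat.le_of_ble_eq_true b3
    exact_mod_cast (by omega : f.s ≠ 0)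
  have sg : (g.s : ℂ) ≠ 0 := by
    have : 1 ≤ g.s := Nat.le_of_ble_eq_true b4
    exact_mod_cast (by omega : g.s ≠ 0)
  have zg : (g.z : ℂ) ≠ 0 := by
    have : 1 ≤ g.z := Nat.le_of_ble_eq_true b5
    exact_mod_cast (by omega : g.z ≠ 0)
  have kA := TV_frA hA hP f
  have kC := TV_frA hA hP g
  have kB := TV_frB hA hP g
  have hF := (ht.g9 hA hP kC).g9 hA hP (kB.mul hA hP (hV.mul hA hP kA))
  have hK := h1.g9 hA hP kA
  -- the vector in the frame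
  set ζ : V3 := ((UU : ℂ) / ((f.s : ℂ) * cz (dtC f.c))) • (C9M (adC f.c)).mulVec u with hζ
  have eu : (frR f).mulVec ζ = u := by
    rw [hζ, Matrix.mulVec_smul, frR, Matrix.smul_mulVec, Matrix.mulVec_mulVec, C9M_ad,
      Matrix.smul_mulVec, Matrix.one_mulVec, smul_smul, smul_smul]
    have e : (UU : ℂ) / ((f.s : ℂ) * cz (dtC f.c)) * ((f.s : ℂ) / UU) * cz (dtC f.c) = 1 := by
      have := UUc_ne
      field_simp
    rw [e, one_smul]
  have h3 := hF.geC hP hK hL h ζ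
  rw [jFC_hq, hr_cong, hr_cong, hr_cong, eu] at h3
  have eJ : hr J1 ((C9M f.c).mulVec ζ) = 0 := by
    have e1 : (C9M f.c).mulVec ζ = ((UU : ℂ) / f.s) • u := by
      have e2 : (frR f).mulVec ζ = ((f.s : ℂ) / UU) • (C9M f.c).mulVec ζ := by
        rw [frR, Matrix.smul_mulVec]
      rw [← eu, e2, smul_smul]
      have e3 : (UU : ℂ) / f.s * ((f.s : ℂ) / UU) = 1 := by
        have := UUc_ne
        field_simp
      rw [eu] at e2
      rw [e3, one_smul]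
    rw [e1, hr_smulv, hu.2, mul_zero]
  have e4 : (frR g).mulVec ((frS g * (N * frR f)).mulVec ζ) =
      ((g.s : ℂ) / UU * ((g.z : ℂ) / UU) * cz (dtC g.c)) • N.mulVec u := by
    rw [← Matrix.mulVec_mulVec, ← Matrix.mulVec_mulVec, eu, frR, frS, Matrix.smul_mulVec,
      Matrix.smul_mulVec, Matrix.mulVec_smul, Matrix.mulVec_mulVec, C9M_ad, Matrix.smul_mulVec,
      Matrix.one_mulVec, smul_smul, smul_smul]
  rw [e4, hr_smulv, eJ, mul_zero, mul_zero] at h3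
  have h0 : ((nat_lit 0 : ℕ) : ℝ) = 0 := Nat.cast_zero
  rw [h0, zero_div, zero_mul] at h3
  have h5 := mul_nonneg (Nat.cast_nonneg (α := ℝ) l) hu.1
  have hp : 0 < ‖(g.s : ℂ) / UU * ((g.z : ℂ) / UU) * cz (dtC g.c)‖ ^ 2 := by
    have h6 : (g.s : ℂ) / UU * ((g.z : ℂ) / UU) * cz (dtC g.c) ≠ 0 :=
      mul_ne_zero (mul_ne_zero (div_ne_zero sg UUc_ne) (div_ne_zero zg UUc_ne)) dg
    have := norm_pos_iff.2 h6
    positivity
  have h7 : 0 ≤ ‖(g.s : ℂ) / UU * ((g.z : ℂ) / UU) * cz (dtC g.c)‖ ^ 2 * hr Kt (N.mulVec u) := by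
    linarith
  exact nonneg_of_mul_nonneg_right h7 hp

end

end Pool.Agent.Helper82.TST
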