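import Pool.Agent.Helper80.CW.Body1

/-!
# A third divergence identity on the sphere

For a `1`-homogeneous function `G`, smooth off the origin, with `Q = |∇G|²`, `s = Q - G²`
and `σ = (ΔG)² - |D²G|²`:  `∫ (Q + s) σ = ∫ G Q ΔG` on the unit sphere.
-/

namespace Helper82.CW

open Set Metric MeasureTheory Helper80.CW
open scoped ContDiff Topology RealInnerProductSpace Real

/-- derivative of the squared gradient -/
theorem pd_gr2 {f : E3 → ℝ} (hs : Sm f) (i : Fin 3) {x : E3} (hx : x ≠ 0) :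
    pd i (gr2 f) x = 2 * ∑ j, pd i (pd j f) x * pd j f x := by
  unfold gr2
  rw [pd_sum (fun j _ => (hs.pd j).pow 2) i hx, Finset.mul_sum]
  apply Finset.sum_congr rfl
  intro j _
  have h1 : pd i (fun x => pd j f x ^ 2) x = pd i (fun x => pd j f x * pd j f x) x := by
    apply pd_congr _ _ hx
    intro y _
    ring
  rw [h1, pd_mul (hs.pd j) (hs.pd j) i hx]
  ring

/-- the field `ΔG ∇G - D²G ∇G` -/
noncomputable def cofield (f : E3 → ℝ) (i : Fin 3) : E3 → ℝ :=
  fun x => lap f x * pd i f x - ∑ j, pd i (pd j f) x * pd j f x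

theorem cofield_sm {f : E3 → ℝ} (hs : Sm f) (i : Fin 3) : Sm (cofield f i) :=
  (hs.lap.mul (hs.pd i)).sub (Sm.sum (fun j _ => ((hs.pd j).pd i).mul (hs.pd j)))

theorem cofield_hom {k : ℤ} {f : E3 → ℝ} (hs : Sm f) (hk : Hom k f) (i : Fin 3) :
    Hom (2 * k - 3) (cofield f i) := by
  apply Hom.sub
  · have := (hk.lap hs).mul (hk.pd hs i)
    rwa [show k - 2 + (k - 1) = 2 * k - 3 by ring] at this
  · apply Hom.sum
    intro j _
    have := ((hk.pd hs j).pd (hs.pd j) i).mul (hk.pd hs j)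
    rwa [show k - 1 - 1 + (k - 1) = 2 * k - 3 by ring] at this

/-- the divergence of the cofactor field -/
theorem div_cofield {f : E3 → ℝ} (hs : Sm f) {x : E3} (hx0 : x ≠ 0) :
    ∑ i, pd i (cofield f i) x = lap f x ^ 2 - hs2 f x := by
  have a1 : ∀ i, pd i (cofield f i) x =
      pd i (lap f) x * pd i f x + lap f x * pd i (pd i f) x -
      ∑ j, (pd i (pd i (pd j f)) x * pd j f x + pd i (pd j f) x * pd i (pd j f) x) := by
    intro i
    unfold cofield
    rw [pd_sub (hs.lap.mul (hs.pd i)) (Sm.sum (fun j _ => ((hs.pd j).pd i).mul (hs.pd j))) i hx0,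
      pd_mul hs.lap (hs.pd i) i hx0, pd_sum (fun j _ => ((hs.pd j).pd i).mul (hs.pd j)) i hx0]
    congr 1
    apply Finset.sum_congr rfl
    intro j _
    rw [pd_mul ((hs.pd j).pd i) (hs.pd j) i hx0]
  simp only [a1]
  rw [Finset.sum_sub_distrib, Finset.sum_add_distrib, ← Finset.mul_sum]
  have a2 : ∑ i, ∑ j, (pd i (pd i (pd j f)) x * pd j f x + pd i (pd j f) x * pd i (pd j f) x) =
      ∑ j, pd j (lap f) x * pd j f x + hs2 f x := by
    have a3 : ∑ i, ∑ j, (pd i (pd i (pd j f)) x * pd j f x + pd i (pd j f) x * pd i (pd j f) x) =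
      ∑ j, ∑ i, (pd i (pd i (pd j f)) x * pd j f x) +
        ∑ i, ∑ j, pd i (pd j f) x * pd i (pd j f) x := by
      rw [Finset.sum_comm (s := Finset.univ) (t := Finset.univ)
        (f := fun j i => pd i (pd i (pd j f)) x * pd j f x), ← Finset.sum_add_distrib]
      apply Finset.sum_congr rfl
      intro i _
      rw [Finset.sum_add_distrib]
    rw [a3]
    congr 1
    · apply Finset.sum_congr rfl
      intro j _
      rw [← pd_lap hs j hx0, Finset.sum_mul]
    · unfold hs2
      apply Finset.sum_congr rfl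
      intro i _
      apply Finset.sum_congr rfl
      intro j _
      rw [pd_comm hs i j hx0]
      ring
  rw [a2]
  unfold lap
  ring

theorem adj_diag {a b d g k m x0 x1 x2 : ℝ} (e0 : x0 * a + x1 * b + x2 * d = 0)
    (e1 : x0 * b + x1 * g + x2 * k = 0) (e2 : x0 * d + x1 * k + x2 * m = 0)
    (hn : x0 ^ 2 + x1 ^ 2 + x2 ^ 2 = 1) :
    g * m - k * k = ((a * g - b * b) + (a * m - d * d) + (g * m - k * k)) * (x0 * x0) := by
  linear_combination (-(g * m - k * k)) * hn + x2 * (g * e2 - k * e1) - x0 * (g * e0 - b * e1) +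
    x1 * (m * e1 - k * e2) - x0 * (m * e0 - d * e2)

theorem adj_off {a b d g k m x0 x1 x2 : ℝ} (e0 : x0 * a + x1 * b + x2 * d = 0)
    (e1 : x0 * b + x1 * g + x2 * k = 0) (e2 : x0 * d + x1 * k + x2 * m = 0)
    (hn : x0 ^ 2 + x1 ^ 2 + x2 ^ 2 = 1) :
    k * d - b * m = ((a * g - b * b) + (a * m - d * d) + (g * m - k * k)) * (x0 * x1) := by
  linear_combination (b * m - k * d) * hn - (x0 * (m * e1 - k * e2) + x1 * (m * e0 - d * e2) -
    x2 * (k * e0 - b * e2) + x0 * (a * e1 - b * e0))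

theorem cayley_alg {a b d g k m x0 x1 x2 p0 p1 p2 f : ℝ} (e0 : x0 * a + x1 * b + x2 * d = 0)
    (e1 : x0 * b + x1 * g + x2 * k = 0) (e2 : x0 * d + x1 * k + x2 * m = 0)
    (hn : x0 ^ 2 + x1 ^ 2 + x2 ^ 2 = 1) (ef : x0 * p0 + x1 * p1 + x2 * p2 = f) :
    2 * ((a * p0 + b * p1 + d * p2) * ((a + g + m) * p0 - (a * p0 + b * p1 + d * p2)) +
      (b * p0 + g * p1 + k * p2) * ((a + g + m) * p1 - (b * p0 + g * p1 + k * p2)) +
      (d * p0 + k * p1 + m * p2) * ((a + g + m) * p2 - (d * p0 + k * p1 + m * p2))) =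
    ((a + g + m) ^ 2 - (a ^ 2 + b ^ 2 + d ^ 2 + (b ^ 2 + g ^ 2 + k ^ 2) + (d ^ 2 + k ^ 2 + m ^ 2))) *
      (p0 ^ 2 + p1 ^ 2 + p2 ^ 2 - f ^ 2) := by
  have c00 := adj_diag e0 e1 e2 hn
  have c11 := adj_diag (a := g) (b := b) (d := k) (g := a) (k := d) (m := m) (x0 := x1) (x1 := x0)
    (x2 := x2) (by linarith) (by linarith) (by linarith) (by linarith)
  have c22 := adj_diag (a := m) (b := k) (d := d) (g := g) (k := b) (m := a) (x0 := x2) (x1 := x1)
    (x2 := x0) (by linarith) (by linarith) (by linarith) (by linarith)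
  have c01 := adj_off e0 e1 e2 hn
  have c02 := adj_off (a := a) (b := d) (d := b) (g := m) (k := k) (m := g) (x0 := x0) (x1 := x2)
    (x2 := x1) (by linarith) (by linarith) (by linarith) (by linarith)
  have c12 := adj_off (a := g) (b := k) (d := b) (g := m) (k := d) (m := a) (x0 := x1) (x1 := x2)
    (x2 := x0) (by linarith) (by linarith) (by linarith) (by linarith)
  subst ef
  linear_combination (-2 * p0 ^ 2) * c00 - 2 * p1 ^ 2 * c11 - 2 * p2 ^ 2 * c22 -
    4 * p0 * p1 * c01 - 4 * p0 * p2 * c02 - 4 * p1 * p2 * c12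

/-- Cayley-Hamilton for the Hessian of a `1`-homogeneous function at a unit vector -/
theorem cayley {f : E3 → ℝ} (hs : Sm f) (hk : Hom 1 f) {x : E3} (hx : ‖x‖ = 1) :
    2 * ∑ i, (∑ j, pd i (pd j f) x * pd j f x) * cofield f i x =
      (lap f x ^ 2 - hs2 f x) * (gr2 f x - f x ^ 2) := by
  have hx0 : x ≠ 0 := by
    rintro rfl
    simp at hx
  have hn := sum_sq_one hx
  have e : ∀ i, ∑ j, x j * pd j (pd i f) x = 0 := by
    intro i
    have := Helper80.CW.euler (hk.pd hs i) (hs.pd i) hx0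
    simpa using this
  have ef := Helper80.CW.euler hk hs hx0
  have e0 := e 0
  have e1 := e 1
  have e2 := e 2
  have s01 := pd_comm hs 1 0 hx0
  have s02 := pd_comm hs 2 0 hx0
  have s12 := pd_comm hs 2 1 hx0
  unfold cofield lap hs2 gr2
  simp only [Fin.sum_univ_three] at e0 e1 e2 ef ⊢
  push_cast at ef
  rw [one_mul] at ef
  rw [s01, s02] at e0
  rw [s12] at e1
  rw [s01, s02, s12]
  have := cayley_alg (a := pd 0 (pd 0 f) x) (b := pd 0 (pd 1 f) x) (d := pd 0 (pd 2 f) x)
    (g := pd 1 (pd 1 f) x) (k := pd 1 (pd 2 f) x) (m := pd 2 (pd 2 f) x) (x0 := x 0) (x1 := x 1)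
    (x2 := x 2) (p0 := pd 0 f x) (p1 := pd 1 f x) (p2 := pd 2 f x) (f := f x)
    e0 e1 e2 hn ef
  linear_combination this

/-- the third identity -/
theorem J3 {f : E3 → ℝ} (hs : Sm f) (hk : Hom 1 f) :
    SI (fun x => gr2 f x * (lap f x ^ 2 - hs2 f x)) +
      SI (fun x => (lap f x ^ 2 - hs2 f x) * (gr2 f x - f x ^ 2)) =
      SI (fun x => gr2 f x * (f x * lap f x)) := by
  have hg : Hom 0 (gr2 f) := by
    have := hk.gr2 hs
    norm_num at this
    exact this
  have hsW : ∀ i, Sm (fun x => gr2 f x * cofield f i x) := fun i => hs.gr2.mul (cofield_sm hs i)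
  have h := div_lemma (m := -1) (fun i x => gr2 f x * cofield f i x) hsW
    (fun i => by
      have := hg.mul (cofield_hom hs hk i)
      norm_num at this
      exact this)
  have e1 : SI (fun x => ∑ i, pd i (fun x => gr2 f x * cofield f i x) x) =
      SI (fun x => gr2 f x * (lap f x ^ 2 - hs2 f x) +
        (lap f x ^ 2 - hs2 f x) * (gr2 f x - f x ^ 2)) := by
    apply SI_congr
    intro x hx
    have hx0 : x ≠ 0 := by
      rintro rfl
      simp at hx
    have a1 : ∀ i, pd i (fun x => gr2 f x * cofield f i x) x =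
        2 * ((∑ j, pd i (pd j f) x * pd j f x) * cofield f i x) +
          gr2 f x * pd i (cofield f i) x := by
      intro i
      rw [pd_mul hs.gr2 (cofield_sm hs i) i hx0, pd_gr2 hs i hx0]
      ring
    simp only [a1]
    rw [Finset.sum_add_distrib, ← Finset.mul_sum, ← Finset.mul_sum, div_cofield hs hx0,
      cayley hs hk hx]
    ring
  have e2 : SI (fun x => ∑ i, x i * (gr2 f x * cofield f i x)) =
      SI (fun x => gr2 f x * (f x * lap f x)) := by
    apply SI_congr
    intro x hx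
    have hx0 : x ≠ 0 := by
      rintro rfl
      simp at hx
    have b1 := Helper80.CW.euler hk hs hx0
    push_cast at b1
    rw [one_mul] at b1
    have b2 : ∀ j, ∑ i, x i * pd i (pd j f) x = 0 := by
      intro j
      have := Helper80.CW.euler (hk.pd hs j) (hs.pd j) hx0
      simpa using this
    have b4 : ∑ i, x i * ∑ j, pd i (pd j f) x * pd j f x = 0 := by
      have b5 : ∑ i, x i * ∑ j, pd i (pd j f) x * pd j f x =
          ∑ j, (∑ i, x i * pd i (pd j f) x) * pd j f x := by
        simp only [Finset.mul_sum, Finset.sum_mul]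
        rw [Finset.sum_comm]
        apply Finset.sum_congr rfl
        intro i _
        apply Finset.sum_congr rfl
        intro j _
        ring
      rw [b5]
      simp only [b2]
      simp
    have b3 : ∑ i, x i * (gr2 f x * cofield f i x) =
        gr2 f x * (lap f x * (∑ i, x i * pd i f x) - ∑ i, x i * ∑ j, pd i (pd j f) x * pd j f x) := by
      unfold cofield
      rw [Finset.mul_sum, ← Finset.sum_sub_distrib, Finset.mul_sum]
      apply Finset.sum_congr rfl
      intro i _
      ring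
    rw [b3, b1, b4]
    ring
  have s1 : Sm (fun x => lap f x ^ 2 - hs2 f x) := (hs.lap.pow 2).sub hs.hs2
  rw [e1, e2, SI_add (hs.gr2.mul s1) (s1.mul (hs.gr2.sub (hs.pow 2)))] at h
  rw [h]
  push_cast
  ring

end Helper82.CW
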