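import Mathlib

/-!
# The pointwise inequality behind the volume bound

`Sr r = √(9 + 30 r + r²)`, `Bc r = 9 / (2 (Sr r + 6 + r))`, `Ac r = Bc r / Sr r`.
-/

namespace Helper82.CW

/-- `√(9 + 30 r + r²)` -/
noncomputable def Sr (r : ℝ) : ℝ := Real.sqrt (9 + 30 * r + r ^ 2)

/-- the multiplier `b` -/
noncomputable def Bc (r : ℝ) : ℝ := 9 / (2 * (Sr r + 6 + r))

/-- the multiplier `a` -/
noncomputable def Ac (r : ℝ) : ℝ := Bc r / Sr r

theorem Sr_sq {r : ℝ} (hr : 0 ≤ r) : Sr r ^ 2 = 9 + 30 * r + r ^ 2 :=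
  Real.sq_sqrt (by positivity)

theorem Sr_ge {r : ℝ} (hr : 0 ≤ r) : 3 ≤ Sr r := by
  apply Real.le_sqrt_of_sq_le
  nlinarith [sq_nonneg r]

theorem Bc_pos {r : ℝ} (hr : 0 ≤ r) : 0 < Bc r := by
  have := Sr_ge hr
  unfold Bc
  positivity

theorem Bc_eq {r : ℝ} (hr : 0 ≤ r) : Bc r * (Sr r + 6 + r) = 9 / 2 := by
  have := Sr_ge hr
  have h : Sr r + 6 + r ≠ 0 := by positivity
  unfold Bc
  field_simp

theorem Ac_eq {r : ℝ} (hr : 0 ≤ r) : Ac r * Sr r = Bc r := by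
  have := Sr_ge hr
  have h : Sr r ≠ 0 := by positivity
  unfold Ac
  field_simp

theorem Ac_pos {r : ℝ} (hr : 0 ≤ r) : 0 < Ac r := by
  have := Sr_ge hr
  exact div_pos (Bc_pos hr) (by linarith)

/-- the coefficient of the determinant is nonnegative -/
theorem kap_nonneg {r : ℝ} (hr : 0 ≤ r) : 0 ≤ 1 - 2 * Bc r - 4 * (Ac r * r) := by
  have hS := Sr_ge hr
  have hq := Sr_sq hr
  have hB := Bc_eq hr
  have hA := Ac_eq hr
  have ha := Ac_pos hr
  -- multiply by `S (S + 6 + r)`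
  have key : (3 - r) * Sr r ≤ 9 + 12 * r + r ^ 2 := by
    rcases le_total 3 r with h3 | h3
    · have : (3 - r) * Sr r ≤ 0 := mul_nonpos_of_nonpos_of_nonneg (by linarith) (by linarith)
      nlinarith [sq_nonneg r]
    · apply abs_le_of_sq_le_sq' _ (by positivity) |>.2
      nlinarith [sq_nonneg r, sq_nonneg (Sr r)]
  have e : (1 - 2 * Bc r - 4 * (Ac r * r)) * (Sr r * (Sr r + 6 + r)) =
      9 + 12 * r + r ^ 2 - (3 - r) * Sr r := by
    have e1 : Ac r * (Sr r * (Sr r + 6 + r)) = 9 / 2 := by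
      rw [← mul_assoc, hA, hB]
    have e2 : Bc r * (Sr r * (Sr r + 6 + r)) = 9 / 2 * Sr r := by
      rw [← hB]
      ring
    calc (1 - 2 * Bc r - 4 * (Ac r * r)) * (Sr r * (Sr r + 6 + r)) =
        Sr r ^ 2 + (6 + r) * Sr r - 2 * (Bc r * (Sr r * (Sr r + 6 + r))) -
          4 * r * (Ac r * (Sr r * (Sr r + 6 + r))) := by ring
      _ = _ := by rw [e1, e2, hq]; ring
  have hpos : 0 < Sr r * (Sr r + 6 + r) := by positivity
  by_contra hneg
  have : (1 - 2 * Bc r - 4 * (Ac r * r)) * (Sr r * (Sr r + 6 + r)) < 0 :=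
    mul_neg_of_neg_of_pos (not_le.1 hneg) hpos
  rw [e] at this
  linarith

/-- the perfect square at the umbilic state -/
theorem square_id {r : ℝ} (hr : 0 ≤ r) (g : ℝ) :
    1 / 2 - Bc r * (1 + g) - Ac r * (2 * r - (3 - r) * g - 9 / 2 * g ^ 2) =
      9 * Ac r / 2 * (g - (Sr r - 3 + r) / 9) ^ 2 := by
  have hq := Sr_sq hr
  have hB := Bc_eq hr
  have hA := Ac_eq hr
  have h1 : Ac r * Sr r ^ 2 = Bc r * Sr r := by rw [← hA]; ring
  rw [hq] at h1
  linear_combination (-1 / 9) * hB + (-1 / 9) * h1 + (-1 / 18) * Ac r * hq +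
    (g - r / 9 + 1 / 3) * hA

/-- **The pointwise inequality.** -/
theorem pointwise {r f Q t d : ℝ} (hr : 0 ≤ r) (hQ : 0 ≤ Q) (hfQ : |f| + Q ≤ r) (ht : |t| ≤ 1)
    (hd : |t| / 2 - 1 / 4 ≤ d) :
    -d + Ac r * (Q + f * t - 3 * f ^ 2) + Bc r * (2 * d - f * t) +
      Ac r * ((4 * Q - 2 * f ^ 2) * d - f * Q * t) ≤ 1 / 4 - Bc r / 2 := by
  have hA := Ac_eq hr
  have ha := Ac_pos hr
  have hb := Bc_pos hr
  have hS := Sr_ge hr
  have hk := kap_nonneg hr
  set a := Ac r with ha'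
  set b := Bc r with hb'
  set g := |f| with hg
  have hg0 : 0 ≤ g := abs_nonneg f
  have hg2 : f ^ 2 = g ^ 2 := (sq_abs f).symm
  set τ := |t| with hτ
  have hτ0 : 0 ≤ τ := abs_nonneg t
  have hab : a ≤ b := by nlinarith
  -- coefficient of `-d`
  have hκ : 0 ≤ 1 - 2 * b - a * (4 * Q - 2 * g ^ 2) := by
    have h1 : a * Q ≤ a * r := mul_le_mul_of_nonneg_left (by linarith) ha.le
    have h2 : 0 ≤ a * g ^ 2 := by positivity
    nlinarith
  have h1 : -(1 - 2 * b - a * (4 * Q - 2 * g ^ 2)) * d ≤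
      -(1 - 2 * b - a * (4 * Q - 2 * g ^ 2)) * (τ / 2 - 1 / 4) := by
    have := mul_le_mul_of_nonneg_left hd hκ
    linarith
  have h2 : t * f * (a - b - a * Q) ≤ τ * g * (b - a + a * Q) := by
    have h3 : |t * f| = τ * g := abs_mul t f
    have h4 : -(t * f) ≤ τ * g := by
      rw [← h3]
      exact neg_le_abs _
    have h5 : 0 ≤ b - a + a * Q := by
      have : 0 ≤ a * Q := mul_nonneg ha.le hQ
      linarith
    have := mul_le_mul_of_nonneg_right h4 h5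
    linarith
  have hsq := square_id hr g
  rw [← ha', ← hb'] at hsq
  have hsq0 : 0 ≤ 9 * a / 2 * (g - (Sr r - 3 + r) / 9) ^ 2 := by positivity
  -- state `τ = 1`
  have hone : b * (1 + g) + a * (2 * Q - g - 7 / 2 * g ^ 2 + g * Q) ≤ 1 / 2 := by
    have h6 : a * ((2 + g) * Q) ≤ a * ((2 + g) * (r - g)) :=
      mul_le_mul_of_nonneg_left (mul_le_mul_of_nonneg_left (by linarith) (by linarith)) ha.le
    nlinarith
  have hzero : 0 ≤ 5 / 2 * (a * g ^ 2) := by positivity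
  -- convex combination
  have hfin : (1 - τ) * (-(5 / 2 * (a * g ^ 2))) +
      τ * (b * (1 + g) + a * (2 * Q - g - 7 / 2 * g ^ 2 + g * Q) - 1 / 2) ≤ 0 := by
    have h7 : 0 ≤ (1 - τ) * (5 / 2 * (a * g ^ 2)) := mul_nonneg (by linarith) hzero
    have h8 : 0 ≤ τ * (1 / 2 - (b * (1 + g) + a * (2 * Q - g - 7 / 2 * g ^ 2 + g * Q))) :=
      mul_nonneg hτ0 (by linarith)
    linarith
  rw [hg2]
  have e : -d + a * (Q + f * t - 3 * g ^ 2) + b * (2 * d - f * t) +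
      a * ((4 * Q - 2 * g ^ 2) * d - f * Q * t) =
      -(1 - 2 * b - a * (4 * Q - 2 * g ^ 2)) * d + t * f * (a - b - a * Q) +
        a * (Q - 3 * g ^ 2) := by ring
  rw [e]
  nlinarith [h1, h2, hfin]

end Helper82.CW
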