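import Pool.Agent.Helper82.CW.J3
import Pool.Agent.Helper82.CW.Pt
import Pool.Agent.Helper80.CW.Smooth

/-!
# The lower bound for the mixed discriminant integral of a body of constant width in a ball
-/

namespace Helper82.CW

open Set Metric MeasureTheory Helper80.CW
open scoped ContDiff Topology RealInnerProductSpace Real

section
variable {f : E3 → ℝ} {c : ℝ}

/-- the volume integral through the odd part -/
theorem vol_id (h : SSup f c) :
    SI (fun x => f x * (lap f x ^ 2 - hs2 f x)) =
      3 * c / 2 * SI (fun x => lap (oddpart f c) x ^ 2 - hs2 (oddpart f c) x) + π * c ^ 3 := by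
  set G := oddpart f c with hG
  have hs := h.oddpart_sm
  have hh := h.oddpart_hom
  have ho := h.oddpart_odd
  rw [← hG] at hs hh ho
  have e1 : SI (fun x => f x * (lap f x ^ 2 - hs2 f x)) =
      SI (fun x => (G x * (lap G x ^ 2 - hs2 G x)) + (c * (G x * lap G x) + ((c ^ 2 / 2) * G x +
        ((c / 2) * (lap G x ^ 2 - hs2 G x) + ((c ^ 2 / 2) * lap G x + c ^ 3 / 4))))) := by
    apply SI_congr
    intro x hx
    have a1 := h.oddpart_lap hx
    have a2 := h.oddpart_hs2 hx
    rw [← hG] at a1 a2
    have a3 : f x = G x + c / 2 := by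
      rw [hG]
      unfold oddpart
      rw [hx]
      ring
    have a4 : lap f x = lap G x + c := by linarith
    have a5 : hs2 f x = hs2 G x + c * lap f x - c ^ 2 / 2 := by linarith
    rw [a5, a4, a3]
    ring
  have s1 : Sm (fun x => lap G x ^ 2 - hs2 G x) := (hs.lap.pow 2).sub hs.hs2
  have s2 : Sm (fun x => G x * (lap G x ^ 2 - hs2 G x)) := hs.mul s1
  have s3 : Sm (fun x => c * (G x * lap G x)) := (Sm.const _).mul (hs.mul hs.lap)
  have s4 : Sm (fun x => (c ^ 2 / 2) * G x) := (Sm.const _).mul hs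
  have s5 : Sm (fun x => (c / 2) * (lap G x ^ 2 - hs2 G x)) := (Sm.const _).mul s1
  have s6 : Sm (fun x => (c ^ 2 / 2) * lap G x) := (Sm.const _).mul hs.lap
  have s7 : Sm (fun _ => c ^ 3 / 4) := Sm.const _
  rw [e1, SI_add s2 (s3.add (s4.add (s5.add (s6.add s7)))), SI_add s3 (s4.add (s5.add (s6.add s7))),
    SI_add s4 (s5.add (s6.add s7)), SI_add s5 (s6.add s7), SI_add s6 s7, SI_const_mul, SI_const_mul,
    SI_const_mul, SI_const_mul, SI_const]
  have odd_pd2 : ∀ (i j : Fin 3) (x : E3), x ≠ 0 → pd j (pd i G) (-x) = - pd j (pd i G) x := by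
    intro i j x hx
    rw [← pd_pd_comp_neg hs i j hx]
    have : (fun y => G (-y)) = fun y => (-1) * G y := by
      ext y
      rw [ho y]
      ring
    rw [this, pd_congr (fun y hy => pd_const_mul (-1) hs i hy) j hx,
      pd_const_mul (-1) (hs.pd i) j hx]
    ring
  have z1 : SI G = 0 := SI_odd hh ho
  have z2 : SI (lap G) = 0 := by
    have hk : Hom (-1) (fun x => if x = 0 then 0 else lap G x) := by
      intro r hr x hx
      simp only [hx, smul_eq_zero, hr.ne', or_self, if_false]
      have := hh.lap hs r hr x hx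
      norm_num at this ⊢
      exact this
    have := SI_odd hk (by
      intro x
      by_cases hx : x = 0
      · simp [hx]
      · simp only [neg_eq_zero, hx, if_false]
        unfold lap
        rw [← Finset.sum_neg_distrib]
        exact Finset.sum_congr rfl (fun i _ => odd_pd2 i i x hx))
    rw [← this]
    apply SI_congr
    intro x hx
    have hx0 : x ≠ 0 := by
      rintro rfl
      simp at hx
    simp [hx0]
  have z3 : SI (fun x => G x * (lap G x ^ 2 - hs2 G x)) = 0 := by
    have h0 : Hom (-1) (fun x => G x * (lap G x ^ 2 - hs2 G x)) := by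
      have a := (hh.lap hs).sq
      have b := hh.hs2 hs
      norm_num at a b
      have := hh.mul (a.sub b)
      norm_num at this
      exact this
    have hk : Hom (-1) (fun x => if x = 0 then 0 else G x * (lap G x ^ 2 - hs2 G x)) := by
      intro r hr x hx
      simp only [hx, smul_eq_zero, hr.ne', or_self, if_false]
      exact h0 r hr x hx
    have := SI_odd hk (by
      intro x
      by_cases hx : x = 0
      · simp [hx]
      · simp only [neg_eq_zero, hx, if_false]
        have b1 : lap G (-x) = - lap G x := by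
          unfold lap
          rw [← Finset.sum_neg_distrib]
          exact Finset.sum_congr rfl (fun i _ => odd_pd2 i i x hx)
        have b2 : hs2 G (-x) = hs2 G x := by
          unfold hs2
          apply Finset.sum_congr rfl
          intro i _
          apply Finset.sum_congr rfl
          intro j _
          rw [odd_pd2 i j x hx]
          ring
        rw [b1, b2, ho x]
        ring)
    rw [← this]
    apply SI_congr
    intro x hx
    have hx0 : x ≠ 0 := by
      rintro rfl
      simp at hx
    simp [hx0]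
  rw [z1, z2, z3]
  have ei := energy_id hs hh
  rw [← SI_sub (hs.lap.pow 2) hs.hs2] at ei
  rw [← ei]
  ring

/-- gradient of the odd part at a unit vector -/
theorem oddpart_pd (h : SSup f c) {x : E3} (hx : ‖x‖ = 1) (i : Fin 3) :
    pd i (oddpart f c) x = pd i f x - c / 2 * x i := by
  have hx0 : x ≠ 0 := by
    rintro rfl
    simp at hx
  have hcn : Sm (fun x => c / 2 * ‖x‖) := (Sm.const _).mul Sm.norm
  unfold oddpart
  rw [pd_sub h.sm hcn i hx0, pd_const_mul (c / 2) Sm.norm i hx0, pd_norm i hx0, hx]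
  simp

/-- squared gradient of the odd part -/
theorem oddpart_gr2 (h : SSup f c) {x : E3} (hx : ‖x‖ = 1) :
    gr2 f x = gr2 (oddpart f c) x + c * oddpart f c x + c ^ 2 / 4 := by
  have hx0 : x ≠ 0 := by
    rintro rfl
    simp at hx
  have hn := sum_sq_one hx
  have he := h.euler hx0
  have hG : oddpart f c x = f x - c / 2 := by
    unfold oddpart
    rw [hx]
    ring
  rw [hG]
  unfold gr2
  simp only [oddpart_pd h hx, Fin.sum_univ_three] at he ⊢
  linear_combination c * he + (-(c ^ 2 / 4)) * hn

/-- the gradient bound -/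
theorem gr2_le (h : SSup f c) {R : ℝ} (hR : 0 ≤ R) (hb : ∀ x, f x ≤ R * ‖x‖) {x : E3}
    (hx : x ≠ 0) : gr2 f x ≤ R ^ 2 := by
  have h1 := h.subgrad hx (WithLp.toLp 2 (fun i => pd i f x))
  have h2 := hb (WithLp.toLp 2 (fun i => pd i f x))
  have h3 : ‖(WithLp.toLp 2 (fun i => pd i f x) : E3)‖ ^ 2 = gr2 f x := by
    rw [norm_sq_eq]
    rfl
  have h4 : ∑ i, (WithLp.toLp 2 (fun i => pd i f x) : E3) i * pd i f x = gr2 f x := by
    unfold gr2
    apply Finset.sum_congr rfl
    intro i _
    show pd i f x * pd i f x = _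
    ring
  rw [h4, ← h3] at h1
  set n := ‖(WithLp.toLp 2 (fun i => pd i f x) : E3)‖ with hn
  have hn0 : 0 ≤ n := norm_nonneg _
  have h5 : n ^ 2 ≤ R * n := h1.trans h2
  have h6 : n ≤ R := by
    rcases eq_or_lt_of_le hn0 with h7 | h7
    · rw [← h7]
      exact hR
    · nlinarith
  rw [← h3]
  exact pow_le_pow_left₀ hn0 h6 2

/-- squared gradient of the odd part at the antipode -/
theorem oddpart_gr2_neg (h : SSup f c) {x : E3} (hx : ‖x‖ = 1) :
    gr2 (oddpart f c) (-x) = gr2 (oddpart f c) x := by
  have hx0 : x ≠ 0 := by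
    rintro rfl
    simp at hx
  have hs := h.oddpart_sm
  have ho := h.oddpart_odd
  unfold gr2
  apply Finset.sum_congr rfl
  intro i _
  have h1 := pd_comp_neg hs i hx0
  have h2 : (fun y => oddpart f c (-y)) = fun y => (-1) * oddpart f c y := by
    ext y
    rw [ho y]
    ring
  rw [h2, pd_const_mul (-1) hs i hx0] at h1
  have h3 : pd i (oddpart f c) (-x) = pd i (oddpart f c) x := by linarith
  rw [h3]

/-- the circumscribed ball bounds the midpoint of the diameter -/
theorem ball_bound (h : SSup f c) {R : ℝ} (hR : 0 ≤ R) (hb : ∀ x, f x ≤ R * ‖x‖) {x : E3}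
    (hx : ‖x‖ = 1) :
    gr2 (oddpart f c) x + c * |oddpart f c x| ≤ R ^ 2 - c ^ 2 / 4 := by
  have hx0 : x ≠ 0 := by
    rintro rfl
    simp at hx
  have hx1 : -x ≠ 0 := neg_ne_zero.2 hx0
  have a1 := oddpart_gr2 h hx
  have a2 := oddpart_gr2 h (x := -x) (by rw [norm_neg, hx])
  rw [oddpart_gr2_neg h hx, h.oddpart_odd] at a2
  have b1 := gr2_le h hR hb hx0
  have b2 := gr2_le h hR hb hx1
  rcases abs_cases (oddpart f c x) with ⟨h1, _⟩ | ⟨h1, _⟩
  · rw [h1]
    linarith
  · rw [h1]
    linarith

/-- second elementary symmetric function of the Hessian is nonnegative -/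
theorem sig_nonneg (h : SSup f c) {x : E3} (hx : x ≠ 0) : 0 ≤ lap f x ^ 2 - hs2 f x := by
  have s : ∀ i j, pd j (pd i f) x = pd i (pd j f) x := h.symm hx
  have p : ∀ i j : Fin 3, i ≠ j →
      0 ≤ pd i (pd i f) x * pd j (pd j f) x - pd j (pd i f) x ^ 2 := by
    intro i j hij
    have q : ∀ t u : ℝ, 0 ≤ t ^ 2 * pd i (pd i f) x + 2 * t * u * pd j (pd i f) x +
        u ^ 2 * pd j (pd j f) x := by
      intro t u
      have h1 := h.psd hx (t • e i + u • e j)
      have h2 : ∑ k, ∑ l, (t • e i + u • e j) k * (t • e i + u • e j) l * pd l (pd k f) x =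
          t ^ 2 * pd i (pd i f) x + 2 * t * u * pd j (pd i f) x + u ^ 2 * pd j (pd j f) x := by
        have s1 := s i j
        simp only [Fin.sum_univ_three]
        fin_cases i <;> fin_cases j <;> first | exact absurd rfl hij | skip
        all_goals simp [e] at s1 ⊢
        all_goals first | linear_combination (t * u) * s1 | linear_combination (-(t * u)) * s1
      rw [h2] at h1
      exact h1
    have h3 := q (pd j (pd j f) x) (-(pd j (pd i f) x))
    have h4 : 0 ≤ pd j (pd j f) x := by
      have := q 0 1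
      nlinarith
    rcases eq_or_lt_of_le h4 with h5 | h5
    · -- degenerate case
      have h6 : pd j (pd i f) x = 0 := by
        by_contra hne
        have h7 := q 1 (-(pd i (pd i f) x + 1) / (2 * pd j (pd i f) x))
        rw [← h5] at h7
        have h8 : 2 * 1 * (-(pd i (pd i f) x + 1) / (2 * pd j (pd i f) x)) * pd j (pd i f) x =
            -(pd i (pd i f) x + 1) := by
          field_simp
        rw [h8] at h7
        linarith
      rw [← h5, h6]
      simp
    · by_contra hneg
      have : pd j (pd j f) x * (pd i (pd i f) x * pd j (pd j f) x - pd j (pd i f) x ^ 2) < 0 :=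
        mul_neg_of_pos_of_neg h5 (not_le.1 hneg)
      nlinarith
  have p01 := p 0 1 (by decide)
  have p02 := p 0 2 (by decide)
  have p12 := p 1 2 (by decide)
  unfold lap hs2
  simp only [Fin.sum_univ_three]
  rw [s 1 0, s 2 0, s 2 1] at *
  nlinarith

theorem lap_nonneg (h : SSup f c) {x : E3} (hx : x ≠ 0) : 0 ≤ lap f x := by
  unfold lap
  apply Finset.sum_nonneg
  intro i _
  have h1 := h.psd hx (e i)
  have h2 : ∑ k, ∑ l, e i k * e i l * pd l (pd k f) x = pd i (pd i f) x := by
    simp only [Fin.sum_univ_three]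
    fin_cases i <;> simp [e]
  rw [h2] at h1
  exact h1

/-- odd part at the antipode: Laplacian -/
theorem oddpart_lap_neg (h : SSup f c) {x : E3} (hx : x ≠ 0) :
    lap (oddpart f c) (-x) = - lap (oddpart f c) x ∧ hs2 (oddpart f c) (-x) = hs2 (oddpart f c) x := by
  have hs := h.oddpart_sm
  have ho := h.oddpart_odd
  have odd_pd2 : ∀ (i j : Fin 3),
      pd j (pd i (oddpart f c)) (-x) = - pd j (pd i (oddpart f c)) x := by
    intro i j
    rw [← pd_pd_comp_neg hs i j hx]
    have : (fun y => oddpart f c (-y)) = fun y => (-1) * oddpart f c y := by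
      ext y
      rw [ho y]
      ring
    rw [this, pd_congr (fun y hy => pd_const_mul (-1) hs i hy) j hx,
      pd_const_mul (-1) (hs.pd i) j hx]
    ring
  constructor
  · unfold lap
    rw [← Finset.sum_neg_distrib]
    exact Finset.sum_congr rfl (fun i _ => odd_pd2 i i)
  · unfold hs2
    apply Finset.sum_congr rfl
    intro i _
    apply Finset.sum_congr rfl
    intro j _
    rw [odd_pd2 i j]
    ring

/-- eigenvalue bounds for the odd part: trace and determinant -/
theorem hess_bounds (h : SSup f c) {x : E3} (hx : ‖x‖ = 1) :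
    |lap (oddpart f c) x| ≤ c ∧
      c * |lap (oddpart f c) x| - c ^ 2 / 2 ≤
        lap (oddpart f c) x ^ 2 - hs2 (oddpart f c) x := by
  have hx0 : x ≠ 0 := by
    rintro rfl
    simp at hx
  have hx1 : -x ≠ 0 := neg_ne_zero.2 hx0
  have hxn : ‖-x‖ = 1 := by rw [norm_neg, hx]
  have a1 := h.oddpart_lap hx
  have a2 := h.oddpart_hs2 hx
  have b1 := h.oddpart_lap hxn
  have b2 := h.oddpart_hs2 hxn
  obtain ⟨o1, o2⟩ := oddpart_lap_neg h hx0
  rw [o1] at b1
  rw [o2] at b2
  have l1 := lap_nonneg h hx0
  have l2 := lap_nonneg h hx1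
  have g1 := sig_nonneg h hx0
  have g2 := sig_nonneg h hx1
  have c1 : lap f x = lap (oddpart f c) x + c := by linarith
  have c2 : lap f (-x) = - lap (oddpart f c) x + c := by linarith
  have d1 : hs2 f x = hs2 (oddpart f c) x + c * lap f x - c ^ 2 / 2 := by linarith
  have d2 : hs2 f (-x) = hs2 (oddpart f c) x + c * lap f (-x) - c ^ 2 / 2 := by linarith
  rw [d1, c1] at g1
  rw [d2, c2] at g2
  rw [c1] at l1
  rw [c2] at l2
  constructor
  · rw [abs_le]
    constructor <;> linarith
  · rcases abs_cases (lap (oddpart f c) x) with ⟨h1, _⟩ | ⟨h1, _⟩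
    · rw [h1]
      nlinarith
    · rw [h1]
      nlinarith

/-- the scaled pointwise inequality -/
theorem pointwise_c {r f Q t D c : ℝ} (hc : 0 < c) (hr : 0 ≤ r) (hQ : 0 ≤ Q)
    (hfQ : Q + c * |f| ≤ c ^ 2 * r) (ht : |t| ≤ c) (hd : c * |t| - c ^ 2 / 2 ≤ D) :
    -(D / 2) + Ac r * (Q + f * t - 3 * f ^ 2) + Bc r * (D - f * t) +
      Ac r / c ^ 2 * ((2 * Q - f ^ 2) * D - f * Q * t) ≤ c ^ 2 * (1 / 4 - Bc r / 2) := by
  have hc2 : 0 < c ^ 2 := by positivity
  have h := pointwise (r := r) (f := f / c) (Q := Q / c ^ 2) (t := t / c) (d := D / (2 * c ^ 2)) hr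
    (by positivity)
    (by
      rw [abs_div, abs_of_pos hc]
      have : |f| / c + Q / c ^ 2 = (Q + c * |f|) / c ^ 2 := by
        field_simp
        ring
      rw [this, div_le_iff₀ hc2]
      linarith)
    (by
      rw [abs_div, abs_of_pos hc, div_le_one hc]
      exact ht)
    (by
      rw [abs_div, abs_of_pos hc]
      have : |t| / c / 2 - 1 / 4 = (c * |t| - c ^ 2 / 2) / (2 * c ^ 2) := by
        field_simp
        ring
      rw [this]
      exact div_le_div_of_nonneg_right hd (by positivity))
  have h2 := mul_le_mul_of_nonneg_left h hc2.le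
  refine le_trans (le_of_eq ?_) h2
  field_simp
  ring

/-- lower bound for the mixed discriminant integral -/
theorem sig_lower (h : SSup f c) {R r : ℝ} (hR : 0 ≤ R) (hb : ∀ x, f x ≤ R * ‖x‖) (hr : 0 ≤ r)
    (hRr : R ^ 2 - c ^ 2 / 4 ≤ c ^ 2 * r) :
    -(2 * π * c ^ 2 * (1 - 2 * Bc r)) ≤
      SI (fun x => lap (oddpart f c) x ^ 2 - hs2 (oddpart f c) x) := by
  have hc := h.cpos
  set G := oddpart f c with hG
  have hs := h.oddpart_sm
  have hh := h.oddpart_hom
  rw [← hG] at hs hh
  have s1 : Sm (fun x => lap G x ^ 2 - hs2 G x) := (hs.lap.pow 2).sub hs.hs2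
  have j1 := J1 hs hh
  have j2 := energy_id hs hh
  have j3 := J3 hs hh
  rw [← SI_sub (hs.lap.pow 2) hs.hs2] at j2
  push_cast at j1
  -- the integrand
  set A := Ac r with hA
  set B := Bc r with hB
  have sQ : Sm (gr2 G) := hs.gr2
  have sGl : Sm (fun x => G x * lap G x) := hs.mul hs.lap
  have sG2 : Sm (fun x => G x ^ 2) := hs.pow 2
  have sQs : Sm (fun x => gr2 G x * (lap G x ^ 2 - hs2 G x)) := sQ.mul s1
  have sSs : Sm (fun x => (lap G x ^ 2 - hs2 G x) * (gr2 G x - G x ^ 2)) := s1.mul (sQ.sub sG2)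
  have sQl : Sm (fun x => gr2 G x * (G x * lap G x)) := sQ.mul sGl
  have key : SI (fun x => (-(1 / 2)) * (lap G x ^ 2 - hs2 G x) +
      (A * (gr2 G x) + (A * (G x * lap G x) + ((-(3 * A)) * (G x ^ 2) +
        (B * (lap G x ^ 2 - hs2 G x) + ((-B) * (G x * lap G x) +
          (A / c ^ 2 * (gr2 G x * (lap G x ^ 2 - hs2 G x)) +
            (A / c ^ 2 * ((lap G x ^ 2 - hs2 G x) * (gr2 G x - G x ^ 2)) +
              (-(A / c ^ 2)) * (gr2 G x * (G x * lap G x)))))))))) ≤
      SI (fun _ => c ^ 2 * (1 / 4 - B / 2)) := by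
    apply SI_mono
    · exact ((Sm.const _).mul s1).add (((Sm.const _).mul sQ).add (((Sm.const _).mul sGl).add
        (((Sm.const _).mul sG2).add (((Sm.const _).mul s1).add (((Sm.const _).mul sGl).add
          (((Sm.const _).mul sQs).add (((Sm.const _).mul sSs).add ((Sm.const _).mul sQl))))))))
    · exact Sm.const _
    · intro x hx
      obtain ⟨b1, b2⟩ := hess_bounds h hx
      have b3 := ball_bound h hR hb hx
      rw [← hG] at b1 b2 b3
      have b4 : 0 ≤ gr2 G x := by
        unfold gr2
        positivity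
      have := pointwise_c (r := r) (f := G x) (Q := gr2 G x) (t := lap G x)
        (D := lap G x ^ 2 - hs2 G x) hc hr b4 (by linarith) b1 b2
      rw [← hA, ← hB] at this
      refine le_trans (le_of_eq ?_) this
      ring
  rw [SI_const] at key
  rw [SI_add ((Sm.const _).mul s1) (((Sm.const _).mul sQ).add (((Sm.const _).mul sGl).add
        (((Sm.const _).mul sG2).add (((Sm.const _).mul s1).add (((Sm.const _).mul sGl).add
          (((Sm.const _).mul sQs).add (((Sm.const _).mul sSs).add ((Sm.const _).mul sQl)))))))),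
    SI_add ((Sm.const _).mul sQ) (((Sm.const _).mul sGl).add
        (((Sm.const _).mul sG2).add (((Sm.const _).mul s1).add (((Sm.const _).mul sGl).add
          (((Sm.const _).mul sQs).add (((Sm.const _).mul sSs).add ((Sm.const _).mul sQl))))))),
    SI_add ((Sm.const _).mul sGl)
        (((Sm.const _).mul sG2).add (((Sm.const _).mul s1).add (((Sm.const _).mul sGl).add
          (((Sm.const _).mul sQs).add (((Sm.const _).mul sSs).add ((Sm.const _).mul sQl)))))),
    SI_add ((Sm.const _).mul sG2) (((Sm.const _).mul s1).add (((Sm.const _).mul sGl).add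
          (((Sm.const _).mul sQs).add (((Sm.const _).mul sSs).add ((Sm.const _).mul sQl))))),
    SI_add ((Sm.const _).mul s1) (((Sm.const _).mul sGl).add
          (((Sm.const _).mul sQs).add (((Sm.const _).mul sSs).add ((Sm.const _).mul sQl)))),
    SI_add ((Sm.const _).mul sGl)
          (((Sm.const _).mul sQs).add (((Sm.const _).mul sSs).add ((Sm.const _).mul sQl))),
    SI_add ((Sm.const _).mul sQs) (((Sm.const _).mul sSs).add ((Sm.const _).mul sQl)),
    SI_add ((Sm.const _).mul sSs) ((Sm.const _).mul sQl)] at key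
  simp only [SI_const_mul] at key
  have j3' := congrArg (fun z => A / c ^ 2 * z) j3
  beta_reduce at j3'
  have j1' := congrArg (fun z => A * z) j1
  beta_reduce at j1'
  have j2' := congrArg (fun z => B * z) j2
  beta_reduce at j2'
  nlinarith [key, j3', j1', j2']

/-- the volume integral of a body of constant width in a ball -/
theorem vol_lower (h : SSup f c) {R r : ℝ} (hR : 0 ≤ R) (hb : ∀ x, f x ≤ R * ‖x‖) (hr : 0 ≤ r)
    (hRr : R ^ 2 - c ^ 2 / 4 ≤ c ^ 2 * r) :
    6 * (π * c ^ 3 * (Bc r - 1 / 3)) ≤ SI (fun x => f x * (lap f x ^ 2 - hs2 f x)) := by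
  have h1 := sig_lower h hR hb hr hRr
  have hc := h.cpos
  rw [vol_id h]
  have h2 := mul_le_mul_of_nonneg_left h1 (show 0 ≤ 3 * c / 2 by positivity)
  refine le_trans (le_of_eq ?_) (add_le_add_left h2 _)
  ring

end

end Helper82.CW
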