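import Pool.Agent.Helper82.CW.TST
import Pool.Agent.Helper62.C75.TVM

/-!
Plan W (MP_c75db0), row M6, part 2: models of `N^* K N` for the letter `2`, for the matrices of
the runs, for diagonal unitary matrices and for general matrices.
-/

set_option autoImplicit false
noncomputable section
namespace Pool.Agent.Helper82.TST

open Matrix
open Pool.Agent.Helper90.C75
open Pool.Agent.Helper90.KMT
open Pool.Agent.Helper90.KMO (UU UU_pos UUc_ne norm_UU zv zv_sub zv_mul zv_add zv_p cz andB_t)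
open Pool.Agent.Helper86.C75 (Z H3)
open Pool.Agent.Helper86.CX (Cx andB)
open Pool.Agent.Helper86.CT (N3 Alg Mo KM addM subM mulM conjM cst)
open Pool.Agent.Helper62.TVM
open Pool.Agent.Helper17.K9 (V9)
open Pool.Agent.Helper6.MONO
open Pool.Agent.Helper6.MONO.W2

/-! ### the kernel side -/

/-- `K s` -/
def kqW {α : Type} (A : Alg α) (K : KM α) (s : V3m α) : V3m α :=
  ⟨dot3 A K.a K.x K.y s.a s.b s.c, dot3 A (conjM A K.x) K.b K.w s.a s.b s.c,
    dot3 A (conjM A K.y) (conjM A K.w) K.c s.a s.b s.c⟩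
/-- `J s` -/
def jsW {α : Type} (A : Alg α) (s : V3m α) : V3m α := ⟨s.a, s.b, negM A s.c⟩
/-- `s K`, `s` real -/
def smK {α : Type} (A : Alg α) (s : Mo α) (K : KM α) : KM α :=
  ⟨mulM A s K.a, mulM A s K.b, mulM A s K.c, mulM A s K.x, mulM A s K.y, mulM A s K.w⟩
/-- `C - (r p^* + p r^*)` -/
def upK {α : Type} (A : Alg α) (C : KM α) (r p : V3m α) : KM α :=
  ⟨subM A C.a (re2M A (mulM A r.a (conjM A p.a))), subM A C.b (re2M A (mulM A r.b (conjM A p.b))),
    subM A C.c (re2M A (mulM A r.c (conjM A p.c))),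
    subM A C.x (addM A (mulM A r.a (conjM A p.b)) (mulM A p.a (conjM A r.b))),
    subM A C.y (addM A (mulM A r.a (conjM A p.c)) (mulM A p.a (conjM A r.c))),
    subM A C.w (addM A (mulM A r.b (conjM A p.c)) (mulM A p.b (conjM A r.c)))⟩
/-- the real number `s^* q / 2` -/
def hkM {α : Type} (A : Alg α) (s q : V3m α) : Mo α := hfM A (dtW A (cjW A s) q)
def cg3 {α : Type} (A : Alg α) (K : KM α) (q p : V3m α) (h : Mo α) : KM α :=
  upK A K (subW A q (smW A h p)) p
def cg2 {α : Type} (A : Alg α) (K : KM α) (s q : V3m α) : KM α := cg3 A K q (jsW A s) (hkM A s q)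
/-- `c^* K c` for the letter `c` with the polar vector `s` -/
def cgK {α : Type} (A : Alg α) (K : KM α) (s : V3m α) : KM α := cg2 A K s (kqW A K s)
def rg3 {α : Type} (A : Alg α) (c0 : Mo α) (K : KM α) (q p : V3m α) (h : Mo α) : KM α :=
  upK A (smK A (mulM A c0 c0) K) (subW A (smW A c0 q) (smW A h p)) p
def rg2 {α : Type} (A : Alg α) (c0 : Mo α) (K : KM α) (s q : V3m α) : KM α :=
  rg3 A c0 K q (jsW A s) (hkM A s q)
/-- `R^* K R`, `R = s s^* J - c0` -/
def rgK {α : Type} (A : Alg α) (c0 : Mo α) (K : KM α) (s : V3m α) : KM α :=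
  rg2 A c0 K s (kqW A K s)
/-- `D^* K D`, `D = diag (d0, d1, 1)`: `g0 = conj d0`, `g1 = conj d1`, `g = conj d0 d1` -/
def dgK {α : Type} (A : Alg α) (g0 g1 g : Mo α) (K : KM α) : KM α :=
  ⟨K.a, K.b, K.c, mulM A g K.x, mulM A g0 K.y, mulM A g1 K.w⟩
/-- the three columns of `K N` -/
def kn1 {α : Type} (A : Alg α) (V : V9 α) (x y z : V3m α) : KM α :=
  ⟨dot3 A (conjM A V.a) (conjM A V.d) (conjM A V.g) x.a x.b x.c,
    dot3 A (conjM A V.b) (conjM A V.e) (conjM A V.h) y.a y.b y.c,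
    dot3 A (conjM A V.c) (conjM A V.f) (conjM A V.i) z.a z.b z.c,
    dot3 A (conjM A V.a) (conjM A V.d) (conjM A V.g) y.a y.b y.c,
    dot3 A (conjM A V.a) (conjM A V.d) (conjM A V.g) z.a z.b z.c,
    dot3 A (conjM A V.b) (conjM A V.e) (conjM A V.h) z.a z.b z.c⟩
/-- `N^* K N` -/
def cg9 {α : Type} (A : Alg α) (V : V9 α) (K : KM α) : KM α :=
  kn1 A V (kqW A K ⟨V.a, V.d, V.g⟩) (kqW A K ⟨V.b, V.e, V.h⟩) (kqW A K ⟨V.c, V.f, V.i⟩)
/-- the form `y -> |y^* J l|^2` -/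
def llK {α : Type} (A : Alg α) (l : V3m α) : KM α :=
  ⟨nsqM A l.a, nsqM A l.b, nsqM A l.c, mulM A l.a (conjM A l.b),
    negM A (mulM A l.a (conjM A l.c)), negM A (mulM A l.b (conjM A l.c))⟩

/-! ### the real side -/

/-- `s s^* J - c0` -/
def Rk (s : V3) (c0 : ℝ) : Mt :=
  Matrix.of (fun i j => s i * ![star (s 0), star (s 1), -star (s 2)] j) - ((c0 : ℝ) : ℂ) • 1

theorem rfJ_Rk (v : V3) : rfJ 1 v = -Rk v 1 := by
  ext i j
  fin_cases j <;> simp [rfJ, Rk]

theorem nR_Rk (w ρ : ℝ) (s v : V3) :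
    nR w ρ s v = Rk (fun i => s i - ρ * v i) (w + ρ ^ 2 - w * ρ) := rfl

theorem hv_cong (K N : Mt) (u : V3) : hv (Nᴴ * K * N) u = hv K (N.mulVec u) := by
  have e : ∀ (M : Mt) (v : V3), hv M v = star v ⬝ᵥ M.mulVec v := by
    intro M v
    simp only [hv, dotProduct, Matrix.mulVec, Fin.sum_univ_three, Pi.star_apply]
    ring
  rw [e, e, ← Matrix.mulVec_mulVec, ← Matrix.mulVec_mulVec, Matrix.star_mulVec,
    Matrix.dotProduct_mulVec (star u ᵥ* Nᴴ)]
  rw [Matrix.dotProduct_mulVec (star u), Matrix.dotProduct_mulVec]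

theorem hr_cong (K N : Mt) (u : V3) : hr (Nᴴ * K * N) u = hr K (N.mulVec u) := by
  unfold hr
  rw [hv_cong]

theorem hm_cong {K : Mt} (hm : ∀ i j, K j i = star (K i j)) (N : Mt) (i j : Fin 3) :
    (Nᴴ * K * N) j i = star ((Nᴴ * K * N) i j) := by
  have e : (Nᴴ * K * N)ᴴ = Nᴴ * K * N := by
    have hK : Kᴴ = K := by
      ext a b
      rw [Matrix.conjTranspose_apply]
      exact (hm b a).symm
    rw [Matrix.conjTranspose_mul, Matrix.conjTranspose_mul, Matrix.conjTranspose_conjTranspose, hK,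
      Matrix.mul_assoc]
  calc (Nᴴ * K * N) j i = ((Nᴴ * K * N)ᴴ) j i := by rw [e]
    _ = star ((Nᴴ * K * N) i j) := Matrix.conjTranspose_apply _ _ _

theorem hr_neg_vec (K : Mt) (u : V3) : hr K (-u) = hr K u := by
  unfold hr hv
  simp only [Fin.sum_univ_three, Pi.neg_apply, star_neg]
  congr 1
  ring

section

variable {α : Type} {D : ℕ} {lf : α → Vt D → ℂ} {A : Alg α} {t : ℕ → ℝ}

theorem HK.congr {K F : Mt} {M : KM α} (h : HK D lf t K M) (e : K = F) : HK D lf t F M := e ▸ h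

theorem HK.sm (hA : AOK D lf A) (hP : PT D t) {K : Mt} {M : KM α} (h : HK D lf t K M) {s : ℝ}
    {S : Mo α} (hs : TOK D lf t (s : ℂ) S) : HK D lf t ((s : ℂ) • K) (smK A S M) := by
  refine ⟨hs.mul hA hP h.a, hs.mul hA hP h.b, hs.mul hA hP h.c, hs.mul hA hP h.x,
    hs.mul hA hP h.y, hs.mul hA hP h.w, fun i j => ?_⟩
  show (s : ℂ) * K j i = star ((s : ℂ) * K i j)
  rw [star_mul', h.hm i j]
  congr 1
  exact (Complex.conj_ofReal s).symm

/-- `K s` -/
theorem HK.kq (hA : AOK D lf A) (hP : PT D t) {K : Mt} {M : KM α} (h : HK D lf t K M) {s : V3}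
    {S : V3m α} (hs : TW D lf t s S) : TW D lf t (K.mulVec s) (kqW A M S) := by
  have e : ∀ i, K i 0 * s 0 + K i 1 * s 1 + K i 2 * s 2 = K.mulVec s i := by
    intro i
    rw [Matrix.mulVec, dotProduct, Fin.sum_univ_three]
  have h10 : TOK D lf t (K 1 0) (conjM A M.x) := tc (h.x.conj hA) (h.hm 0 1).symm
  have h20 : TOK D lf t (K 2 0) (conjM A M.y) := tc (h.y.conj hA) (h.hm 0 2).symm
  have h21 : TOK D lf t (K 2 1) (conjM A M.w) := tc (h.w.conj hA) (h.hm 1 2).symm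
  exact ⟨tc (TOK_dot3 hA hP h.a h.x h.y hs.a hs.b hs.c) (e 0),
    tc (TOK_dot3 hA hP h10 h.b h.w hs.a hs.b hs.c) (e 1),
    tc (TOK_dot3 hA hP h20 h21 h.c hs.a hs.b hs.c) (e 2)⟩

/-- `C - (r p^* + p r^*)` -/
theorem HK.up (hA : AOK D lf A) (hP : PT D t) {C : Mt} {M : KM α} (h : HK D lf t C M) {r p : V3}
    {R P : V3m α} (hr : TW D lf t r R) (hp : TW D lf t p P) :
    HK D lf t (Matrix.of fun i j => C i j - (r i * star (p j) + p i * star (r j)))
      (upK A M R P) := by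
  have hre : ∀ {z : ℂ} {Y : Mo α}, TOK D lf t z Y → TOK D lf t (z + star z) (re2M A Y) :=
    fun hz => hz.add hA (hz.conj hA)
  refine ⟨h.a.sub hA (tc (hre (hr.a.mul hA hP (hp.a.conj hA))) ?_),
    h.b.sub hA (tc (hre (hr.b.mul hA hP (hp.b.conj hA))) ?_),
    h.c.sub hA (tc (hre (hr.c.mul hA hP (hp.c.conj hA))) ?_),
    h.x.sub hA ((hr.a.mul hA hP (hp.b.conj hA)).add hA (hp.a.mul hA hP (hr.b.conj hA))),
    h.y.sub hA ((hr.a.mul hA hP (hp.c.conj hA)).add hA (hp.a.mul hA hP (hr.c.conj hA))),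
    h.w.sub hA ((hr.b.mul hA hP (hp.c.conj hA)).add hA (hp.b.mul hA hP (hr.c.conj hA))),
    fun i j => ?_⟩
  · rw [star_mul', star_star]; ring
  · rw [star_mul', star_star]; ring
  · rw [star_mul', star_star]; ring
  · show C j i - (r j * star (p i) + p j * star (r i)) =
      star (C i j - (r i * star (p j) + p i * star (r j)))
    rw [star_sub, star_add, star_mul', star_mul', star_star, star_star, h.hm i j]
    ring

/-- `J s` -/
def jv (s : V3) : V3 := ![s 0, s 1, -s 2]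

theorem TW.js (hA : AOK D lf A) (hP : PT D t) {s : V3} {S : V3m α} (hs : TW D lf t s S) :
    TW D lf t (jv s) (jsW A S) := ⟨hs.a, hs.b, TOK_neg hA hP hs.c⟩

theorem kap_real {K : Mt} (hm : ∀ i j, K j i = star (K i j)) (s : V3) :
    star (star (s 0) * K.mulVec s 0 + star (s 1) * K.mulVec s 1 + star (s 2) * K.mulVec s 2) =
      star (s 0) * K.mulVec s 0 + star (s 1) * K.mulVec s 1 + star (s 2) * K.mulVec s 2 := by
  simp only [Matrix.mulVec, dotProduct, Fin.sum_univ_three, star_add, star_mul', star_star,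
    ← hm]
  ring

theorem Rk_apply (s : V3) (c0 : ℝ) (i j : Fin 3) :
    Rk s c0 i j = s i * star (jv s j) - c0 * (if i = j then 1 else 0) := by
  fin_cases i <;> fin_cases j <;> simp [Rk, jv]

/-- the entries of `R^* K R` -/
theorem cg_apply {K : Mt} (hm : ∀ i j, K j i = star (K i j)) (s : V3) (c0 : ℝ) (i j : Fin 3) :
    ((Rk s c0)ᴴ * K * Rk s c0) i j = (c0 : ℂ) * c0 * K i j -
      ((c0 * K.mulVec s i - (1 / 2 : ℂ) * (star (s 0) * K.mulVec s 0 + star (s 1) * K.mulVec s 1 +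
        star (s 2) * K.mulVec s 2) * jv s i) * star (jv s j) +
      jv s i * star (c0 * K.mulVec s j - (1 / 2 : ℂ) * (star (s 0) * K.mulVec s 0 +
        star (s 1) * K.mulVec s 1 + star (s 2) * K.mulVec s 2) * jv s j)) := by
  have hk := kap_real hm s
  set κ := star (s 0) * K.mulVec s 0 + star (s 1) * K.mulVec s 1 + star (s 2) * K.mulVec s 2
    with hκ
  have hc : star (c0 : ℂ) = c0 := Complex.conj_ofReal c0
  have hh : star (1 / 2 : ℂ) = 1 / 2 := by
    have := Complex.conj_ofReal (1 / 2 : ℝ)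
    push_cast at this
    exact this
  rw [star_sub, star_mul', star_mul', star_mul', hc, hk, hh]
  have hq : ∀ j, star (K.mulVec s j) = star (s 0) * K 0 j + star (s 1) * K 1 j +
      star (s 2) * K 2 j := by
    intro j
    simp only [Matrix.mulVec, dotProduct, Fin.sum_univ_three, star_add, star_mul', ← hm]
    ring
  have e0 : ((Rk s c0)ᴴ * K * Rk s c0) i j =
      jv s i * κ * star (jv s j) - c0 * (jv s i * star (K.mulVec s j)) -
        c0 * (K.mulVec s i * star (jv s j)) + c0 * c0 * K i j := by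
    rw [hq j, hκ]
    simp only [Matrix.mul_apply, Matrix.conjTranspose_apply, Fin.sum_univ_three, Rk_apply,
      star_sub, star_mul', star_star, hc, Matrix.mulVec, dotProduct]
    fin_cases i <;> fin_cases j <;> simp <;> ring
  rw [e0]
  ring

theorem cgmat {K : Mt} (hm : ∀ i j, K j i = star (K i j)) (s : V3) (c0 : ℝ) :
    (Matrix.of fun i j => (((c0 * c0 : ℝ) : ℂ) • K) i j - (((c0 : ℂ) • K.mulVec s -
      ((1 / 2 : ℂ) * (star (s 0) * K.mulVec s 0 + star (s 1) * K.mulVec s 1 +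
        star (s 2) * K.mulVec s 2)) • jv s) i * star (jv s j) +
      jv s i * star (((c0 : ℂ) • K.mulVec s - ((1 / 2 : ℂ) * (star (s 0) * K.mulVec s 0 +
        star (s 1) * K.mulVec s 1 + star (s 2) * K.mulVec s 2)) • jv s) j))) =
      (Rk s c0)ᴴ * K * Rk s c0 := by
  ext i j
  rw [cg_apply hm]
  simp only [Matrix.of_apply, Matrix.smul_apply, Pi.sub_apply, Pi.smul_apply, smul_eq_mul]
  push_cast
  ring

/-- `R^* K R`, `R = s s^* J - c0` -/
theorem HK.rg (hA : AOK D lf A) (hP : PT D t) {K : Mt} {M : KM α} (h : HK D lf t K M) {s : V3}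
    {S : V3m α} (hs : TW D lf t s S) {c0 : ℝ} {C : Mo α} (hc : TOK D lf t (c0 : ℂ) C) :
    HK D lf t ((Rk s c0)ᴴ * K * Rk s c0) (rgK A C M S) := by
  have hq := h.kq hA hP hs
  have hp := TW.js hA hP hs
  have hk : TOK D lf t ((1 / 2 : ℂ) * (star (s 0) * K.mulVec s 0 + star (s 1) * K.mulVec s 1 +
      star (s 2) * K.mulVec s 2)) (hkM A S (kqW A M S)) :=
    TOK_hf hA hP (TW.dt hA hP (TW.star hA hs) hq)
  have hcc : TOK D lf t ((c0 * c0 : ℝ) : ℂ) (mulM A C C) := tc (hc.mul hA hP hc) (by push_cast; rfl)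
  have h1 := (h.sm hA hP hcc).up hA hP (TW.sub hA (TW.smul hA hP hc hq) (TW.smul hA hP hk hp)) hp
  exact h1.congr (cgmat h.hm s c0)

/-- `c^* K c` for the letter with the polar vector `s` -/
theorem HK.cg (hA : AOK D lf A) (hP : PT D t) {K : Mt} {M : KM α} (h : HK D lf t K M) {s : V3}
    {S : V3m α} (hs : TW D lf t s S) : HK D lf t ((rfJ 1 s)ᴴ * K * rfJ 1 s) (cgK A M S) := by
  have hq := h.kq hA hP hs
  have hp := TW.js hA hP hs
  have hk : TOK D lf t ((1 / 2 : ℂ) * (star (s 0) * K.mulVec s 0 + star (s 1) * K.mulVec s 1 +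
      star (s 2) * K.mulVec s 2)) (hkM A S (kqW A M S)) :=
    TOK_hf hA hP (TW.dt hA hP (TW.star hA hs) hq)
  have h1 := h.up hA hP (TW.sub hA hq (TW.smul hA hP hk hp)) hp
  refine h1.congr ?_
  have e1 : (rfJ 1 s)ᴴ * K * rfJ 1 s = (Rk s 1)ᴴ * K * Rk s 1 := by
    rw [rfJ_Rk, Matrix.conjTranspose_neg, Matrix.neg_mul, Matrix.neg_mul, Matrix.mul_neg, neg_neg]
  rw [e1, ← cgmat h.hm s 1]
  ext i j
  simp only [Matrix.of_apply, Matrix.smul_apply, Pi.sub_apply, Pi.smul_apply, smul_eq_mul]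
  push_cast
  ring

/-- `N^* K N`, `N` a diagonal unitary matrix -/
theorem HK.dg (hA : AOK D lf A) (hP : PT D t) {K : Mt} {M : KM α} (h : HK D lf t K M)
    {d0 d1 : ℂ} (h0 : ‖d0‖ = 1) (h1 : ‖d1‖ = 1) {g0 g1 g : Mo α}
    (k0 : TOK D lf t (star d0) g0) (k1 : TOK D lf t (star d1) g1)
    (k : TOK D lf t (star d0 * d1) g) :
    HK D lf t ((Matrix.diagonal ![d0, d1, 1])ᴴ * K * Matrix.diagonal ![d0, d1, 1])
      (dgK A g0 g1 g M) := by
  have e : ∀ i j, ((Matrix.diagonal ![d0, d1, 1])ᴴ * K * Matrix.diagonal ![d0, d1, 1]) i j =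
      star ((![d0, d1, 1] : V3) i) * K i j * (![d0, d1, 1] : V3) j := by
    intro i j
    rw [Matrix.mul_diagonal, Matrix.diagonal_conjTranspose, Matrix.diagonal_mul]
    rfl
  have u0 : star d0 * d0 = 1 := by
    have := Complex.conj_mul' d0
    rw [h0] at this
    simpa using this
  have u1 : star d1 * d1 = 1 := by
    have := Complex.conj_mul' d1
    rw [h1] at this
    simpa using this
  refine ⟨tc h.a ?_, tc h.b ?_, tc h.c ?_, tc (k.mul hA hP h.x) ?_, tc (k0.mul hA hP h.y) ?_,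
    tc (k1.mul hA hP h.w) ?_, hm_cong h.hm _⟩
  · rw [e]
    show K 0 0 = star d0 * K 0 0 * d0
    linear_combination (-(K 0 0)) * u0
  · rw [e]
    show K 1 1 = star d1 * K 1 1 * d1
    linear_combination (-(K 1 1)) * u1
  · rw [e]
    show K 2 2 = star (1 : ℂ) * K 2 2 * 1
    rw [star_one]
    ring
  · rw [e]
    show star d0 * d1 * K 0 1 = star d0 * K 0 1 * d1
    ring
  · rw [e]
    show star d0 * K 0 2 = star d0 * K 0 2 * 1
    ring
  · rw [e]
    show star d1 * K 1 2 = star d1 * K 1 2 * 1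
    ring

/-- `N^* K N` for a general matrix -/
theorem HK.g9 (hA : AOK D lf A) (hP : PT D t) {K : Mt} {M : KM α} (h : HK D lf t K M)
    {N : Mt} {V : V9 α} (hN : TV D lf t N V) : HK D lf t (Nᴴ * K * N) (cg9 A V M) := by
  have q0 : TW D lf t (K.mulVec ![N 0 0, N 1 0, N 2 0]) (kqW A M ⟨V.a, V.d, V.g⟩) :=
    h.kq hA hP ⟨hN.a, hN.d, hN.g⟩
  have q1 : TW D lf t (K.mulVec ![N 0 1, N 1 1, N 2 1]) (kqW A M ⟨V.b, V.e, V.h⟩) :=
    h.kq hA hP ⟨hN.b, hN.e, hN.h⟩
  have q2 : TW D lf t (K.mulVec ![N 0 2, N 1 2, N 2 2]) (kqW A M ⟨V.c, V.f, V.i⟩) :=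
    h.kq hA hP ⟨hN.c, hN.f, hN.i⟩
  have a := hN.a.conj hA
  have b := hN.b.conj hA
  have c := hN.c.conj hA
  have d := hN.d.conj hA
  have e := hN.e.conj hA
  have f := hN.f.conj hA
  have g := hN.g.conj hA
  have h' := hN.h.conj hA
  have i' := hN.i.conj hA
  refine ⟨tc (TOK_dot3 hA hP a d g q0.a q0.b q0.c) ?_, tc (TOK_dot3 hA hP b e h' q1.a q1.b q1.c) ?_,
    tc (TOK_dot3 hA hP c f i' q2.a q2.b q2.c) ?_, tc (TOK_dot3 hA hP a d g q1.a q1.b q1.c) ?_,
    tc (TOK_dot3 hA hP a d g q2.a q2.b q2.c) ?_, tc (TOK_dot3 hA hP b e h' q2.a q2.b q2.c) ?_,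
    hm_cong h.hm _⟩ <;>
  · simp only [Matrix.mul_apply, Matrix.conjTranspose_apply, Fin.sum_univ_three, Matrix.mulVec,
      dotProduct, Matrix.cons_val_zero, Matrix.cons_val_one, Matrix.cons_val]
    ring

/-- the form `y -> |y^* J l|^2` -/
def ll (l : V3) : Mt := Matrix.of fun i j => jv l i * star (jv l j)

theorem hr_ll (l y : V3) : hr (ll l) y = ‖brJ 1 l y‖ ^ 2 := by
  have e : hv (ll l) y = brJ 1 l y * star (brJ 1 l y) := by
    simp only [hv, ll, jv, brJ, Fin.sum_univ_three, Matrix.of_apply, Matrix.cons_val_zero,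
      Matrix.cons_val_one, Matrix.cons_val, star_neg, star_add, star_sub, star_mul', star_star,
      Complex.ofReal_one, one_mul]
    ring
  unfold hr
  rw [e]
  have := Complex.mul_conj (brJ 1 l y)
  have h2 : star (brJ 1 l y) = (starRingEnd ℂ) (brJ 1 l y) := rfl
  rw [h2, this, Complex.normSq_eq_norm_sq]
  exact Complex.ofReal_re _

theorem HK_ll (hA : AOK D lf A) (hP : PT D t) {l : V3} {L : V3m α} (hl : TW D lf t l L) :
    HK D lf t (ll l) (llK A L) := by
  refine ⟨hl.a.mul hA hP (hl.a.conj hA), hl.b.mul hA hP (hl.b.conj hA),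
    tc (hl.c.mul hA hP (hl.c.conj hA)) ?_, hl.a.mul hA hP (hl.b.conj hA),
    tc (TOK_neg hA hP (hl.a.mul hA hP (hl.c.conj hA))) ?_,
    tc (TOK_neg hA hP (hl.b.mul hA hP (hl.c.conj hA))) ?_, fun i j => ?_⟩
  · show l 2 * star (l 2) = -l 2 * star (-l 2)
    rw [star_neg]
    ring
  · show -(l 0 * star (l 2)) = l 0 * star (-l 2)
    rw [star_neg]
    ring
  · show -(l 1 * star (l 2)) = l 1 * star (-l 2)
    rw [star_neg]
    ring
  · show jv l j * star (jv l i) = star (jv l i * star (jv l j))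
    rw [star_mul', star_star]
    ring

end

end Pool.Agent.Helper82.TST
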