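import Pool.Agent.Helper82.CW.Num

/-!
# Bodies of constant width with a rotational symmetry of order at least four
-/

set_option autoImplicit false

namespace Helper82.CW

open Finset MeasureTheory Metric
open scoped RealInnerProductSpace Real

/-- the point with coordinates `u, v, w` in the frame `a, b` -/
noncomputable def frm (b : OrthonormalBasis (Fin 3) ℝ Helper80.CW.E3) (a : Helper80.CW.E3)
    (u v w : ℝ) : Helper80.CW.E3 := a + (u • b 0 + v • b 1 + w • b 2)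

/-- rotation about the line through `a` of direction `b 2` -/
noncomputable def rotF (b : OrthonormalBasis (Fin 3) ℝ Helper80.CW.E3) (a : Helper80.CW.E3)
    (t : ℝ) (x : Helper80.CW.E3) : Helper80.CW.E3 :=
  frm b a (Real.cos t * ⟪b 0, x - a⟫ - Real.sin t * ⟪b 1, x - a⟫)
    (Real.sin t * ⟪b 0, x - a⟫ + Real.cos t * ⟪b 1, x - a⟫) ⟪b 2, x - a⟫

section
variable (b : OrthonormalBasis (Fin 3) ℝ Helper80.CW.E3) (a : Helper80.CW.E3)

theorem bij (i j : Fin 3) : ⟪b i, b j⟫ = if i = j then (1 : ℝ) else 0 := by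
  have := b.orthonormal
  rw [orthonormal_iff_ite] at this
  exact this i j

theorem frm_c (u v w : ℝ) : ⟪b 0, frm b a u v w - a⟫ = u ∧ ⟪b 1, frm b a u v w - a⟫ = v ∧
    ⟪b 2, frm b a u v w - a⟫ = w := by
  unfold frm
  rw [add_sub_cancel_left]
  simp only [inner_add_right, inner_smul_right, bij]
  refine ⟨?_, ?_, ?_⟩ <;> simp

theorem dsq (x y : Helper80.CW.E3) : dist x y ^ 2 =
    (⟪b 0, x - a⟫ - ⟪b 0, y - a⟫) ^ 2 + (⟪b 1, x - a⟫ - ⟪b 1, y - a⟫) ^ 2 +
      (⟪b 2, x - a⟫ - ⟪b 2, y - a⟫) ^ 2 := by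
  rw [dist_eq_norm, ← b.sum_sq_norm_inner_right (x - y)]
  have h : ∀ i, ⟪b i, x - y⟫ = ⟪b i, x - a⟫ - ⟪b i, y - a⟫ := by
    intro i
    rw [← inner_sub_right]
    congr 1
    abel
  simp only [Fin.sum_univ_three, h, Real.norm_eq_abs, sq_abs]

theorem rotF_iter {K : Set Helper80.CW.E3} {t : ℝ} (h : ∀ x ∈ K, rotF b a t x ∈ K) (k : ℕ) :
    ∀ x ∈ K, rotF b a (k * t) x ∈ K := by
  induction k with
  | zero =>
    intro x hx
    have : rotF b a ((0 : ℕ) * t) x = x := by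
      have h1 : dist (rotF b a ((0 : ℕ) * t) x) x ^ 2 = 0 := by
        rw [dsq b a]
        unfold rotF
        rw [(frm_c b a _ _ _).1, (frm_c b a _ _ _).2.1, (frm_c b a _ _ _).2.2]
        simp
      exact dist_eq_zero.1 (pow_eq_zero_iff (two_ne_zero)|>.1 h1)
    rw [this]
    exact hx
  | succ k ih =>
    intro x hx
    have h2 := h _ (ih x hx)
    have : rotF b a ((k + 1 : ℕ) * t) x = rotF b a t (rotF b a (k * t) x) := by
      have h1 : dist (rotF b a ((k + 1 : ℕ) * t) x) (rotF b a t (rotF b a (k * t) x)) ^ 2 = 0 := by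
        rw [dsq b a]
        have e : ((k + 1 : ℕ) : ℝ) * t = k * t + t := by push_cast; ring
        unfold rotF
        simp only [(frm_c b a _ _ _).1, (frm_c b a _ _ _).2.1, (frm_c b a _ _ _).2.2]
        rw [e, Real.cos_add, Real.sin_add]
        ring
      exact dist_eq_zero.1 (pow_eq_zero_iff (two_ne_zero)|>.1 h1)
    rw [this]
    exact h2

/-- a multiple of `2π/n` is close to any given angle -/
theorem near_angle {n : ℕ} (hn : 1 ≤ n) (s : ℝ) (hs : 0 ≤ s) :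
    ∃ k : ℕ, |k * (2 * π / n) - s| ≤ π / n := by
  have hn0 : (0 : ℝ) < n := by exact_mod_cast hn
  have hpi := Real.pi_pos
  set u : ℝ := s * n / (2 * π) with hu
  have hu0 : 0 ≤ u := by positivity
  refine ⟨⌊u + 1 / 2⌋₊, ?_⟩
  have h1 := Nat.floor_le (show 0 ≤ u + 1 / 2 by linarith)
  have h2 := Nat.lt_floor_add_one (u + 1 / 2)
  have h3 : s = u * (2 * π / n) := by
    rw [hu]
    field_simp
  have h4 : (⌊u + 1 / 2⌋₊ : ℝ) * (2 * π / n) - s = ((⌊u + 1 / 2⌋₊ : ℝ) - u) * (2 * π / n) := by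
    rw [sub_mul, ← h3]
  rw [h4, abs_mul, abs_of_pos (show (0 : ℝ) < 2 * π / n by positivity)]
  have h5 : |(⌊u + 1 / 2⌋₊ : ℝ) - u| ≤ 1 / 2 := by
    rw [abs_le]
    constructor <;> linarith
  calc |(⌊u + 1 / 2⌋₊ : ℝ) - u| * (2 * π / n) ≤ 1 / 2 * (2 * π / n) :=
        mul_le_mul_of_nonneg_right h5 (by positivity)
    _ = π / n := by ring

theorem opp_angle {n : ℕ} {c : ℝ} (hn : 1 ≤ n) (hc : c ≤ Real.cos (π / n)) (A B : ℝ) :
    ∃ k : ℕ, Real.cos (k * (2 * π / n)) * A + Real.sin (k * (2 * π / n)) * B ≤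
      - (c * Real.sqrt (A ^ 2 + B ^ 2)) := by
  set z : ℂ := ⟨A, B⟩ with hz
  have hnz : ‖z‖ = Real.sqrt (A ^ 2 + B ^ 2) := by
    rw [Complex.norm_def, Complex.normSq_apply]
    congr 1
    simp only [hz]
    ring
  have hA : A = ‖z‖ * Real.cos z.arg := by
    rw [Complex.norm_mul_cos_arg]
  have hB : B = ‖z‖ * Real.sin z.arg := by
    rw [Complex.norm_mul_sin_arg]
  have harg := Complex.neg_pi_lt_arg z
  obtain ⟨k, hk⟩ := near_angle hn (z.arg + π) (by linarith)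
  refine ⟨k, ?_⟩
  set t : ℝ := k * (2 * π / n) with ht
  have h1 : Real.cos t * A + Real.sin t * B = ‖z‖ * Real.cos (t - z.arg) := by
    rw [Real.cos_sub]
    nth_rewrite 1 [hA]
    nth_rewrite 1 [hB]
    ring
  have h2 : Real.cos (t - z.arg) = - Real.cos (t - (z.arg + π)) := by
    rw [show t - (z.arg + π) = t - z.arg - π by ring, Real.cos_sub_pi]
    ring
  have hpn : π / n ≤ π := by
    have h1n : (1 : ℝ) ≤ n := by exact_mod_cast hn
    exact div_le_self Real.pi_pos.le h1n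
  have h3 : Real.cos (π / n) ≤ Real.cos (t - (z.arg + π)) := by
    rw [← Real.cos_abs (t - (z.arg + π))]
    exact Real.cos_le_cos_of_nonneg_of_le_pi (abs_nonneg _) hpn hk
  rw [h1, h2, ← hnz]
  have h4 := mul_le_mul_of_nonneg_left (hc.trans h3) (norm_nonneg z)
  linarith

/-- squared distance to a rotated point -/
theorem dsq_rot (x y : Helper80.CW.E3) (t : ℝ) : dist y (rotF b a t x) ^ 2 =
    ⟪b 0, x - a⟫ ^ 2 + ⟪b 1, x - a⟫ ^ 2 + (⟪b 0, y - a⟫ ^ 2 + ⟪b 1, y - a⟫ ^ 2) +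
      (⟪b 2, y - a⟫ - ⟪b 2, x - a⟫) ^ 2 -
      2 * (Real.cos t * (⟪b 0, x - a⟫ * ⟪b 0, y - a⟫ + ⟪b 1, x - a⟫ * ⟪b 1, y - a⟫) +
        Real.sin t * (⟪b 0, x - a⟫ * ⟪b 1, y - a⟫ - ⟪b 1, x - a⟫ * ⟪b 0, y - a⟫)) := by
  rw [dsq b a]
  unfold rotF
  rw [(frm_c b a _ _ _).1, (frm_c b a _ _ _).2.1, (frm_c b a _ _ _).2.2]
  have h := Real.sin_sq_add_cos_sq t
  linear_combination (⟪b 0, x - a⟫ ^ 2 + ⟪b 1, x - a⟫ ^ 2) * h

end

theorem cos_pi_four_le {n : ℕ} (hn : 4 ≤ n) : Real.sqrt 2 / 2 ≤ Real.cos (π / n) := by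
  have hpi := Real.pi_pos
  have h4 : (4 : ℝ) ≤ n := by exact_mod_cast hn
  rw [← Real.cos_pi_div_four]
  apply Real.cos_le_cos_of_nonneg_of_le_pi
  · positivity
  · linarith
  · exact div_le_div_of_nonneg_left hpi.le (by norm_num) h4

theorem own {n : ℕ} (hn : 4 ≤ n) : ∃ k : ℕ, Real.cos (k * (2 * π / n)) ≤ -0.809 := by
  have hpi := Real.pi_pos
  rcases eq_or_lt_of_le hn with h | h
  · refine ⟨2, ?_⟩
    rw [← h]
    have : ((2 : ℕ) : ℝ) * (2 * π / (4 : ℕ)) = π := by push_cast; ring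
    rw [this, Real.cos_pi]
    norm_num
  · have h5 : (5 : ℝ) ≤ n := by exact_mod_cast h
    obtain ⟨k, hk⟩ := near_angle (n := n) (by omega) π hpi.le
    refine ⟨k, ?_⟩
    have h1 : Real.cos (k * (2 * π / n)) = - Real.cos (k * (2 * π / n) - π) := by
      rw [Real.cos_sub_pi]
      ring
    rw [h1, neg_le_neg_iff, ← Real.cos_abs]
    have h2 : Real.cos (π / 5) ≤ Real.cos |k * (2 * π / n) - π| := by
      apply Real.cos_le_cos_of_nonneg_of_le_pi (abs_nonneg _)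
      · linarith
      · exact hk.trans (div_le_div_of_nonneg_left hpi.le (by norm_num) h5)
    refine le_trans ?_ h2
    rw [Real.cos_pi_div_five]
    have : (2.236 : ℝ) ≤ Real.sqrt 5 := Real.le_sqrt_of_sq_le (by norm_num)
    linarith

theorem num_m {p q m : ℝ} (hq0 : 0 ≤ q) (hp : p ≤ 0.2764)
    (hq : q ≤ 0.2764) (hm : m ^ 2 = p * q) : m ≤ 0.2764 := by
  have h1 : p * q ≤ 0.2764 * 0.2764 := mul_le_mul hp hq hq0 (by norm_num)
  by_contra hcon
  push Not at hcon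
  have h2 : (0.2764 : ℝ) ^ 2 < m ^ 2 := pow_lt_pow_left₀ hcon (by norm_num) two_ne_zero
  linarith

theorem num_key {p q m : ℝ} (hq0 : 0 ≤ q) (hp : p ≤ 0.2764)
    (hq : q ≤ 0.2764) (hm0 : 0 ≤ m) (hm : m ^ 2 = p * q) :
    (1 - 2 * 0.588 ^ 2 - 1.4142 * m) ^ 2 ≤ 4 * ((0.588 ^ 2 - p) * (0.588 ^ 2 - q)) := by
  have hmm := num_m hq0 hp hq hm
  have h5 : 0 ≤ (0.2764 - p) * (0.2764 - q) := mul_nonneg (by linarith) (by linarith)
  have h6 : 0 ≤ m * (0.2764 - m) := mul_nonneg hm0 (by linarith)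
  norm_num at *
  linarith

theorem num_pair {p q m P Q d : ℝ} (hq0 : 0 ≤ q) (hp : p ≤ 0.2764)
    (hq : q ≤ 0.2764) (hm0 : 0 ≤ m) (hm : m ^ 2 = p * q) (hP0 : 0 < P) (hQ0 : 0 < Q)
    (hP2 : P ^ 2 = 0.588 ^ 2 - p) (hQ2 : Q ^ 2 = 0.588 ^ 2 - q)
    (hd : p + q + 1.4142 * m + d ^ 2 ≤ 1) : |d| ≤ P + Q := by
  apply abs_le_of_sq_le_sq _ (by linarith)
  have h1 : (P + Q) ^ 2 = 2 * 0.588 ^ 2 - p - q + 2 * (P * Q) := by
    have : (P + Q) ^ 2 = P ^ 2 + Q ^ 2 + 2 * (P * Q) := by ring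
    rw [this, hP2, hQ2]
    ring
  rw [h1]
  by_contra hcon
  push Not at hcon
  have hPQ : 0 < P * Q := mul_pos hP0 hQ0
  have h2 : 2 * (P * Q) < 1 - 2 * 0.588 ^ 2 - 1.4142 * m := by linarith
  have h3 : (2 * (P * Q)) ^ 2 < (1 - 2 * 0.588 ^ 2 - 1.4142 * m) ^ 2 :=
    pow_lt_pow_left₀ h2 (by linarith) two_ne_zero
  have h4 : (2 * (P * Q)) ^ 2 = 4 * ((0.588 ^ 2 - p) * (0.588 ^ 2 - q)) := by
    rw [← hP2, ← hQ2]
    ring
  have h5 := num_key hq0 hp hq hm0 hm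
  linarith

/-- the radius of a body of diameter `1` with a rotational symmetry of order at least `4` -/
theorem rot_ball (b : OrthonormalBasis (Fin 3) ℝ Helper80.CW.E3) (a : Helper80.CW.E3)
    {K : Set Helper80.CW.E3} (hd : ∀ x ∈ K, ∀ y ∈ K, dist x y ≤ 1) {n : ℕ} (hn : 4 ≤ n)
    (hrot : ∀ x ∈ K, rotF b a (2 * π / n) x ∈ K) :
    ∃ x0, K ⊆ closedBall x0 0.588 := by
  classical
  have hit := rotF_iter b a hrot
  have hdsq : ∀ x ∈ K, ∀ y ∈ K, dist x y ^ 2 ≤ 1 := by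
    intro x hx y hy
    have := hd x hx y hy
    have h0 := dist_nonneg (x := x) (y := y)
    nlinarith
  -- distance to the axis
  have hr : ∀ x ∈ K, ⟪b 0, x - a⟫ ^ 2 + ⟪b 1, x - a⟫ ^ 2 ≤ 0.27640 := by
    intro x hx
    obtain ⟨k, hk⟩ := own hn
    have h1 := hdsq x hx _ (hit k x hx)
    rw [dsq_rot] at h1
    have h2 : 0 ≤ ⟪b 0, x - a⟫ ^ 2 + ⟪b 1, x - a⟫ ^ 2 := by positivity
    have h3 := mul_le_mul_of_nonneg_right hk h2
    nlinarith
  -- pairs
  have hp : ∀ x ∈ K, ∀ y ∈ K,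
      (⟪b 0, x - a⟫ ^ 2 + ⟪b 1, x - a⟫ ^ 2) + (⟪b 0, y - a⟫ ^ 2 + ⟪b 1, y - a⟫ ^ 2) +
      Real.sqrt 2 * (Real.sqrt (⟪b 0, x - a⟫ ^ 2 + ⟪b 1, x - a⟫ ^ 2) *
        Real.sqrt (⟪b 0, y - a⟫ ^ 2 + ⟪b 1, y - a⟫ ^ 2)) +
      (⟪b 2, y - a⟫ - ⟪b 2, x - a⟫) ^ 2 ≤ 1 := by
    intro x hx y hy
    obtain ⟨k, hk⟩ := opp_angle (n := n) (by omega) (cos_pi_four_le hn)
      (⟪b 0, x - a⟫ * ⟪b 0, y - a⟫ + ⟪b 1, x - a⟫ * ⟪b 1, y - a⟫)
      (⟪b 0, x - a⟫ * ⟪b 1, y - a⟫ - ⟪b 1, x - a⟫ * ⟪b 0, y - a⟫)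
    have h1 := hdsq y hy _ (hit k x hx)
    rw [dsq_rot] at h1
    have h2 : (⟪b 0, x - a⟫ * ⟪b 0, y - a⟫ + ⟪b 1, x - a⟫ * ⟪b 1, y - a⟫) ^ 2 +
        (⟪b 0, x - a⟫ * ⟪b 1, y - a⟫ - ⟪b 1, x - a⟫ * ⟪b 0, y - a⟫) ^ 2 =
        (⟪b 0, x - a⟫ ^ 2 + ⟪b 1, x - a⟫ ^ 2) * (⟪b 0, y - a⟫ ^ 2 + ⟪b 1, y - a⟫ ^ 2) := by
      ring
    rw [h2, Real.sqrt_mul (by positivity)] at hk
    linarith
  set G : K → Set ℝ := fun x => {t : ℝ | |t - ⟪b 2, (x : Helper80.CW.E3) - a⟫| ≤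
      Real.sqrt (0.588 ^ 2 - (⟪b 0, (x : Helper80.CW.E3) - a⟫ ^ 2 +
        ⟪b 1, (x : Helper80.CW.E3) - a⟫ ^ 2))} with hG
  have hGball : ∀ x, G x = closedBall ⟪b 2, (x : Helper80.CW.E3) - a⟫
      (Real.sqrt (0.588 ^ 2 - (⟪b 0, (x : Helper80.CW.E3) - a⟫ ^ 2 +
        ⟪b 1, (x : Helper80.CW.E3) - a⟫ ^ 2))) := by
    intro x
    ext t
    simp only [hG, Set.mem_ofPred_eq, mem_closedBall, Real.dist_eq]
  have hpair : ∀ x y : K, (G x ∩ G y).Nonempty := by
    intro x y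
    have hx := hr _ x.2
    have hy := hr _ y.2
    have hxy := hp _ x.2 _ y.2
    simp only [hG]
    set p2 : ℝ := ⟪b 0, (x : Helper80.CW.E3) - a⟫ ^ 2 + ⟪b 1, (x : Helper80.CW.E3) - a⟫ ^ 2
      with hp2
    set q2 : ℝ := ⟪b 0, (y : Helper80.CW.E3) - a⟫ ^ 2 + ⟪b 1, (y : Helper80.CW.E3) - a⟫ ^ 2
      with hq2
    have hp20 : 0 ≤ p2 := by positivity
    have hq20 : 0 ≤ q2 := by positivity
    set z : ℝ := ⟪b 2, (x : Helper80.CW.E3) - a⟫ with hz
    set w : ℝ := ⟪b 2, (y : Helper80.CW.E3) - a⟫ with hw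
    set P := Real.sqrt (0.588 ^ 2 - p2) with hP
    set Q := Real.sqrt (0.588 ^ 2 - q2) with hQ
    have hP2 : P ^ 2 = 0.588 ^ 2 - p2 := Real.sq_sqrt (by norm_num; linarith)
    have hQ2 : Q ^ 2 = 0.588 ^ 2 - q2 := Real.sq_sqrt (by norm_num; linarith)
    have hP0 : 0 < P := Real.sqrt_pos.2 (by norm_num; linarith)
    have hQ0 : 0 < Q := Real.sqrt_pos.2 (by norm_num; linarith)
    set m := Real.sqrt p2 * Real.sqrt q2 with hm
    have hm0 : 0 ≤ m := by positivity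
    have hm2 : m ^ 2 = p2 * q2 := by
      rw [hm, mul_pow, Real.sq_sqrt hp20, Real.sq_sqrt hq20]
    have hs2 : (1.4142 : ℝ) ≤ Real.sqrt 2 := Real.le_sqrt_of_sq_le (by norm_num)
    have hxy2 : p2 + q2 + 1.4142 * m + (w - z) ^ 2 ≤ 1 := by
      have := mul_le_mul_of_nonneg_right hs2 hm0
      linarith
    have hkey : |w - z| ≤ P + Q :=
      num_pair hq20 (by linarith) (by linarith) hm0 hm2 hP0 hQ0 hP2 hQ2 hxy2
    have hPQ : 0 < P + Q := by linarith
    refine ⟨z + (w - z) * (P / (P + Q)), ?_, ?_⟩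
    · show |z + (w - z) * (P / (P + Q)) - z| ≤ P
      rw [add_sub_cancel_left, abs_mul, abs_of_pos (div_pos hP0 hPQ)]
      calc |w - z| * (P / (P + Q)) ≤ (P + Q) * (P / (P + Q)) :=
            mul_le_mul_of_nonneg_right hkey (div_pos hP0 hPQ).le
        _ = P := by field_simp
    · show |z + (w - z) * (P / (P + Q)) - w| ≤ Q
      have e : z + (w - z) * (P / (P + Q)) - w = -((w - z) * (Q / (P + Q))) := by
        field_simp
        ring
      rw [e, abs_neg, abs_mul, abs_of_pos (div_pos hQ0 hPQ)]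
      calc |w - z| * (Q / (P + Q)) ≤ (P + Q) * (Q / (P + Q)) :=
            mul_le_mul_of_nonneg_right hkey (div_pos hQ0 hPQ).le
        _ = Q := by field_simp
  have h := Convex.helly_theorem_compact' (𝕜 := ℝ) (E := ℝ) (F := G)
    (fun x => by rw [hGball]; exact convex_closedBall _ _)
    (fun x => by rw [hGball]; exact isCompact_closedBall _ _) (by
      intro I hI
      rw [Module.finrank_self] at hI
      rcases I.eq_empty_or_nonempty with he | ⟨x, hx⟩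
      · rw [he]; simp
      · rcases (I.erase x).eq_empty_or_nonempty with he | ⟨y, hy⟩
        · obtain ⟨t, ht, -⟩ := hpair x x
          refine ⟨t, ?_⟩
          rw [Set.mem_iInter₂]
          intro i hi
          have : i = x := by
            by_contra hne
            have : i ∈ I.erase x := mem_erase.2 ⟨hne, hi⟩
            rw [he] at this
            simp at this
          rw [this]
          exact ht
        · obtain ⟨t, ht1, ht2⟩ := hpair x y
          refine ⟨t, ?_⟩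
          rw [Set.mem_iInter₂]
          intro i hi
          by_cases h1 : i = x
          · rw [h1]; exact ht1
          · by_cases h2 : i = y
            · rw [h2]; exact ht2
            · exfalso
              have h3 : ({x, y, i} : Finset K) ⊆ I := by
                intro j hj
                simp only [mem_insert, mem_singleton] at hj
                rcases hj with rfl | rfl | rfl
                · exact hx
                · exact (mem_erase.1 hy).2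
                · exact hi
              have h4 : ({x, y, i} : Finset K).card = 3 := by
                rw [card_eq_three]
                exact ⟨x, y, i, (mem_erase.1 hy).1.symm, fun h => h1 h.symm,
                  fun h => h2 h.symm, rfl⟩
              have h5 := card_le_card h3
              omega)
  obtain ⟨t, ht⟩ := h
  refine ⟨frm b a 0 0 t, fun x hx => ?_⟩
  rw [Set.mem_iInter] at ht
  have h1 := ht ⟨x, hx⟩
  simp only [hG, Set.mem_ofPred_eq] at h1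
  have h2 := hr x hx
  have h3 : |t - ⟪b 2, x - a⟫| ^ 2 ≤ 0.588 ^ 2 - (⟪b 0, x - a⟫ ^ 2 + ⟪b 1, x - a⟫ ^ 2) := by
    have h4 := pow_le_pow_left₀ (abs_nonneg _) h1 2
    rwa [Real.sq_sqrt (by norm_num; linarith)] at h4
  rw [sq_abs] at h3
  rw [mem_closedBall]
  refine abs_le_of_sq_le_sq' ?_ (by norm_num) |>.2
  rw [dsq b a, (frm_c b a _ _ _).1, (frm_c b a _ _ _).2.1, (frm_c b a _ _ _).2.2]
  nlinarith

/-- reflection in the plane through `a` orthogonal to `b 2` -/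
noncomputable def mirF (b : OrthonormalBasis (Fin 3) ℝ Helper80.CW.E3) (a : Helper80.CW.E3)
    (x : Helper80.CW.E3) : Helper80.CW.E3 :=
  frm b a ⟪b 0, x - a⟫ ⟪b 1, x - a⟫ (-⟪b 2, x - a⟫)

/-- half-turn about the line through `a` of direction `b 0` -/
noncomputable def halfF (b : OrthonormalBasis (Fin 3) ℝ Helper80.CW.E3) (a : Helper80.CW.E3)
    (x : Helper80.CW.E3) : Helper80.CW.E3 :=
  frm b a ⟪b 0, x - a⟫ (-⟪b 1, x - a⟫) (-⟪b 2, x - a⟫)

section
variable (b : OrthonormalBasis (Fin 3) ℝ Helper80.CW.E3) (a : Helper80.CW.E3)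

theorem ext_c {x y : Helper80.CW.E3} (h0 : ⟪b 0, x - a⟫ = ⟪b 0, y - a⟫)
    (h1 : ⟪b 1, x - a⟫ = ⟪b 1, y - a⟫) (h2 : ⟪b 2, x - a⟫ = ⟪b 2, y - a⟫) : x = y := by
  have h : dist x y ^ 2 = 0 := by
    rw [dsq b a, h0, h1, h2]
    ring
  exact dist_eq_zero.1 (pow_eq_zero_iff two_ne_zero |>.1 h)

theorem rotF_zero (x : Helper80.CW.E3) : rotF b a 0 x = x := by
  apply ext_c b a
  all_goals
    unfold rotF
    simp [(frm_c b a _ _ _).1, (frm_c b a _ _ _).2.1, (frm_c b a _ _ _).2.2]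

theorem rotF_two_pi (x : Helper80.CW.E3) : rotF b a (2 * π) x = x := by
  apply ext_c b a
  all_goals
    unfold rotF
    simp [(frm_c b a _ _ _).1, (frm_c b a _ _ _).2.1, (frm_c b a _ _ _).2.2]

theorem rotF_add (s t : ℝ) (x : Helper80.CW.E3) :
    rotF b a (s + t) x = rotF b a s (rotF b a t x) := by
  apply ext_c b a
  all_goals
    unfold rotF
    simp only [(frm_c b a _ _ _).1, (frm_c b a _ _ _).2.1, (frm_c b a _ _ _).2.2]
    try rw [Real.cos_add, Real.sin_add]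
    try ring

theorem rotF_cont (x : Helper80.CW.E3) : Continuous (fun t : ℝ => rotF b a t x) := by
  unfold rotF frm
  fun_prop

/-- the group of angles -/
noncomputable def angles (K : Set Helper80.CW.E3) : AddSubgroup ℝ where
  carrier := {t | rotF b a t '' K = K}
  zero_mem' := by
    show rotF b a 0 '' K = K
    have : rotF b a 0 = id := funext (rotF_zero b a)
    rw [this, Set.image_id]
  add_mem' := by
    intro s t hs ht
    show rotF b a (s + t) '' K = K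
    have hs' : rotF b a s '' K = K := hs
    have ht' : rotF b a t '' K = K := ht
    have : rotF b a (s + t) = rotF b a s ∘ rotF b a t := funext (rotF_add b a s t)
    rw [this, Set.image_comp, ht', hs']
  neg_mem' := by
    intro t ht
    show rotF b a (-t) '' K = K
    have ht' : rotF b a t '' K = K := ht
    have : rotF b a (-t) ∘ rotF b a t = id := by
      funext x
      show rotF b a (-t) (rotF b a t x) = x
      rw [← rotF_add, neg_add_cancel, rotF_zero]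
    conv_lhs => rw [← ht', ← Set.image_comp, this, Set.image_id]

/-- an angle which is no multiple of `π` or `2π/3` -/
theorem angle_order {K : Set Helper80.CW.E3} (hK : IsCompact K) {t : ℝ}
    (h1 : ∀ m : ℤ, t ≠ m * π) (h2 : ∀ m : ℤ, t ≠ m * (2 * π / 3))
    (ht : rotF b a t '' K = K) :
    ∃ n : ℕ, 4 ≤ n ∧ ∀ x ∈ K, rotF b a (2 * π / n) x ∈ K := by
  have hpi := Real.pi_pos
  have hmem : ∀ s ∈ angles b a K, ∀ x ∈ K, rotF b a s x ∈ K := by
    intro s hs x hx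
    have hs' : rotF b a s '' K = K := hs
    rw [← hs']
    exact ⟨x, hx, rfl⟩
  have htm : t ∈ angles b a K := ht
  have h2pi : 2 * π ∈ angles b a K := by
    show rotF b a (2 * π) '' K = K
    have : rotF b a (2 * π) = id := funext (rotF_two_pi b a)
    rw [this, Set.image_id]
  rcases AddSubgroup.dense_or_cyclic (angles b a K) with hd | ⟨c, hc⟩
  · refine ⟨4, le_rfl, fun x hx => ?_⟩
    have hcl : IsClosed {s : ℝ | rotF b a s x ∈ K} := hK.isClosed.preimage (rotF_cont b a x)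
    have hsub : closure ((angles b a K : AddSubgroup ℝ) : Set ℝ) ⊆ {s : ℝ | rotF b a s x ∈ K} :=
      closure_minimal (fun s hs => hmem s hs x hx) hcl
    rw [hd.closure_eq] at hsub
    exact hsub (Set.mem_univ _)
  · rw [hc, AddSubgroup.mem_closure_singleton] at h2pi htm
    obtain ⟨m, hm⟩ := h2pi
    obtain ⟨k, hk⟩ := htm
    rw [zsmul_eq_mul] at hm hk
    have hcm : c ∈ angles b a K := by
      rw [hc]
      exact AddSubgroup.mem_closure_singleton_self c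
    have hm0 : m ≠ 0 := by
      rintro rfl
      rw [Int.cast_zero, zero_mul] at hm
      linarith
    have hmR : (m : ℝ) ≠ 0 := by exact_mod_cast hm0
    have hcv : c = 2 * π / m := by
      rw [← hm]
      field_simp
    have hnat : ((m.natAbs : ℕ) : ℝ) = |(m : ℝ)| := by
      rw [Nat.cast_natAbs, Int.cast_abs]
    refine ⟨m.natAbs, ?_, ?_⟩
    · by_contra hlt
      push Not at hlt
      have hcase : m = 1 ∨ m = -1 ∨ m = 2 ∨ m = -2 ∨ m = 3 ∨ m = -3 := by omega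
      rcases hcase with rfl | rfl | rfl | rfl | rfl | rfl
      · apply h1 (2 * k)
        rw [← hk, hcv]
        push_cast
        ring
      · apply h1 (-2 * k)
        rw [← hk, hcv]
        push_cast
        ring
      · apply h1 k
        rw [← hk, hcv]
        push_cast
        ring
      · apply h1 (-k)
        rw [← hk, hcv]
        push_cast
        ring
      · apply h2 k
        rw [← hk, hcv]
        push_cast
        ring
      · apply h2 (-k)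
        rw [← hk, hcv]
        push_cast
        ring
    · apply hmem
      rw [hnat]
      rcases abs_choice (m : ℝ) with h | h
      · rw [h, ← hcv]
        exact hcm
      · rw [h, div_neg, ← hcv]
        exact (angles b a K).neg_mem hcm

/-- threefold symmetry together with a perpendicular plane of symmetry or half-turn -/
theorem three_ball {K : Set Helper80.CW.E3} (hd : ∀ x ∈ K, ∀ y ∈ K, dist x y ≤ 1)
    (h3 : rotF b a (2 * π / 3) '' K = K) (h : mirF b a '' K = K ∨ halfF b a '' K = K) :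
    K ⊆ closedBall a 0.588 := by
  have hit : ∀ (k : ℕ), ∀ x ∈ K, rotF b a (k * (2 * π / (3 : ℕ))) x ∈ K := by
    intro k x hx
    apply rotF_iter b a _ k x hx
    intro y hy
    have : rotF b a (2 * π / (3 : ℕ)) y ∈ rotF b a (2 * π / 3) '' K := by
      refine ⟨y, hy, ?_⟩
      norm_num
    rwa [h3] at this
  intro x hx
  have hx2 : dist x a ^ 2 = ⟪b 0, x - a⟫ ^ 2 + ⟪b 1, x - a⟫ ^ 2 + ⟪b 2, x - a⟫ ^ 2 := by
    rw [dsq b a]
    simp
  have hmain : 3 * (⟪b 0, x - a⟫ ^ 2 + ⟪b 1, x - a⟫ ^ 2) + 4 * ⟪b 2, x - a⟫ ^ 2 ≤ 1 := by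
    have hgen : ∀ y ∈ K, ⟪b 0, y - a⟫ ^ 2 + ⟪b 1, y - a⟫ ^ 2 =
        ⟪b 0, x - a⟫ ^ 2 + ⟪b 1, x - a⟫ ^ 2 → ⟪b 2, y - a⟫ = -⟪b 2, x - a⟫ →
        3 * (⟪b 0, x - a⟫ ^ 2 + ⟪b 1, x - a⟫ ^ 2) + 4 * ⟪b 2, x - a⟫ ^ 2 ≤ 1 := by
      intro y hy e1 e2
      obtain ⟨k, hk⟩ := opp_angle (n := 3) (c := 1 / 2) (by norm_num) (by
          push_cast
          rw [Real.cos_pi_div_three])
        (⟪b 0, x - a⟫ * ⟪b 0, y - a⟫ + ⟪b 1, x - a⟫ * ⟪b 1, y - a⟫)
        (⟪b 0, x - a⟫ * ⟪b 1, y - a⟫ - ⟪b 1, x - a⟫ * ⟪b 0, y - a⟫)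
      have h1 := hd y hy _ (hit k x hx)
      have h1' : dist y (rotF b a (k * (2 * π / (3 : ℕ))) x) ^ 2 ≤ 1 := by
        have h0 := dist_nonneg (x := y) (y := rotF b a (k * (2 * π / (3 : ℕ))) x)
        nlinarith
      rw [dsq_rot] at h1'
      have h2 : (⟪b 0, x - a⟫ * ⟪b 0, y - a⟫ + ⟪b 1, x - a⟫ * ⟪b 1, y - a⟫) ^ 2 +
          (⟪b 0, x - a⟫ * ⟪b 1, y - a⟫ - ⟪b 1, x - a⟫ * ⟪b 0, y - a⟫) ^ 2 =
          (⟪b 0, x - a⟫ ^ 2 + ⟪b 1, x - a⟫ ^ 2) ^ 2 := by
        have e3 : (⟪b 0, x - a⟫ * ⟪b 0, y - a⟫ + ⟪b 1, x - a⟫ * ⟪b 1, y - a⟫) ^ 2 +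
            (⟪b 0, x - a⟫ * ⟪b 1, y - a⟫ - ⟪b 1, x - a⟫ * ⟪b 0, y - a⟫) ^ 2 =
            (⟪b 0, x - a⟫ ^ 2 + ⟪b 1, x - a⟫ ^ 2) *
              (⟪b 0, y - a⟫ ^ 2 + ⟪b 1, y - a⟫ ^ 2) := by ring
        rw [e3, e1]
        ring
      rw [h2, Real.sqrt_sq (by positivity)] at hk
      rw [e1, e2] at h1'
      nlinarith
    rcases h with h | h
    · have hm : mirF b a x ∈ K := by
        rw [← h]
        exact ⟨x, hx, rfl⟩
      apply hgen _ hm
      · unfold mirF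
        rw [(frm_c b a _ _ _).1, (frm_c b a _ _ _).2.1]
      · unfold mirF
        rw [(frm_c b a _ _ _).2.2]
    · have hm : halfF b a x ∈ K := by
        rw [← h]
        exact ⟨x, hx, rfl⟩
      apply hgen _ hm
      · unfold halfF
        rw [(frm_c b a _ _ _).1, (frm_c b a _ _ _).2.1]
        ring
      · unfold halfF
        rw [(frm_c b a _ _ _).2.2]
  rw [mem_closedBall]
  refine abs_le_of_sq_le_sq' ?_ (by norm_num) |>.2
  rw [hx2]
  have h0 := sq_nonneg ⟪b 2, x - a⟫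
  norm_num
  linarith

/-- central symmetry -/
theorem central_ball {K : Set Helper80.CW.E3} (hd : ∀ x ∈ K, ∀ y ∈ K, dist x y ≤ 1)
    (h : (fun x => a - (x - a)) '' K = K) : K ⊆ closedBall a 0.588 := by
  intro x hx
  have hm : a - (x - a) ∈ K := by
    have : a - (x - a) ∈ (fun x => a - (x - a)) '' K := ⟨x, hx, rfl⟩
    rwa [h] at this
  have h1 := hd x hx _ hm
  rw [dist_eq_norm, show x - (a - (x - a)) = (2 : ℝ) • (x - a) by
    rw [two_smul]; abel, norm_smul] at h1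
  rw [mem_closedBall, dist_eq_norm]
  norm_num at h1 ⊢
  linarith

end

theorem thr2 : 0.434 ≤ π * (Bc (0.588 ^ 2 - 1 / 4) - 1 / 3) := by
  have hpi := Real.pi_gt_d6
  have h1 : Sr (0.588 ^ 2 - 1 / 4) ≤ 3.44696 := by
    unfold Sr
    apply Real.sqrt_le_iff.2
    constructor
    · norm_num
    · norm_num
  have h0 := Sr_ge (r := 0.588 ^ 2 - 1 / 4) (by norm_num)
  have h2 : 9 / (2 * (3.44696 + 6 + (0.588 ^ 2 - 1 / 4))) ≤ Bc (0.588 ^ 2 - 1 / 4) := by
    unfold Bc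
    apply div_le_div_of_nonneg_left (by norm_num) (by linarith)
    linarith
  have h3 : (0.13822 : ℝ) ≤ Bc (0.588 ^ 2 - 1 / 4) - 1 / 3 := by
    refine le_trans ?_ (sub_le_sub_right h2 _)
    norm_num
  calc (0.434 : ℝ) ≤ 3.141592 * 0.13822 := by norm_num
    _ ≤ π * (Bc (0.588 ^ 2 - 1 / 4) - 1 / 3) := by
        apply mul_le_mul hpi.le h3 (by norm_num) (by linarith)

end Helper82.CW
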