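import Pool.Agent.Helper82.CW.Num

/-!
# Bodies of small volume contain an almost regular tetrahedron
-/

set_option autoImplicit false

namespace Helper82.CW

open Finset MeasureTheory

/-- the centre given by the maximiser of a quadratic form on the simplex -/
theorem jung_max {E : Type*} [NormedAddCommGroup E] [InnerProductSpace ℝ E]
    {κ : Type*} [Fintype κ] [DecidableEq κ] [Nonempty κ] (p : κ → E) :
    ∃ c : E, ∃ l : κ → ℝ, (∀ i, 0 ≤ l i) ∧ ∑ i, l i = 1 ∧
      ∀ i, dist c (p i) ^ 2 ≤ (∑ i, ∑ j, l i * l j * ‖p i - p j‖ ^ 2) / 2 := by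
  classical
  let F : (κ → ℝ) → ℝ := fun l => (∑ i, ∑ j, l i * l j * ‖p i - p j‖ ^ 2) / 2
  have hFc : Continuous F := by
    refine Continuous.div_const ?_ 2
    refine continuous_finsetSum _ (fun i _ => continuous_finsetSum _ (fun j _ => ?_))
    exact ((continuous_apply i).mul (continuous_apply j)).mul continuous_const
  have hne : (stdSimplex ℝ κ).Nonempty :=
    ⟨Pi.single (Classical.arbitrary κ) 1, single_mem_stdSimplex ℝ _⟩
  obtain ⟨l, hl, hmax⟩ := (isCompact_stdSimplex ℝ κ).exists_isMaxOn hne hFc.continuousOn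
  have hl0 : ∀ i, 0 ≤ l i := hl.1
  have hl1 : ∑ i, l i = 1 := hl.2
  set c : E := ∑ j, l j • p j with hc
  let q : κ → ℝ := fun i => ∑ j, l j * ‖p i - p j‖ ^ 2
  have hsum0 : ∑ j, l j • (p j - c) = 0 := by
    simp only [smul_sub, Finset.sum_sub_distrib, ← Finset.sum_smul, hl1, one_smul]
    rw [← hc, sub_self]
  set V : ℝ := ∑ j, l j * ‖p j - c‖ ^ 2 with hV
  have hq : ∀ i, q i = ‖p i - c‖ ^ 2 + V := by
    intro i
    have h1 : ∀ j, l j * ‖p i - p j‖ ^ 2 = l j * ‖p i - c‖ ^ 2 + l j * ‖p j - c‖ ^ 2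
        - 2 * inner ℝ (p i - c) (l j • (p j - c)) := by
      intro j
      have h2 : p i - p j = (p i - c) - (p j - c) := by abel
      rw [h2, norm_sub_sq_real, inner_smul_right]
      ring
    show ∑ j, l j * ‖p i - p j‖ ^ 2 = _
    rw [Finset.sum_congr rfl (fun j _ => h1 j), Finset.sum_sub_distrib, Finset.sum_add_distrib,
      ← Finset.sum_mul, hl1, one_mul, ← Finset.mul_sum, ← inner_sum, hsum0, inner_zero_right,
      mul_zero, sub_zero]
  have hF2 : F l = (∑ i, l i * q i) / 2 := by
    show (∑ i, ∑ j, l i * l j * ‖p i - p j‖ ^ 2) / 2 = _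
    congr 1
    refine Finset.sum_congr rfl (fun i _ => ?_)
    show _ = l i * ∑ j, l j * ‖p i - p j‖ ^ 2
    rw [Finset.mul_sum]
    exact Finset.sum_congr rfl (fun j _ => by ring)
  have hFV : F l = V := by
    rw [hF2]
    have : ∑ i, l i * q i = V + V := by
      rw [Finset.sum_congr rfl (fun i _ => by rw [hq i, mul_add]), Finset.sum_add_distrib,
        ← Finset.sum_mul, hl1, one_mul]
    rw [this]; ring
  have hV0 : 0 ≤ V := Finset.sum_nonneg (fun j _ => mul_nonneg (hl0 j) (by positivity))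
  -- first order condition
  have hfo : ∀ i, q i ≤ 2 * V := by
    intro i
    by_contra hcon
    push Not at hcon
    have hd : 0 < q i - V := by linarith
    set t : ℝ := (q i - 2 * V) / (2 * (q i - V)) with ht
    have ht0 : 0 < t := div_pos (by linarith) (by linarith)
    have ht1 : t ≤ 1 := by
      rw [ht, div_le_one (by linarith)]; linarith
    have htm : t * (q i - V) = (q i - 2 * V) / 2 := by
      rw [ht]; field_simp
    let l' : κ → ℝ := fun j => (1 - t) * l j + t * (Pi.single i (1 : ℝ) : κ → ℝ) j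
    have hl' : l' ∈ stdSimplex ℝ κ := by
      have h := (convex_stdSimplex ℝ κ) hl (single_mem_stdSimplex ℝ i) (by linarith : 0 ≤ 1 - t)
        ht0.le (by ring)
      exact h
    have h3 : F l' ≤ F l := hmax hl'
    have h4 : F l' = (1 - t) ^ 2 * V + t * (1 - t) * q i := by
      have e1 : ∀ a b, l' a * l' b * ‖p a - p b‖ ^ 2 =
          (1 - t) ^ 2 * (l a * l b * ‖p a - p b‖ ^ 2) +
          t * (1 - t) * ((Pi.single i (1 : ℝ) : κ → ℝ) a * (l b * ‖p a - p b‖ ^ 2)) +
          t * (1 - t) * (l a * ((Pi.single i (1 : ℝ) : κ → ℝ) b * ‖p a - p b‖ ^ 2)) +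
          t ^ 2 * ((Pi.single i (1 : ℝ) : κ → ℝ) a *
            ((Pi.single i (1 : ℝ) : κ → ℝ) b * ‖p a - p b‖ ^ 2)) := by
        intro a b
        show ((1 - t) * l a + t * (Pi.single i (1 : ℝ) : κ → ℝ) a) *
          ((1 - t) * l b + t * (Pi.single i (1 : ℝ) : κ → ℝ) b) * ‖p a - p b‖ ^ 2 = _
        ring
      have s1 : ∑ a, ∑ b, l a * l b * ‖p a - p b‖ ^ 2 = 2 * V := by
        have : F l = (∑ a, ∑ b, l a * l b * ‖p a - p b‖ ^ 2) / 2 := rfl
        linarith
      have s2 : ∑ a, ∑ b, (Pi.single i (1 : ℝ) : κ → ℝ) a * (l b * ‖p a - p b‖ ^ 2) = q i := by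
        rw [Finset.sum_eq_single i]
        · simp only [Pi.single_eq_same, one_mul]; rfl
        · intro b _ hb
          simp [Pi.single_eq_of_ne hb]
        · intro h; exact absurd (Finset.mem_univ i) h
      have s3 : ∑ a, ∑ b, l a * ((Pi.single i (1 : ℝ) : κ → ℝ) b * ‖p a - p b‖ ^ 2) = q i := by
        show _ = ∑ a, l a * ‖p i - p a‖ ^ 2
        refine Finset.sum_congr rfl (fun a _ => ?_)
        rw [Finset.sum_eq_single i]
        · rw [Pi.single_eq_same, one_mul, norm_sub_rev]
        · intro b _ hb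
          simp [Pi.single_eq_of_ne hb]
        · intro h; exact absurd (Finset.mem_univ i) h
      have s4 : ∑ a, ∑ b, (Pi.single i (1 : ℝ) : κ → ℝ) a *
            ((Pi.single i (1 : ℝ) : κ → ℝ) b * ‖p a - p b‖ ^ 2) = 0 := by
        refine Finset.sum_eq_zero (fun a _ => Finset.sum_eq_zero (fun b _ => ?_))
        by_cases ha : a = i
        · by_cases hb : b = i
          · rw [ha, hb, sub_self, norm_zero]; ring
          · rw [Pi.single_eq_of_ne hb]; ring
        · rw [Pi.single_eq_of_ne ha]; ring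
      show (∑ a, ∑ b, l' a * l' b * ‖p a - p b‖ ^ 2) / 2 = _
      rw [Finset.sum_congr rfl (fun a _ => Finset.sum_congr rfl (fun b _ => e1 a b))]
      simp only [Finset.sum_add_distrib, ← Finset.mul_sum]
      rw [s1]
      have s2' : ∑ a, (Pi.single i (1 : ℝ) : κ → ℝ) a * ∑ b, l b * ‖p a - p b‖ ^ 2 = q i := by
        rw [← s2]
        exact Finset.sum_congr rfl (fun a _ => by rw [Finset.mul_sum])
      have s3' : ∑ a, l a * ∑ b, (Pi.single i (1 : ℝ) : κ → ℝ) b * ‖p a - p b‖ ^ 2 = q i := by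
        rw [← s3]
        exact Finset.sum_congr rfl (fun a _ => by rw [Finset.mul_sum])
      have s4' : ∑ a, (Pi.single i (1 : ℝ) : κ → ℝ) a *
            ∑ b, (Pi.single i (1 : ℝ) : κ → ℝ) b * ‖p a - p b‖ ^ 2 = 0 := by
        rw [← s4]
        exact Finset.sum_congr rfl (fun a _ => by rw [Finset.mul_sum])
      rw [s2', s3', s4']
      ring
    rw [hFV, h4] at h3
    have h5 : t * (q i - 2 * V - t * (q i - V)) ≤ 0 := by nlinarith
    have h6 : q i - 2 * V - t * (q i - V) = (q i - 2 * V) / 2 := by rw [htm]; ring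
    rw [h6] at h5
    have h7 : 0 < t * ((q i - 2 * V) / 2) := mul_pos ht0 (by linarith)
    linarith
  refine ⟨c, l, hl0, hl1, fun i => ?_⟩
  rw [dist_comm, dist_eq_norm]
  have h1 := hq i
  have h2 := hfo i
  have h3 : V = (∑ i, ∑ j, l i * l j * ‖p i - p j‖ ^ 2) / 2 := hFV.symm
  rw [← h3]
  linarith

/-- quadratic form on the simplex, one short edge -/
theorem simplex_short {κ : Type*} [Fintype κ] [DecidableEq κ] (hcard : Fintype.card κ ≤ 4)
    (l : κ → ℝ) (hl0 : ∀ i, 0 ≤ l i) (hl1 : ∑ i, l i = 1) (d : κ → κ → ℝ)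
    (hd0 : ∀ i, d i i ≤ 0) (hd : ∀ i j, d i j ≤ 1) (hsym : ∀ i j, d i j = d j i) {D : ℝ}
    (hD0 : 0 ≤ D) (hD1 : D ≤ 1) {a b : κ}
    (hab : a ≠ b) (hdab : d a b ≤ D) :
    (∑ i, ∑ j, l i * l j * d i j) / 2 ≤ 1 / 4 + 1 / (4 * (3 - D)) := by
  classical
  set T : Finset κ := (univ.erase a).erase b with hT
  have hbT : b ∈ univ.erase a := mem_erase.2 ⟨hab.symm, mem_univ _⟩
  have hTc : T.card ≤ 2 := by
    rw [hT, card_erase_of_mem hbT, card_erase_of_mem (mem_univ _), card_univ]
    omega
  have hsplit : ∀ F : κ → ℝ, ∑ i, F i = F a + F b + ∑ i ∈ T, F i := by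
    intro F
    rw [← add_sum_erase _ _ (mem_univ a), ← add_sum_erase _ _ hbT, add_assoc]
  -- the double sum
  have h1 : ∑ i, ∑ j, l i * l j * d i j ≤
      1 - (∑ i, l i ^ 2) - 2 * (1 - D) * (l a * l b) := by
    have h2 : ∑ i, ∑ j, l i * l j = 1 := by
      simp only [← Finset.mul_sum, hl1, mul_one]
    have h3 : ∑ i, l i ^ 2 = ∑ i, ∑ j, if i = j then l i * l j else 0 := by
      refine Finset.sum_congr rfl (fun i _ => ?_)
      rw [Finset.sum_ite_eq]
      simp [pow_two]
    have h4 : (1 - D) * (l a * l b) =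
        ∑ i, ∑ j, if (i = a ∧ j = b) then (1 - D) * (l i * l j) else 0 := by
      rw [Finset.sum_eq_single a, Finset.sum_eq_single b]
      · simp
      · intro j _ hj
        simp [hj]
      · intro h; exact absurd (mem_univ _) h
      · intro i _ hi
        exact Finset.sum_eq_zero (fun j _ => by simp [hi])
      · intro h; exact absurd (mem_univ _) h
    have h5 : (1 - D) * (l a * l b) =
        ∑ i, ∑ j, if (i = b ∧ j = a) then (1 - D) * (l i * l j) else 0 := by
      rw [Finset.sum_eq_single b, Finset.sum_eq_single a]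
      · simp [mul_comm]
      · intro j _ hj
        simp [hj]
      · intro h; exact absurd (mem_univ _) h
      · intro i _ hi
        exact Finset.sum_eq_zero (fun j _ => by simp [hi])
      · intro h; exact absurd (mem_univ _) h
    have h6 : 1 - (∑ i, l i ^ 2) - 2 * (1 - D) * (l a * l b) =
        ∑ i, ∑ j, (l i * l j - (if i = j then l i * l j else 0)
          - (if (i = a ∧ j = b) then (1 - D) * (l i * l j) else 0)
          - (if (i = b ∧ j = a) then (1 - D) * (l i * l j) else 0)) := by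
      simp only [Finset.sum_sub_distrib]
      rw [h2, ← h3, ← h4, ← h5]
      ring
    rw [h6]
    refine Finset.sum_le_sum (fun i _ => Finset.sum_le_sum (fun j _ => ?_))
    have hll : 0 ≤ l i * l j := mul_nonneg (hl0 i) (hl0 j)
    by_cases hij : i = j
    · subst hij
      have e1 : ¬ (i = a ∧ i = b) := fun h => hab (h.1.symm.trans h.2)
      have e2 : ¬ (i = b ∧ i = a) := fun h => hab (h.2.symm.trans h.1)
      rw [if_pos rfl, if_neg e1, if_neg e2]
      have := mul_nonneg hll (neg_nonneg.2 (hd0 i))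
      linarith
    · rw [if_neg hij]
      by_cases e1 : i = a ∧ j = b
      · have e2 : ¬ (i = b ∧ j = a) := fun h => hab (e1.1.symm.trans h.1)
        rw [if_pos e1, if_neg e2, e1.1, e1.2]
        have := mul_le_mul_of_nonneg_left hdab (mul_nonneg (hl0 a) (hl0 b))
        linarith
      · rw [if_neg e1]
        by_cases e2 : i = b ∧ j = a
        · rw [if_pos e2, e2.1, e2.2, hsym b a]
          have := mul_le_mul_of_nonneg_left hdab (mul_nonneg (hl0 b) (hl0 a))
          linarith
        · rw [if_neg e2]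
          have := mul_le_mul_of_nonneg_left (hd i j) hll
          linarith
  have h7 : ∑ i, l i ^ 2 = l a ^ 2 + l b ^ 2 + ∑ i ∈ T, l i ^ 2 := hsplit _
  have h8 : l a + l b + ∑ i ∈ T, l i = 1 := by rw [← hsplit, hl1]
  have h9 : (∑ i ∈ T, l i) ^ 2 ≤ 2 * ∑ i ∈ T, l i ^ 2 := by
    have h := sq_sum_le_card_mul_sum_sq (s := T) (f := l)
    refine h.trans ?_
    have h0 : 0 ≤ ∑ i ∈ T, l i ^ 2 := Finset.sum_nonneg (fun i _ => sq_nonneg _)
    have h1 : (T.card : ℝ) ≤ 2 := by exact_mod_cast hTc
    exact mul_le_mul_of_nonneg_right h1 h0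
  set s := l a + l b with hs
  have h10 : ∑ i ∈ T, l i = 1 - s := by linarith
  rw [h10] at h9
  have h11 : l a * l b ≤ s ^ 2 / 4 := by
    have := sq_nonneg (l a - l b)
    rw [hs]
    nlinarith
  have h12 : l a ^ 2 + l b ^ 2 = s ^ 2 - 2 * (l a * l b) := by rw [hs]; ring
  have h13 : 1 / 2 - s ^ 2 / 2 - (1 - s) ^ 2 / 4 + D * (s ^ 2 / 4) ≤
      1 / 4 + 1 / (4 * (3 - D)) := by
    have h3D : 0 < 3 - D := by linarith
    have h14 : 1 / 4 + 1 / (4 * (3 - D)) -
        (1 / 2 - s ^ 2 / 2 - (1 - s) ^ 2 / 4 + D * (s ^ 2 / 4)) =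
        ((3 - D) * s - 1) ^ 2 / (4 * (3 - D)) := by
      field_simp
      ring
    have h15 : 0 ≤ ((3 - D) * s - 1) ^ 2 / (4 * (3 - D)) := by positivity
    linarith
  have h16 := mul_le_mul_of_nonneg_left h11 hD0
  linarith

/-- if every four points of `K` have a pair at distance `≤ √D`, then `K` lies in a small ball -/
theorem jung_edge (K : Set (EuclideanSpace ℝ (Fin 3)))
    (hd : ∀ x ∈ K, ∀ y ∈ K, dist x y ≤ 1) {D ρ : ℝ} (hD0 : 0 ≤ D) (hD1 : D ≤ 1) (hρ0 : 0 ≤ ρ)
    (hρ : 1 / 4 + 1 / (4 * (3 - D)) ≤ ρ ^ 2)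
    (h4 : ∀ p : Fin 4 → EuclideanSpace ℝ (Fin 3), (∀ i, p i ∈ K) →
      ∃ i j, i ≠ j ∧ dist (p i) (p j) ^ 2 ≤ D) :
    ∃ x0, K ⊆ Metric.closedBall x0 ρ := by
  classical
  have hρ3 : 1 / 3 ≤ ρ ^ 2 := by
    refine le_trans ?_ hρ
    have : 1 / (4 * (3 : ℝ)) ≤ 1 / (4 * (3 - D)) :=
      one_div_le_one_div_of_le (by linarith) (by linarith)
    linarith
  have h := Convex.helly_theorem_compact' (𝕜 := ℝ) (E := EuclideanSpace ℝ (Fin 3))
    (F := fun x : K => Metric.closedBall (x : EuclideanSpace ℝ (Fin 3)) ρ)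
    (fun x => convex_closedBall _ _) (fun x => isCompact_closedBall _ _) (by
      intro I hI
      have hfr : Module.finrank ℝ (EuclideanSpace ℝ (Fin 3)) = 3 := by simp
      rw [hfr] at hI
      rcases I.eq_empty_or_nonempty with he | hIne
      · rw [he]; simp
      · have : Nonempty I := hIne.to_subtype
        obtain ⟨c, l, hl0, hl1, hc⟩ := jung_max (κ := I)
          (fun i => ((i : K) : EuclideanSpace ℝ (Fin 3)))
        refine ⟨c, ?_⟩
        rw [Set.mem_iInter₂]
        intro i hi
        rw [Metric.mem_closedBall]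
        refine abs_le_of_sq_le_sq' ((hc ⟨i, hi⟩).trans ?_) hρ0 |>.2
        have hdd : ∀ i j : I, ‖((i : K) : EuclideanSpace ℝ (Fin 3)) - (j : K)‖ ^ 2 ≤ 1 := by
          intro i j
          have h1 := hd _ (i : K).2 _ (j : K).2
          rw [dist_eq_norm] at h1
          have h2 := norm_nonneg (((i : K) : EuclideanSpace ℝ (Fin 3)) - (j : K))
          nlinarith
        by_cases hc4 : I.card = 4
        · -- four points
          have e4 : Fintype.card I = 4 := by rw [Fintype.card_coe, hc4]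
          obtain ⟨a', b', hab', hdab⟩ := h4
            (fun m => ((((Fintype.equivFinOfCardEq e4).symm m : I) : K) :
              EuclideanSpace ℝ (Fin 3))) (fun m => Subtype.coe_prop _)
          refine le_trans (simplex_short (κ := I) (by rw [Fintype.card_coe]; exact hI) l hl0 hl1
            (fun i j => ‖((i : K) : EuclideanSpace ℝ (Fin 3)) - (j : K)‖ ^ 2)
            (fun i => by simp) hdd (fun i j => by rw [norm_sub_rev]) hD0 hD1
            (a := (Fintype.equivFinOfCardEq e4).symm a')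
            (b := (Fintype.equivFinOfCardEq e4).symm b')
            (fun h => hab' ((Fintype.equivFinOfCardEq e4).symm.injective h)) ?_) hρ
          rw [dist_eq_norm] at hdab
          exact hdab
        · have hI3 : I.card ≤ 3 := by omega
          refine le_trans ?_ hρ3
          have g1 : ∑ i, ∑ j, l i * l j *
              ‖((i : K) : EuclideanSpace ℝ (Fin 3)) - (j : K)‖ ^ 2 ≤ 1 - ∑ i, l i ^ 2 := by
            have g2 : ∑ i, ∑ j, l i * l j = 1 := by
              simp only [← Finset.mul_sum, hl1, mul_one]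
            have g3 : ∑ i, l i ^ 2 = ∑ i, ∑ j, if i = j then l i * l j else 0 := by
              refine Finset.sum_congr rfl (fun i _ => ?_)
              rw [Finset.sum_ite_eq]
              simp [pow_two]
            rw [← g2, g3, ← Finset.sum_sub_distrib]
            refine Finset.sum_le_sum (fun i _ => ?_)
            rw [← Finset.sum_sub_distrib]
            refine Finset.sum_le_sum (fun j _ => ?_)
            have hll : 0 ≤ l i * l j := mul_nonneg (hl0 i) (hl0 j)
            by_cases hij : i = j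
            · rw [if_pos hij, hij, sub_self, norm_zero]; simp
            · rw [if_neg hij, sub_zero]
              have g4 := mul_le_mul_of_nonneg_left (hdd i j) hll
              linarith
          have g5 : (1 : ℝ) ≤ 3 * ∑ i, l i ^ 2 := by
            have g6 := sq_sum_le_card_mul_sum_sq (s := (Finset.univ : Finset I)) (f := l)
            rw [hl1, one_pow, Finset.card_univ, Fintype.card_coe] at g6
            have g7 : (I.card : ℝ) ≤ 3 := by exact_mod_cast hI3
            have g8 : 0 ≤ ∑ i, l i ^ 2 := Finset.sum_nonneg (fun i _ => sq_nonneg _)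
            exact g6.trans (mul_le_mul_of_nonneg_right g7 g8)
          linarith)
  obtain ⟨c, hc⟩ := h
  refine ⟨c, fun x hx => ?_⟩
  rw [Set.mem_iInter] at hc
  have := hc ⟨x, hx⟩
  rw [Metric.mem_closedBall] at this ⊢
  rw [dist_comm]
  exact this

/-- four almost equidistant points -/
theorem four_points {K : Set Helper80.CW.E3} (hK : IsCompact K) (hc : Convex ℝ K)
    (hw : Helper80.CW.Width1 K) (hvol : volume K ≤ ENNReal.ofReal VM) :
    ∃ p : Fin 4 → Helper80.CW.E3, (∀ i, p i ∈ K) ∧ ∀ i j, i ≠ j → 0.8888 < dist (p i) (p j) := by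
  by_contra hcon
  push Not at hcon
  have h1 := jung_edge K (diam_le hK hw) (D := 0.79) (ρ := 0.6026) (by norm_num) (by norm_num)
    (by norm_num) (by norm_num) (by
      intro p hp
      obtain ⟨i, j, hij, h⟩ := hcon p hp
      refine ⟨i, j, hij, ?_⟩
      have h0 := dist_nonneg (x := p i) (y := p j)
      nlinarith)
  obtain ⟨x0, hx0⟩ := h1
  have h2 := volume_circum hK hc hw (by norm_num) hx0
  have h3 := (h2.trans hvol)
  rw [ENNReal.ofReal_le_ofReal_iff'] at h3
  have h4 := thr
  have h5 := VM_lt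
  rcases h3 with h3 | h3 <;> linarith

end Helper82.CW
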